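import Pool.Agent.Lib.P1346T.NodeF

/-!
# MODULE CloA: the closure of two elements of the same side (about 2.2 h)

Let `x ≠ x'` be on the same side and separated at level `i`; `W = qs i x` is their node, `C = qs (i+1) x`,
`C' = qs (i+1) x'` the children that contain them.

STATEMENTS AND PROOFS.
`clo_sub`: the closure stays in `W`: an element outside `W` sees `W` uniformly (`uniform`), so it does not
distinguish two elements of `W`.
`clo_eq`: if `typ W ≠ ord` the closure after 6 steps is `C ∪ C'`.  By symmetry let `typ W = par` (for `ser`
exchange true and false; one can treat both at once with `rl c`, `D_rl`-style).  Entries between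
different children are false (`sib_par`).  (`⊆`) Induction on the number of steps: `z` which distinguishes
`a, b ∈ C ∪ C'` is in `W` (`clo_sub`), and if it were in a third child both entries would be false.
(`⊇`) Every element of `C` at `par`-distance at most `n` from `x` inside `C` is in the closure after `n` steps
(and the same for `C'`, `x'`): let `a ∈ C` be in the closure after `n` steps, `z ∈ C` adjacent to `a`.  We need
an element `b` of the closure (after `n` steps) with `side b = side a` and `¬ ed z b`: any element of `C'` on
the side of `a`.  If `side a = side x = side x'` take `b = x'`.  Otherwise `n ≥ 1` (after 0 steps the closure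
is `{x, x'}`), and by `two_sided` there is `b ∈ C'` adjacent to `x'`, on the other side than `x'`, and it is
in the closure after 1 step (it distinguishes `x'` and `x`).  By `sc_child` all elements of `C` have distance
at most 6 from `x` inside `C`.
`ps_iff`: if `typ W = ord` then `x, x'` are not mutually reachable by `ord`-paths inside `W` (otherwise
`qs (i+1) x x'`), so not inside the closure (`clo_sub`).  If `typ W ≠ ord`, the closure is `C ∪ C'`; let
`typ W = par`.  Let `x, x'` be rows (columns: reverse arcs).  `x` has a neighbour `y ∈ C`; `D .ord x y` (entry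
true), and `D .ord y x'` (entry `M x' y` false): a path `x -> y -> x'` of length 2 inside the closure; the same
from `x'` to `x`.  For `ser`: let `y' ∈ C'` be a non-neighbour of `x'` (`two_sided`): `D .ord x y'` (entries
between `C` and `C'` are true) and `D .ord y' x'`: the path `x -> y' -> x'`.  For columns `x, x'`: `par`: `D .ord x r` iff `M r x` false: take `r ∈ C'` a neighbour of
`x'`: `D .ord x r` (entry of `r ∈ C'`, `x` false) and `D .ord r x'` (entry true); `ser`: `r ∈ C` a
non-neighbour of `x`: `D .ord x r`, and `D .ord r x'` (entry true).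
-/

set_option autoImplicit false

namespace P1346e8

namespace T

open L

variable {Z : Type} {side : Z → Bool} {M : Z → Z → Prop}

namespace CloAAux

open L.RefineAux

theorem bool_eq {a b c : Bool} (h1 : a ≠ c) (h2 : b ≠ c) : a = b := by
  cases a <;> cases b <;> cases c <;> simp_all

theorem D_side {ρ : Rule} {u v : Z} (h : D side M ρ u v) : side u ≠ side v := by
  cases ρ with
  | par => exact h.1
  | ser => exact h.1
  | ord => exact h.1

theorem clo_comm : ∀ (n : ℕ) (x x' z : Z), Clo side M n x x' z → Clo side M n x' x z
  | 0, _, _, _, h => h.symm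
  | n + 1, x, x', z, h => by
    rcases h with h | ⟨a, b, ha, hb, h1, h2, h3, h4⟩
    · exact Or.inl (clo_comm n x x' z h)
    · exact Or.inr ⟨a, b, clo_comm n x x' a ha, clo_comm n x x' b hb, h1, h2, h3, h4⟩

theorem clo_mono {m n : ℕ} (hmn : m ≤ n) {x x' z : Z} (h : Clo side M m x x' z) :
    Clo side M n x x' z := by
  induction hmn with
  | refl => exact h
  | step _ ih => exact Or.inl ih

/-- entries between different children are constant -/
theorem cross_entry (hT : TotD side M) {i : ℕ} {x a b : Z}
    (ht : typ side M (qs side M i x) ≠ .ord)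
    (ha : qs side M i x a) (hab : qs side M i a b) (hn : ¬ qs side M (i + 1) a b)
    (hs : side a ≠ side b) :
    ed side M a b ↔ typ side M (qs side M i x) = .ser := by
  have hcl := qs_class hT ha
  cases hty : typ side M (qs side M i x) with
  | ord => exact absurd hty ht
  | par =>
    rw [hcl] at hty
    exact ⟨fun h => absurd h (sib_par hT hty hab hn hs), fun h => Rule.noConfusion h⟩
  | ser =>
    rw [hcl] at hty
    exact ⟨fun _ => rfl, fun _ => sib_ser hT hty hab hn hs⟩

theorem D_entry {ρ : Rule} (ht : ρ ≠ .ord) {u v : Z} (h : D side M ρ u v) :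
    ed side M u v ↔ ρ ≠ .ser := by
  cases ρ with
  | ord => exact absurd rfl ht
  | par =>
    refine ⟨fun _ h3 => ?_, fun _ => h.2⟩
    exact Rule.noConfusion h3
  | ser => exact ⟨fun h' => absurd h' h.2, fun h' => absurd rfl h'⟩

theorem half (hT : TotD side M) {i : ℕ} {x x' : Z} (h : qs side M i x x')
    (hn : ¬ qs side M (i + 1) x x') (hs : side x = side x')
    (ht : typ side M (qs side M i x) ≠ .ord) : ∀ (n : ℕ) (a : Z),
    Pth side M (typ side M (qs side M i x)) (both (qs side M (i + 1) x)) n x a →
      Clo side M n x x' a
  | 0, a, hp => by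
    obtain ⟨_, rfl⟩ := hp
    exact Or.inl rfl
  | n + 1, a, hp => by
    rcases hp with hp | ⟨w, h1, h2, h3⟩
    · exact Or.inl (half hT h hn hs ht n a hp)
    · have hq := qs_eqOn hT i
      have hq1 := qs_eqOn hT (i + 1)
      have hw := half hT h hn hs ht n w h1
      have hwa : side w ≠ side a := D_side h3
      have he := D_entry ht h3
      -- entries between the two children
      have hcr : ∀ c d, qs side M (i + 1) x c → qs side M (i + 1) x' d → side c ≠ side d →
          (ed side M c d ↔ typ side M (qs side M i x) = .ser) := by
        intro c d hc hd hsd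
        refine cross_entry hT ht (qs_le hT (Nat.le_succ i) hc) ?_ ?_ hsd
        · exact hq.trans _ _ _ (hq.symm _ _ (qs_le hT (Nat.le_succ i) hc))
            (hq.trans _ _ _ h (qs_le hT (Nat.le_succ i) hd))
        · intro h5
          exact hn (hq1.trans _ _ _ hc (hq1.trans _ _ _ h5 (hq1.symm _ _ hd)))
      -- an element of the other child on the side of `w`
      have hb : ∃ b, Clo side M n x x' b ∧ qs side M (i + 1) x' b ∧ side b = side w := by
        by_cases hsw : side w = side x
        · exact ⟨x', clo_mono (Nat.zero_le n) (Or.inr rfl), hq1.refl _ trivial,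
            hs.symm.trans hsw.symm⟩
        · have hn1 : 1 ≤ n := by
            rcases Nat.eq_zero_or_pos n with h0 | h0
            · subst h0
              obtain ⟨_, h5⟩ := h1
              exact absurd (h5 ▸ rfl) hsw
            · exact h0
          have hne : x' ≠ x := by
            rintro rfl
            exact hn (hq1.refl _ trivial)
          have ht' : typ side M (qs side M i x') ≠ .ord := by
            rw [← qs_class hT h]
            exact ht
          obtain ⟨b, hb1, hb2, hb3⟩ := two_sided hT ht' (hq.symm _ _ h) hne
          rw [← qs_class hT h] at hb3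
          have hb4 := D_entry ht hb3
          have hsb : side x ≠ side b := by
            rw [hs]
            exact hb2
          have hb5 := hcr x b (hq1.refl _ trivial) hb1 hsb
          refine ⟨b, clo_mono hn1 (Or.inr ?_), hb1, bool_eq hsb.symm hsw⟩
          have hx : Clo side M 0 x x' x := Or.inl rfl
          have hx' : Clo side M 0 x x' x' := Or.inr rfl
          by_cases hser : typ side M (qs side M i x) = .ser
          · refine ⟨x, x', hx, hx', hs, hsb, (ed_symm hsb).1 (hb5.2 hser), fun h6 => ?_⟩
            exact (hb4.1 ((ed_symm hb2).2 h6)) hser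
          · refine ⟨x', x, hx', hx, hs.symm, hb2, (ed_symm hb2).1 (hb4.2 hser), fun h6 => ?_⟩
            exact hser (hb5.1 ((ed_symm hsb).2 h6))
      obtain ⟨b, hb1, hb2, hb3⟩ := hb
      have hab : side a ≠ side b := by
        rw [hb3]
        exact hwa.symm
      have hcab := hcr a b h2.2 hb2 hab
      right
      by_cases hser : typ side M (qs side M i x) = .ser
      · refine ⟨b, w, hb1, hw, hb3, hab.symm, hcab.2 hser, fun h6 => ?_⟩
        exact (he.1 ((ed_symm hwa).2 h6)) hser
      · refine ⟨w, b, hw, hb1, hb3.symm, hwa, (ed_symm hwa).1 (he.2 hser), fun h6 => ?_⟩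
        exact hser (hcab.1 h6)

end CloAAux

open CloAAux L.RefineAux

theorem clo_sub (hT : TotD side M) {i : ℕ} {x x' : Z} (h : qs side M i x x') (n : ℕ) (z : Z)
    (hz : Clo side M n x x' z) : qs side M i x z := by
  induction n generalizing z with
  | zero =>
    rcases hz with rfl | rfl
    · exact (qs_eqOn hT i).refl _ trivial
    · exact h
  | succ n ih =>
    rcases hz with hz | ⟨a, b, ha, hb, h1, h2, h3, h4⟩
    · exact ih z hz
    · by_contra hcon
      have hsb : side b ≠ side z := by
        rw [← h1]
        exact h2
      exact h4 ((uniform hT hcon (ih a ha) (ih b hb) h2 hsb).1 h3)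

theorem clo_eq (hT : TotD side M) {i : ℕ} {x x' : Z} (h : qs side M i x x')
    (hn : ¬ qs side M (i + 1) x x') (hs : side x = side x')
    (ht : typ side M (qs side M i x) ≠ .ord) (z : Z) :
    Clo side M 6 x x' z ↔ (qs side M (i + 1) x z ∨ qs side M (i + 1) x' z) := by
  have hq := qs_eqOn hT i
  have hq1 := qs_eqOn hT (i + 1)
  constructor
  · have hgen : ∀ (n : ℕ) (z : Z), Clo side M n x x' z →
        (qs side M (i + 1) x z ∨ qs side M (i + 1) x' z) := by
      intro n
      induction n with
      | zero =>
        rintro z (rfl | rfl)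
        · exact Or.inl (hq1.refl _ trivial)
        · exact Or.inr (hq1.refl _ trivial)
      | succ n ih =>
        intro z hz
        have hzW := clo_sub hT h (n + 1) z hz
        rcases hz with hz | ⟨a, b, ha, hb, h1, h2, h3, h4⟩
        · exact ih z hz
        · by_contra hcon
          push Not at hcon
          have hsb : side b ≠ side z := by
            rw [← h1]
            exact h2
          have hc : ∀ c, (qs side M (i + 1) x c ∨ qs side M (i + 1) x' c) →
              side c ≠ side z → (ed side M z c ↔ typ side M (qs side M i x) = .ser) := by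
            intro c hc hsc
            have hxc : qs side M i x c := by
              rcases hc with hc | hc
              · exact qs_le hT (Nat.le_succ i) hc
              · exact hq.trans _ _ _ h (qs_le hT (Nat.le_succ i) hc)
            refine cross_entry hT ht hzW (hq.trans _ _ _ (hq.symm _ _ hzW) hxc) ?_ hsc.symm
            intro h5
            rcases hc with hc | hc
            · exact hcon.1 (hq1.trans _ _ _ hc (hq1.symm _ _ h5))
            · exact hcon.2 (hq1.trans _ _ _ hc (hq1.symm _ _ h5))
          have h5 := hc a (ih a ha) h2
          have h6 := hc b (ih b hb) hsb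
          exact h4 (h6.2 (h5.1 h3))
    exact hgen 6 z
  · rintro (hz | hz)
    · exact half hT h hn hs ht 6 z (sc_child hT i x x z (hq1.refl _ trivial) hz)
    · have ht' : typ side M (qs side M i x') ≠ .ord := by
        rw [← qs_class hT h]
        exact ht
      exact clo_comm 6 x' x z (half hT (hq.symm _ _ h) (fun h5 => hn (hq1.symm _ _ h5)) hs.symm ht'
        6 z (sc_child hT i x' x' z (hq1.refl _ trivial) hz))

theorem ps_iff (hT : TotD side M) {i : ℕ} {x x' : Z} (h : qs side M i x x')
    (hn : ¬ qs side M (i + 1) x x') (hs : side x = side x') :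
    PS side M x x' ↔ typ side M (qs side M i x) ≠ .ord := by
  have hq := qs_eqOn hT i
  have hq1 := qs_eqOn hT (i + 1)
  constructor
  · rintro ⟨_, _, h1, h2⟩ hty
    apply hn
    change nxt side M (typ side M (qs side M i x)) (qs side M i) x x'
    rw [hty]
    have himp : ∀ a b, both (Clo side M 6 x x') a b → qs side M i a b := fun a b hab =>
      hq.trans _ _ _ (hq.symm _ _ (clo_sub hT h 6 a hab.1)) (clo_sub hT h 6 b hab.2)
    exact ⟨pth_imp himp 6 x x' h1, pth_imp himp 6 x' x h2⟩
  · intro ht
    have hne : x ≠ x' := by
      rintro rfl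
      exact hn (hq1.refl _ trivial)
    have ht' : typ side M (qs side M i x') ≠ .ord := by
      rw [← qs_class hT h]
      exact ht
    obtain ⟨y, hy1, hy2, hy3⟩ := two_sided hT ht h hne
    obtain ⟨y', hy1', hy2', hy3'⟩ := two_sided hT ht' (hq.symm _ _ h) hne.symm
    rw [← qs_class hT h] at hy3'
    have hclo := fun z => (clo_eq hT h hn hs ht z).2
    have hx : Clo side M 6 x x' x := hclo x (Or.inl (hq1.refl _ trivial))
    have hx' : Clo side M 6 x x' x' := hclo x' (Or.inr (hq1.refl _ trivial))
    have hy : Clo side M 6 x x' y := hclo y (Or.inl hy1)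
    have hy' : Clo side M 6 x x' y' := hclo y' (Or.inr hy1')
    have e1 := D_entry ht hy3
    have e2 := D_entry ht hy3'
    have hcr : ∀ c d, qs side M (i + 1) x c → qs side M (i + 1) x' d → side c ≠ side d →
        (ed side M c d ↔ typ side M (qs side M i x) = .ser) := by
      intro c d hc hd hsd
      refine cross_entry hT ht (qs_le hT (Nat.le_succ i) hc) ?_ ?_ hsd
      · exact hq.trans _ _ _ (hq.symm _ _ (qs_le hT (Nat.le_succ i) hc))
          (hq.trans _ _ _ h (qs_le hT (Nat.le_succ i) hd))
      · intro h5
        exact hn (hq1.trans _ _ _ hc (hq1.trans _ _ _ h5 (hq1.symm _ _ hd)))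
    have hs1 : side x ≠ side y' := by
      rw [hs]
      exact hy2'
    have hs2 : side x' ≠ side y := by
      rw [← hs]
      exact hy2
    have e3 := hcr x y' (hq1.refl _ trivial) hy1' hs1
    have e4 := hcr y x' hy1 (hq1.refl _ trivial) hs2.symm
    rw [← ed_symm hs2] at e4
    -- two arcs through `w`
    have key : ∀ a b w, Clo side M 6 x x' a → Clo side M 6 x x' b → Clo side M 6 x x' w →
        side a = side b → side a ≠ side w → (ed side M a w ↔ side a = true) →
        (ed side M b w ↔ ¬ side a = true) →
        Pth side M .ord (both (Clo side M 6 x x')) 6 a b := by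
      intro a b w ha hb hw h1 h2 h3 h4
      have hD1 : D side M .ord a w := ⟨h2, h3⟩
      have h5 : side w ≠ side b := by
        rw [← h1]
        exact h2.symm
      have hD2 : D side M .ord w b := by
        refine ⟨h5, ?_⟩
        rw [ed_symm h5, h4]
        cases ha' : side a <;> cases hw' : side w <;> simp_all
      have h6 : Pth side M .ord (both (Clo side M 6 x x')) 2 a b := by
        refine Or.inr ⟨w, Or.inr ⟨a, ⟨⟨ha, ha⟩, rfl⟩, ⟨ha, hw⟩, hD1⟩, ⟨hw, hb⟩, hD2⟩
      exact Pth.mono (by norm_num) h6
    refine ⟨hs, hne, ?_, ?_⟩
    · -- from `x` to `x'`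
      by_cases hc : typ side M (qs side M i x) = .ser
      · by_cases hr : side x = true
        · refine key x x' y' hx hx' hy' hs hs1 ?_ ?_
          · exact ⟨fun _ => hr, fun _ => e3.2 hc⟩
          · exact ⟨fun h5 => absurd hc (e2.1 h5), fun h5 => absurd hr h5⟩
        · refine key x x' y hx hx' hy hs hy2 ?_ ?_
          · exact ⟨fun h5 => absurd hc (e1.1 h5), fun h5 => absurd h5 hr⟩
          · exact ⟨fun _ => hr, fun _ => e4.2 hc⟩
      · by_cases hr : side x = true
        · refine key x x' y hx hx' hy hs hy2 ?_ ?_
          · exact ⟨fun _ => hr, fun _ => e1.2 hc⟩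
          · exact ⟨fun h5 => absurd (e4.1 h5) hc, fun h5 => absurd hr h5⟩
        · refine key x x' y' hx hx' hy' hs hs1 ?_ ?_
          · exact ⟨fun h5 => absurd (e3.1 h5) hc, fun h5 => absurd h5 hr⟩
          · exact ⟨fun _ => hr, fun _ => e2.2 hc⟩
    · -- from `x'` to `x`
      by_cases hc : typ side M (qs side M i x) = .ser
      · by_cases hr : side x' = true
        · refine key x' x y hx' hx hy hs.symm hs2 ?_ ?_
          · exact ⟨fun _ => hr, fun _ => e4.2 hc⟩
          · exact ⟨fun h5 => absurd hc (e1.1 h5), fun h5 => absurd hr h5⟩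
        · refine key x' x y' hx' hx hy' hs.symm hy2' ?_ ?_
          · exact ⟨fun h5 => absurd hc (e2.1 h5), fun h5 => absurd h5 hr⟩
          · exact ⟨fun _ => hr, fun _ => e3.2 hc⟩
      · by_cases hr : side x' = true
        · refine key x' x y' hx' hx hy' hs.symm hy2' ?_ ?_
          · exact ⟨fun _ => hr, fun _ => e2.2 hc⟩
          · exact ⟨fun h5 => absurd (e3.1 h5) hc, fun h5 => absurd hr h5⟩
        · refine key x' x y hx' hx hy hs.symm hs2 ?_ ?_
          · exact ⟨fun h5 => absurd (e4.1 h5) hc, fun h5 => absurd h5 hr⟩
          · exact ⟨fun _ => hr, fun _ => e1.2 hc⟩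

end T

end P1346e8
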