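import Pool.Agent.Lib.P1346T.TreeO

/-!
# MODULE Corn3: no 3 x 3 corners on one side (about 1.8 h)

STATEMENT. Write `<` for `LtT side M lt`. Let `p 0 < p' 0 ≤ p 1 < p' 1 ≤ p 2 < p' 2 < q 0 < q' 0 ≤ q 1 < q' 1 ≤
q 2 < q' 2` with all `p`, `p'` on one side and all `q`, `q'` on the other side. Then for some `i, j` the
rows `p i, p' i` are equal on `q j, q' j` or the columns `q j, q' j` are equal on `p i, p' i`.

PROOF. Suppose not.  For `a ≠ b` let `N(a, b)` be the node (class `qs l a`) that separates them: `l` with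
`qs l a b`, `¬ qs (l+1) a b` (`exists_sep`); nodes are intervals (`conv`).  Let `w i = N(p i, p' i)`,
`v j = N(q j, q' j)`.
(1) `q j ∈ w i` for all `i, j`: otherwise `q j`, `q' j` are both outside `w i` (they are both larger than `p' i`;
if `q' j ∈ w i` then by `conv` `q j ∈ w i`), so each of them sees `p i` and `p' i` with the same entry
(`uniform`): the rows are equal.  (2) In the same way `p' i ∈ v j` for all `i, j` (otherwise `p i`, `p' i` are
both outside `v j`, and the columns are equal).
(3) Let `i ∈ {1, 2}`, `j ∈ {0, 1}`.  Then `p i ∈ v j` (it is between `p' 0 ∈ v j` and `q j ∈ v j`, or equal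
to `p' 0`), and `q' j ∈ w i` (it is between `p i ∈ w i` and `q (j+1) ∈ w i`, or equal to `q (j+1)`).  The
elements `p i` and `q' j` are in different children of `w i` (otherwise by `conv` `p' i`, which is between
them, would be in the same child as `p i`), and in different children of `v j` (otherwise `q j`, which is
between them, would be in the same child as `q' j`).  So `w i = N(p i, q' j) = v j` (same level by
`sep_unique`).  Hence `w 1 = w 2 = v 0 = v 1 =: w`, a class of `qs l`.
(4) The children of `w` that contain `p 1, p' 1, p 2, p' 2, q 0, q' 0, q 1, q' 1`: `p 1`, `p' 1` are in different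
children, so are `p 2`, `p' 2`, and `q 0`, `q' 0`, and `q 1`, `q' 1`.  For `i = 1`, `j = 1`: `p 1`, `p' 1` are in
other children than `q 1`, `q' 1`: e.g. if `qs (l+1) (p' 1) (q 1)` then by `conv` `p 2`, `p' 2` (which are between
them, `p' 1 ≤ p 2 < p' 2 < q 1`) would be in the same child, contradiction.  So by `entry` the four entries of
`p 1, p' 1` with `q 1, q' 1` are equal: the rows are equal, contradiction.
(`uniform` is about `ed z a` for `z` outside; use `ed_symm` to exchange.)
-/

set_option autoImplicit false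

namespace P1346e8

namespace T

open L

variable {Z : Type} [Finite Z] {side : Z → Bool} {M lt : Z → Z → Prop}

theorem corner3 (hT : TotD side M) (hlt : StrictLin (fun _ => True) lt) (p p' q q' : Fin 3 → Z)
    (b : Bool) (hp : ∀ i, side (p i) = b) (hp' : ∀ i, side (p' i) = b)
    (hq : ∀ i, side (q i) = !b) (hq' : ∀ i, side (q' i) = !b)
    (h1 : ∀ i, LtT side M lt (p i) (p' i)) (h2 : ∀ i, LtT side M lt (q i) (q' i))
    (h3 : ∀ i j, i < j → p' i = p j ∨ LtT side M lt (p' i) (p j))
    (h4 : ∀ i j, i < j → q' i = q j ∨ LtT side M lt (q' i) (q j))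
    (h5 : ∀ i j, LtT side M lt (p' i) (q j)) :
    ∃ i j, ((ed side M (p i) (q j) ↔ ed side M (p' i) (q j)) ∧
        (ed side M (p i) (q' j) ↔ ed side M (p' i) (q' j))) ∨
      ((ed side M (p i) (q j) ↔ ed side M (p i) (q' j)) ∧
        (ed side M (p' i) (q j) ↔ ed side M (p' i) (q' j))) := by
  obtain ⟨hirr, htr, -⟩ := ltT_lin hT hlt
  have tr : ∀ {a b c : Z}, LtT side M lt a b → LtT side M lt b c → LtT side M lt a c :=
    fun h h' => htr _ _ _ trivial trivial trivial h h'
  have ne : ∀ {a b : Z}, LtT side M lt a b → a ≠ b := by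
    rintro a b h rfl
    exact hirr a trivial h
  have sy : ∀ {n : ℕ} {a b : Z}, qs side M n a b → qs side M n b a :=
    fun h => (qs_eqOn hT _).symm _ _ h
  have tn : ∀ {n : ℕ} {a b c : Z}, qs side M n a b → qs side M n b c → qs side M n a c :=
    fun h h' => (qs_eqOn hT _).trans _ _ _ h h'
  have hpq : ∀ i j, side (p i) ≠ side (q j) := fun i j => by rw [hp, hq]; cases b <;> simp
  have hpq' : ∀ i j, side (p i) ≠ side (q' j) := fun i j => by rw [hp, hq']; cases b <;> simp
  have hp'q : ∀ i j, side (p' i) ≠ side (q j) := fun i j => by rw [hp', hq]; cases b <;> simp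
  have hp'q' : ∀ i j, side (p' i) ≠ side (q' j) := fun i j => by rw [hp', hq']; cases b <;> simp
  by_contra hcon
  have hrow : ∀ i j, (ed side M (p i) (q j) ↔ ed side M (p' i) (q j)) →
      (ed side M (p i) (q' j) ↔ ed side M (p' i) (q' j)) → False :=
    fun i j h h' => hcon ⟨i, j, Or.inl ⟨h, h'⟩⟩
  have hcol : ∀ i j, (ed side M (p i) (q j) ↔ ed side M (p i) (q' j)) →
      (ed side M (p' i) (q j) ↔ ed side M (p' i) (q' j)) → False :=
    fun i j h h' => hcon ⟨i, j, Or.inr ⟨h, h'⟩⟩
  choose l hl hl' using fun i => exists_sep hT (ne (h1 i))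
  choose m hm hm' using fun j => exists_sep hT (ne (h2 j))
  -- (1)
  have H1 : ∀ i j, qs side M (l i) (p i) (q j) := by
    intro i j
    by_contra hc
    have hc' : ¬ qs side M (l i) (p i) (q' j) := fun h =>
      hc (conv hT hlt (tr (h1 i) (h5 i j)) (h2 j) h)
    have e1 := uniform hT hc ((qs_eqOn hT (l i)).refl _ trivial) (hl i) (hpq i j) (hp'q i j)
    have e2 := uniform hT hc' ((qs_eqOn hT (l i)).refl _ trivial) (hl i) (hpq' i j) (hp'q' i j)
    refine hrow i j ?_ ?_
    · rw [ed_symm (hpq i j), ed_symm (hp'q i j)]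
      exact e1
    · rw [ed_symm (hpq' i j), ed_symm (hp'q' i j)]
      exact e2
  -- (2)
  have H2 : ∀ i j, qs side M (m j) (q j) (p' i) := by
    intro i j
    by_contra hc
    have hc' : ¬ qs side M (m j) (q j) (p i) := fun h =>
      hc (tn h (conv hT hlt (h1 i) (h5 i j) (sy h)))
    have e1 := uniform hT hc ((qs_eqOn hT (m j)).refl _ trivial) (hm j) (hp'q i j).symm
      (hp'q' i j).symm
    have e2 := uniform hT hc' ((qs_eqOn hT (m j)).refl _ trivial) (hm j) (hpq i j).symm
      (hpq' i j).symm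
    exact hcol i j e2 e1
  -- (3)
  have H3 : ∀ i j k : Fin 3, 0 < i → j < k → l i = m j := by
    intro i j k hi hjk
    have a1 : qs side M (m j) (p i) (q' j) := by
      have hx : qs side M (m j) (p' 0) (p i) := by
        rcases h3 0 i hi with h | h
        · rw [h]
          exact (qs_eqOn hT _).refl _ trivial
        · exact conv hT hlt h (tr (h1 i) (h5 i j)) (sy (H2 0 j))
      exact tn (sy hx) (tn (sy (H2 0 j)) (hm j))
    have a2 : qs side M (l i) (p i) (q' j) := by
      rcases h4 j k hjk with h | h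
      · rw [h]
        exact H1 i k
      · exact conv hT hlt (tr (tr (h1 i) (h5 i j)) (h2 j)) h (H1 i k)
    have a3 : ¬ qs side M (l i + 1) (p i) (q' j) := fun h =>
      hl' i (conv hT hlt (h1 i) (tr (h5 i j) (h2 j)) h)
    have a4 : ¬ qs side M (m j + 1) (p i) (q' j) := fun h =>
      hm' j (tn (sy (conv hT hlt (tr (h1 i) (h5 i j)) (h2 j) h)) h)
    exact sep_unique hT a2 a3 a1 a4
  have L12 : l 2 = l 1 := (H3 2 1 2 (by decide) (by decide)).trans
    (H3 1 1 2 (by decide) (by decide)).symm
  have Lm : l 1 = m 1 := H3 1 1 2 (by decide) (by decide)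
  have b1 := H1 1 1
  have b2 : qs side M (l 1) (p 1) (q' 1) := by
    have := hm 1
    rw [← Lm] at this
    exact tn b1 this
  have c1 : ¬ qs side M (l 1 + 1) (p 1) (q 1) := fun h =>
    hl' 1 (conv hT hlt (h1 1) (h5 1 1) h)
  have c2 : ¬ qs side M (l 1 + 1) (p 1) (q' 1) := fun h =>
    hl' 1 (conv hT hlt (h1 1) (tr (h5 1 1) (h2 1)) h)
  have c3 : ¬ qs side M (l 1 + 1) (p' 1) (q 1) := by
    intro h
    have d1 : qs side M (l 1 + 1) (p' 1) (p 2) := by
      rcases h3 1 2 (by decide) with h' | h'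
      · rw [h']
        exact (qs_eqOn hT _).refl _ trivial
      · exact conv hT hlt h' (tr (h1 2) (h5 2 1)) h
    have d2 : qs side M (l 1 + 1) (p 2) (q 1) := tn (sy d1) h
    have d3 : qs side M (l 1 + 1) (p 2) (p' 2) := conv hT hlt (h1 2) (h5 2 1) d2
    rw [← L12] at d3
    exact hl' 2 d3
  have c4 : ¬ qs side M (l 1 + 1) (p' 1) (q' 1) := fun h =>
    c3 (conv hT hlt (h5 1 1) (h2 1) h)
  refine hrow 1 1 ?_ ?_
  · exact entry hT hlt b1 (hl 1) b1 c1 c3 (tr (h1 1) (h5 1 1)) (h5 1 1) (hpq 1 1)
      ((hp' 1).trans (hp 1).symm) rfl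
  · exact entry hT hlt b2 (hl 1) b2 c2 c4 (tr (tr (h1 1) (h5 1 1)) (h2 1)) (tr (h5 1 1) (h2 1))
      (hpq' 1 1) ((hp' 1).trans (hp 1).symm) rfl

end T

end P1346e8
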