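import Pool.Agent.Lib.P1346T.Corn3

/-!
# MODULE Corn6: the corner relation contains no `K_{6,6}` (about 1.5 h)

STATEMENT. Let `P` be a set of rows and `Q` a set of columns of `Z`, both ordered by `LtT side M lt`. The
corner relation of `M` contains no `K_{6,6}`.

PROOF. Suppose `f, g : Fin 6 → Z` are injective with `Corner P < Q < M (f i) (g j)` for all `i, j`.  The next
elements `f' i` of `f i` in `P` and `g' j` of `g j` in `Q` are unique (`<` is a strict linear order: `ltT_lin`),
so they do not depend on the other index.  Sort: there are permutations `σ`, `τ` of `Fin 6` such that `x := f ∘ σ`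
and `y := g ∘ τ` are strictly increasing (e.g. `Finset.orderEmbOfFin` or `Tuple.sort` for the linear order
given by `<`, or by induction); `x' := f' ∘ σ`, `y' := g' ∘ τ`.  As `x' i` is the next element after `x i` in
`P`: `x' i ≤ x j` for `i < j`; the same for `y`.  Compare `x 3` and `y 3` (different, as they are on
different sides).
If `x 3 < y 3`: `corner3` with `p i = x i`, `p' i = x' i` (`i < 3`), `q j = y (j+3)`, `q' j = y' (j+3)`
(`p' i ≤ x 3 < y 3 ≤ q j`), `b = true`.  It gives `i, j` with equal rows or equal columns; for a row `u` and a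
column `v` the entry `ed side M u v` is `M u v`: contradiction to `Corner` at `x i`, `y (j+3)`.
If `y 3 < x 3`: `corner3` with `p i = y i`, `p' i = y' i`, `q j = x (j+3)`, `q' j = x' (j+3)`, `b = false`; for a
column `u` and a row `v` the entry `ed side M u v` is `M v u`; the roles of rows and columns are exchanged,
contradiction to `Corner` at `x (j+3)`, `y i`.
-/

set_option autoImplicit false

namespace P1346e8

namespace T

open L

variable {Z : Type} [Finite Z] {side : Z → Bool} {M lt : Z → Z → Prop}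

namespace Corn6Aux

/-- a strict linear order on a finite set is given by a numbering -/
theorem rank {Z : Type} [Finite Z] {r : Z → Z → Prop} (h : StrictLin (fun _ => True) r) :
    ∃ ν : Z → ℕ, ∀ a b, ν a < ν b ↔ r a b := by
  classical
  have := Fintype.ofFinite Z
  have hlt : ∀ a b, r a b →
      (Finset.univ.filter (fun z => r z a)).card < (Finset.univ.filter (fun z => r z b)).card := by
    intro a b hab
    refine Finset.card_lt_card ⟨?_, ?_⟩
    · intro z hz
      rw [Finset.mem_filter] at hz ⊢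
      exact ⟨hz.1, h.2.1 z a b trivial trivial trivial hz.2 hab⟩
    · intro hs
      have h1 : a ∈ Finset.univ.filter (fun z => r z a) :=
        hs (Finset.mem_filter.2 ⟨Finset.mem_univ _, hab⟩)
      exact h.1 a trivial (Finset.mem_filter.1 h1).2
  refine ⟨fun a => (Finset.univ.filter (fun z => r z a)).card, fun a b => ⟨fun hab => ?_, hlt a b⟩⟩
  by_contra hn
  by_cases he : a = b
  · subst he
    exact lt_irrefl _ hab
  · rcases h.2.2 a b trivial trivial he with h1 | h1
    · exact hn h1
    · exact lt_asymm hab (hlt b a h1)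

theorem sort {Z : Type} [Finite Z] {r : Z → Z → Prop} (h : StrictLin (fun _ => True) r) {n : ℕ}
    (f : Fin n → Z) (hf : Function.Injective f) :
    ∃ σ : Fin n → Fin n, ∀ i j, i < j → r (f (σ i)) (f (σ j)) := by
  obtain ⟨ν, hν⟩ := rank h
  have hinj : Function.Injective (ν ∘ f) := by
    intro i j hij
    apply hf
    by_contra hne
    have hij' : ν (f i) = ν (f j) := hij
    rcases h.2.2 (f i) (f j) trivial trivial hne with h1 | h1
    · rw [← hν] at h1
      omega
    · rw [← hν] at h1
      omega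
  refine ⟨Tuple.sort (ν ∘ f), fun i j hij => ?_⟩
  have h1 := (Tuple.monotone_sort (ν ∘ f)).strictMono_of_injective
    (hinj.comp (Tuple.sort (ν ∘ f)).injective)
  rw [← hν]
  exact h1 hij

theorem nxt_uniq {S : Z → Prop} {r : Z → Z → Prop} (h : StrictLin (fun _ => True) r) {x a b : Z}
    (ha : Nxt S r x a) (hb : Nxt S r x b) : a = b := by
  by_contra hne
  rcases h.2.2 a b trivial trivial hne with h1 | h1
  · exact hb.2.2.2 a ha.2.1 ⟨ha.2.2.1, h1⟩
  · exact ha.2.2.2 b hb.2.1 ⟨hb.2.2.1, h1⟩

theorem nxt_le {S : Z → Prop} {r : Z → Z → Prop} (h : StrictLin (fun _ => True) r) {x x' y : Z}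
    (hx : Nxt S r x x') (hy : S y) (hxy : r x y) : x' = y ∨ r x' y := by
  by_cases he : x' = y
  · exact Or.inl he
  · rcases h.2.2 x' y trivial trivial he with h1 | h1
    · exact Or.inr h1
    · exact absurd ⟨hxy, h1⟩ (hx.2.2.2 y hy)

theorem ed_t {u v : Z} (h : side u = true) : ed side M u v ↔ M u v := by
  unfold ed
  rw [if_pos h]

theorem ed_f {u v : Z} (h : side u = false) : ed side M u v ↔ M v u := by
  unfold ed
  rw [if_neg]
  rw [h]
  exact Bool.false_ne_true

end Corn6Aux

open Corn6Aux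

theorem corner6 (hT : TotD side M) (hlt : StrictLin (fun _ => True) lt) (P Q : Z → Prop)
    (hP : ∀ z, P z → side z = true) (hQ : ∀ z, Q z → side z = false) :
    BicliqueFree 6 (Corner P (LtT side M lt) Q (LtT side M lt) M) := by
  rintro ⟨f, g, hf, hg, hC⟩
  have hl := ltT_lin hT hlt
  have hF : ∀ i, ∃ x', Nxt P (LtT side M lt) (f i) x' := by
    intro i
    obtain ⟨x', y', h1, _⟩ := hC i 0
    exact ⟨x', h1⟩
  have hG : ∀ j, ∃ y', Nxt Q (LtT side M lt) (g j) y' := by
    intro j
    obtain ⟨x', y', _, h1, _⟩ := hC 0 j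
    exact ⟨y', h1⟩
  choose f' hf' using hF
  choose g' hg' using hG
  have hA : ∀ i j, ¬ ((M (f i) (g j) ↔ M (f' i) (g j)) ∧ (M (f i) (g' j) ↔ M (f' i) (g' j))) ∧
      ¬ ((M (f i) (g j) ↔ M (f i) (g' j)) ∧ (M (f' i) (g j) ↔ M (f' i) (g' j))) := by
    intro i j
    obtain ⟨x', y', h1, h2, h3⟩ := hC i j
    rw [nxt_uniq hl h1 (hf' i), nxt_uniq hl h2 (hg' j)] at h3
    exact h3
  obtain ⟨σ, hσ⟩ := sort hl f hf
  obtain ⟨τ, hτ⟩ := sort hl g hg
  have hle : ∀ {r : Z → Z → Prop}, StrictLin (fun _ => True) r → ∀ {a b c : Z},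
      (a = b ∨ r a b) → r b c → r a c := by
    intro r hr a b c h1 h2
    rcases h1 with rfl | h1
    · exact h2
    · exact hr.2.1 a b c trivial trivial trivial h1 h2
  have hle' : ∀ {r : Z → Z → Prop}, StrictLin (fun _ => True) r → ∀ {a b c : Z},
      r a b → (b = c ∨ r b c) → r a c := by
    intro r hr a b c h1 h2
    rcases h2 with rfl | h2
    · exact h1
    · exact hr.2.1 a b c trivial trivial trivial h1 h2
  have hX : ∀ i j, i < j → f' (σ i) = f (σ j) ∨ LtT side M lt (f' (σ i)) (f (σ j)) :=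
    fun i j hij => nxt_le hl (hf' (σ i)) (hf' (σ j)).1 (hσ i j hij)
  have hY : ∀ i j, i < j → g' (τ i) = g (τ j) ∨ LtT side M lt (g' (τ i)) (g (τ j)) :=
    fun i j hij => nxt_le hl (hg' (τ i)) (hg' (τ j)).1 (hτ i j hij)
  have hX3 : ∀ i : Fin 3, f (σ 3) = f (σ ⟨i.val + 3, by omega⟩) ∨
      LtT side M lt (f (σ 3)) (f (σ ⟨i.val + 3, by omega⟩)) := by
    intro i
    by_cases h : i.val = 0
    · left
      congr 2
      exact Fin.ext (by simp [h])
    · right
      refine hσ _ _ ?_
      rw [Fin.lt_def]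
      change 3 < i.val + 3
      omega
  have hY3 : ∀ i : Fin 3, g (τ 3) = g (τ ⟨i.val + 3, by omega⟩) ∨
      LtT side M lt (g (τ 3)) (g (τ ⟨i.val + 3, by omega⟩)) := by
    intro i
    by_cases h : i.val = 0
    · left
      congr 2
      exact Fin.ext (by simp [h])
    · right
      refine hτ _ _ ?_
      rw [Fin.lt_def]
      change 3 < i.val + 3
      omega
  have hlt3 : ∀ i : Fin 3, (⟨i.val, by omega⟩ : Fin 6) < 3 := by
    intro i
    rw [Fin.lt_def]
    change i.val < 3
    exact i.isLt
  have hsf : ∀ i, side (f i) = true := fun i => hP _ (hf' i).1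
  have hsf' : ∀ i, side (f' i) = true := fun i => hP _ (hf' i).2.1
  have hsg : ∀ i, side (g i) = false := fun i => hQ _ (hg' i).1
  have hsg' : ∀ i, side (g' i) = false := fun i => hQ _ (hg' i).2.1
  have hne : f (σ 3) ≠ g (τ 3) := by
    intro h
    have h1 := hsf (σ 3)
    rw [h, hsg] at h1
    exact Bool.false_ne_true h1
  rcases hl.2.2 (f (σ 3)) (g (τ 3)) trivial trivial hne with h3 | h3
  · obtain ⟨i, j, hij⟩ := corner3 hT hlt (fun i : Fin 3 => f (σ ⟨i.val, by omega⟩))
      (fun i : Fin 3 => f' (σ ⟨i.val, by omega⟩)) (fun j : Fin 3 => g (τ ⟨j.val + 3, by omega⟩))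
      (fun j : Fin 3 => g' (τ ⟨j.val + 3, by omega⟩)) true (fun i => hsf _) (fun i => hsf' _)
      (fun i => hsg _) (fun i => hsg' _) (fun i => (hf' _).2.2.1) (fun i => (hg' _).2.2.1)
      (fun i j hij => hX _ _ (by rw [Fin.lt_def] at hij ⊢; exact hij))
      (fun i j hij => hY _ _ (by rw [Fin.lt_def] at hij ⊢; exact Nat.add_lt_add_right hij 3))
      (fun i j => hle' hl (hle hl (hX _ 3 (hlt3 i)) h3) (hY3 j))
    simp only [ed_t (hsf _), ed_t (hsf' _)] at hij
    rcases hij with h | h
    · exact (hA _ _).1 h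
    · exact (hA _ _).2 h
  · obtain ⟨i, j, hij⟩ := corner3 hT hlt (fun i : Fin 3 => g (τ ⟨i.val, by omega⟩))
      (fun i : Fin 3 => g' (τ ⟨i.val, by omega⟩)) (fun j : Fin 3 => f (σ ⟨j.val + 3, by omega⟩))
      (fun j : Fin 3 => f' (σ ⟨j.val + 3, by omega⟩)) false (fun i => hsg _) (fun i => hsg' _)
      (fun i => hsf _) (fun i => hsf' _) (fun i => (hg' _).2.2.1) (fun i => (hf' _).2.2.1)
      (fun i j hij => hY _ _ (by rw [Fin.lt_def] at hij ⊢; exact hij))
      (fun i j hij => hX _ _ (by rw [Fin.lt_def] at hij ⊢; exact Nat.add_lt_add_right hij 3))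
      (fun i j => hle' hl (hle hl (hY _ 3 (hlt3 i)) h3) (hX3 j))
    simp only [ed_f (hsg _), ed_f (hsg' _)] at hij
    rcases hij with h | h
    · exact (hA _ _).2 h
    · exact (hA _ _).1 h

end T

end P1346e8
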