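import Pool.Agent.Lib.P1346L.LvlOrd

/-!
# Totally decomposable two-sided structures: canonical decomposition and its first-order description
-/

set_option autoImplicit false

namespace P1346e8

namespace T

open L

variable {Z : Type}

/-- Every subset with elements of both sides has a split with constant off-diagonal blocks. -/
def TotD (side : Z → Bool) (M : Z → Z → Prop) : Prop :=
  ∀ W : Z → Prop, (∃ u v, W u ∧ W v ∧ side u ≠ side v) → Sep side M W

/-- Both elements are in `S`. -/
def both (S : Z → Prop) (a b : Z) : Prop := S a ∧ S b

/-- Any two elements of `W` are joined by short paths inside `W`. -/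
def SC (side : Z → Bool) (M : Z → Z → Prop) (ρ : Rule) (W : Z → Prop) : Prop :=
  ∀ u v, W u → W v → Pth side M ρ (both W) 6 u v

open Classical in
/-- The rule that splits `W`. -/
noncomputable def typ (side : Z → Bool) (M : Z → Z → Prop) (W : Z → Prop) : Rule :=
  if ¬ SC side M .ord W then .ord else if ¬ SC side M .par W then .par else .ser

/-- The refining sequence of equivalence relations; its classes are the nodes of the canonical tree. -/
noncomputable def qs (side : Z → Bool) (M : Z → Z → Prop) : ℕ → Z → Z → Prop
  | 0 => fun _ _ => True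
  | i + 1 => fun u v => nxt side M (typ side M (qs side M i u)) (qs side M i) u v

open Classical in
/-- The rule `ser` for `True`, `par` for `False`: an arc is an entry different from `c`. -/
noncomputable def rl (c : Prop) : Rule := if c then .ser else .par

/-- The order of the leaves: at the node which separates `u` and `v`, the class of `u` is first. -/
def LtT (side : Z → Bool) (M lt : Z → Z → Prop) (u v : Z) : Prop :=
  ∃ i, qs side M i u v ∧ ¬ qs side M (i + 1) u v ∧
    LtL side M lt (typ side M (qs side M i u)) (qs side M i)
      (nxt side M (typ side M (qs side M i u)) (qs side M i)) u v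

/-! ### The first-order description -/

/-- `z` distinguishes two elements of `S` of the same side. -/
def Dis (side : Z → Bool) (M : Z → Z → Prop) (S : Z → Prop) (z : Z) : Prop :=
  ∃ a b, S a ∧ S b ∧ side a = side b ∧ side a ≠ side z ∧ ed side M z a ∧ ¬ ed side M z b

/-- The closure of `{x, x'}` under distinguishing elements, `n` steps. -/
def Clo (side : Z → Bool) (M : Z → Z → Prop) : ℕ → Z → Z → Z → Prop
  | 0, x, x', z => z = x ∨ z = x'
  | n + 1, x, x', z => Clo side M n x x' z ∨ Dis side M (Clo side M n x x') z

/-- `x` and `x'` are on the same side and their node is not split by `ord`. -/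
def PS (side : Z → Bool) (M : Z → Z → Prop) (x x' : Z) : Prop :=
  side x = side x' ∧ x ≠ x' ∧ Pth side M .ord (both (Clo side M 6 x x')) 6 x x' ∧
    Pth side M .ord (both (Clo side M 6 x x')) 6 x' x

/-- `z` has the entry `c` with all elements of `S` on the other side. -/
def See (side : Z → Bool) (M : Z → Z → Prop) (c : Prop) (S : Z → Prop) (z : Z) : Prop :=
  ∀ a, S a → side a ≠ side z → (ed side M z a ↔ c)

/-- `z` belongs to another child of the node (which sees `S` with entry `c`). -/
def Wc (side : Z → Bool) (M : Z → Z → Prop) (c : Prop) (S : Z → Prop) (z : Z) : Prop :=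
  See side M c S z ∧ ∃ s, side s ≠ side z ∧ See side M c S s ∧ (ed side M z s ↔ ¬ c) ∧
    ∀ t, See side M (¬ c) S t → (side t ≠ side z → (ed side M t z ↔ ¬ c)) ∧
      (side t ≠ side s → (ed side M t s ↔ ¬ c))

/-- The node of `x` and `x'`, if `PS x x'`. -/
def NPS (side : Z → Bool) (M : Z → Z → Prop) (x x' z : Z) : Prop :=
  Clo side M 6 x x' z ∨
    (¬ Pth side M .par (both (Clo side M 6 x x')) 6 x x' ∧
      Wc side M False (Clo side M 6 x x') z) ∨
    (¬ Pth side M .ser (both (Clo side M 6 x x')) 6 x x' ∧
      Wc side M True (Clo side M 6 x x') z)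

/-- The child that contains `x` of the node of `x` and `x'`, if `PS x x'`. -/
def CPS (side : Z → Bool) (M : Z → Z → Prop) (x x' z : Z) : Prop :=
  (¬ Pth side M .par (both (NPS side M x x')) 6 x x' ∧
      nxt side M .par (both (NPS side M x x')) x z) ∨
    (Pth side M .par (both (NPS side M x x')) 6 x x' ∧
      nxt side M .ser (both (NPS side M x x')) x z)

/-- `u` and `v` are in different children of the node of `u` and `t`. -/
def SepT (side : Z → Bool) (M : Z → Z → Prop) (u v t : Z) : Prop :=
  PS side M u t ∧ NPS side M u t v ∧ ¬ CPS side M u t v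

/-- The node that separates `u` and `v`. -/
def NF (side : Z → Bool) (M : Z → Z → Prop) (u v z : Z) : Prop :=
  (∃ t, SepT side M u v t ∧ NPS side M u t z) ∨
    ((∀ t, ¬ SepT side M u v t) ∧ ∀ t, PS side M u t → CPS side M u t v → CPS side M u t z)

/-- The rule that splits the node that separates `u` and `v`. -/
def TF (side : Z → Bool) (M : Z → Z → Prop) : Rule → Z → Z → Prop
  | .ord, u, v => ∀ t, ¬ SepT side M u v t
  | .par, u, v => ∃ t, SepT side M u v t ∧ ¬ Pth side M .par (both (NPS side M u t)) 6 u t
  | .ser, u, v => ∃ t, SepT side M u v t ∧ Pth side M .par (both (NPS side M u t)) 6 u t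

/-- The order, in first-order form. -/
def LtF (side : Z → Bool) (M lt : Z → Z → Prop) (u v : Z) : Prop :=
  u ≠ v ∧ ∃ ρ, TF side M ρ u v ∧
    LtL side M lt ρ (both (NF side M u v)) (nxt side M ρ (both (NF side M u v))) u v

end T

end P1346e8
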