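import Pool.Agent.Lib.P1346T.Defs
import Pool.Agent.Lib.P1346L.ZDef

/-!
# MODULE FDef: the order formula is definable (about 2 h)

STATEMENT. In a family `G` of structures in which `side`, `M`, `lt` are (uniformly) definable, the relation
`LtF side M lt` is definable.

PROOF. By the closure properties `Fam.Def.and/or/not/imp/iff/ex/all/eq/subst/exFin` (see
`Pool.Agent.Lib.P1346e8.Lib`; style: `Pool.Agent.Lib.P1346L.ZDef`, quantified variables are the last ones).
It is convenient to prove for relations with parameters: let `n` be the number of parameters and call a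
family `S : (i : ι) → (Fin n → G.X i) → G.X i → Prop` of sets definable if
`G.Def (n := n + 1) (fun i v => S i (fun j => v j.castSucc) (v (Fin.last n)))`.
(Alternatively work with fixed arities: `Clo 6` is `Def3`; `both (Clo 6 x x') a b` has arity 4, and
`fun x x' a b => Pth side M ρ (both (Clo 6 x x')) n a b` has arity 4, definable by induction on `n`
(one more quantified variable); so `PS` is `Def2`; `See`, `Wc` for `Clo 6 x x'` have arity 3 (here `c` is `False`
or `True`; `ed ↔ c` is definable: `Fam.Def.const`); `NPS` is `Def3`; then again `Pth` and `nxt` for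
`both (NPS x x')` have arity 4; `CPS`, `SepT` are `Def3`; `NF` is `Def3`; `TF ρ` is `Def2` for every `ρ`; and
`MinLt`, `Bf`, `LtL` for `q = both (NF u v)`, `q' = nxt ρ q` evaluated at `u, v` are `Def2`.  The quantifier over
`ρ` is a finite disjunction: `ρ = par ∨ ρ = ser ∨ ρ = ord`.)
A general lemma saves work: for a definable 4-ary relation `Q x x' a b`,
`fun x x' a b => Pth side M ρ (Q x x') n a b` and `nxt side M ρ (Q x x') a b` are definable.
-/

set_option autoImplicit false

namespace P1346e8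

namespace T

open L

universe u

variable {ι : Type u} {β υ : Type}

namespace FDefAux

/-- The family with `n` parameters added as unary predicates. -/
def Exp (G : Fam ι β υ) (n : ℕ) : Fam (Σ i : ι, (Fin n → G.X i)) β (υ ⊕ Fin n) where
  X i := G.X i.1
  R i := G.R i.1
  U i u x := match u with
    | .inl u => G.U i.1 u x
    | .inr k => x = i.2 k

/-- Parameters become variables. -/
def tr {β υ : Type} {n : ℕ} : {m : ℕ} → Fml β (υ ⊕ Fin n) m → Fml β υ (n + m)
  | _, .eq i j => .eq (Fin.natAdd n i) (Fin.natAdd n j)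
  | _, .bin b i j => .bin b (Fin.natAdd n i) (Fin.natAdd n j)
  | _, .un (.inl u) i => .un u (Fin.natAdd n i)
  | m, .un (.inr k) i => .eq (Fin.natAdd n i) (Fin.castAdd m k)
  | _, .neg φ => .neg (tr φ)
  | _, .and φ ψ => .and (tr φ) (tr ψ)
  | m, .ex φ => .ex (tr (n := n) (m := m + 1) φ : Fml β υ (n + (m + 1)))

theorem sat_tr (G : Fam ι β υ) {n : ℕ} (i : ι) (p : Fin n → G.X i) :
    ∀ {m : ℕ} (φ : Fml β (υ ⊕ Fin n) m) (v : Fin (n + m) → G.X i) (w : Fin m → G.X i),
      (∀ j, v (Fin.castAdd m j) = p j) → (∀ j, v (Fin.natAdd n j) = w j) →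
      ((tr φ).Sat (G.R i) (G.U i) v ↔
        φ.Sat ((Exp G n).R ⟨i, p⟩) ((Exp G n).U ⟨i, p⟩) w)
  | _, .eq a b, v, w, hp, hw => by
      simp only [tr, Fml.Sat, hw]
      exact Iff.rfl
  | _, .bin c a b, v, w, hp, hw => by
      simp only [tr, Fml.Sat, hw]
      exact Iff.rfl
  | _, .un (.inl u) a, v, w, hp, hw => by
      simp only [tr, Fml.Sat, hw]
      exact Iff.rfl
  | _, .un (.inr k) a, v, w, hp, hw => by
      simp only [tr, Fml.Sat, hw, hp]
      exact Iff.rfl
  | _, .neg φ, v, w, hp, hw => not_congr (sat_tr G i p φ v w hp hw)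
  | _, .and φ ψ, v, w, hp, hw => and_congr (sat_tr G i p φ v w hp hw) (sat_tr G i p ψ v w hp hw)
  | m, .ex φ, v, w, hp, hw => by
      refine exists_congr fun a => sat_tr G i p φ _ _ (fun j => ?_) (fun j => ?_)
      · have : (Fin.castAdd (m + 1) j : Fin (n + m + 1)) = (Fin.castAdd m j).castSucc := rfl
        rw [← hp j]
        exact (congrArg _ this).trans (Fin.snoc_castSucc (α := fun _ => G.X i) a v _)
      · refine Fin.lastCases ?_ (fun j => ?_) j
        · have : (Fin.natAdd n (Fin.last m) : Fin (n + m + 1)) = Fin.last (n + m) := rfl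
          exact ((congrArg _ this).trans (Fin.snoc_last (α := fun _ => G.X i) a v)).trans
            (Fin.snoc_last (α := fun _ => G.X i) a w).symm
        · have : (Fin.natAdd n j.castSucc : Fin (n + m + 1)) = (Fin.natAdd n j).castSucc := rfl
          exact ((congrArg _ this).trans
            (Fin.snoc_castSucc (α := fun _ => G.X i) a v _)).trans ((hw j).trans
            (Fin.snoc_castSucc (α := fun _ => G.X i) a w j).symm)

/-- Definable with parameters: definable, the parameters are the first variables. -/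
theorem param {G : Fam ι β υ} {n m : ℕ}
    {Q : (i : ι) → (Fin n → G.X i) → (Fin m → G.X i) → Prop}
    (h : (Exp G n).Def (n := m) (fun i v => Q i.1 i.2 v)) :
    G.Def (n := n + m) (fun i v => Q i (fun j => v (Fin.castAdd m j))
      (fun j => v (Fin.natAdd n j))) := by
  obtain ⟨φ, hφ⟩ := h
  exact ⟨tr φ, fun i v => (hφ ⟨i, _⟩ _).trans
    (sat_tr G i _ φ v _ (fun _ => rfl) (fun _ => rfl)).symm⟩

/-- More unary symbols. -/
def up {β υ : Type} (n : ℕ) : {m : ℕ} → Fml β υ m → Fml β (υ ⊕ Fin n) m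
  | _, .eq i j => .eq i j
  | _, .bin b i j => .bin b i j
  | _, .un u i => .un (.inl u) i
  | _, .neg φ => .neg (up n φ)
  | _, .and φ ψ => .and (up n φ) (up n ψ)
  | _, .ex φ => .ex (up n φ)

theorem sat_up (G : Fam ι β υ) {n : ℕ} (i : ι) (p : Fin n → G.X i) :
    ∀ {m : ℕ} (φ : Fml β υ m) (v : Fin m → G.X i),
      ((up n φ).Sat ((Exp G n).R ⟨i, p⟩) ((Exp G n).U ⟨i, p⟩) v ↔ φ.Sat (G.R i) (G.U i) v)
  | _, .eq _ _, _ => Iff.rfl
  | _, .bin _ _ _, _ => Iff.rfl
  | _, .un _ _, _ => Iff.rfl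
  | _, .neg φ, v => not_congr (sat_up G i p φ v)
  | _, .and φ ψ, v => and_congr (sat_up G i p φ v) (sat_up G i p ψ v)
  | _, .ex φ, _ => exists_congr fun _ => sat_up G i p φ _

/-- Definable without the parameters. -/
theorem lift {G : Fam ι β υ} {n m : ℕ} {Q : (i : ι) → (Fin m → G.X i) → Prop} (h : G.Def Q) :
    (Exp G n).Def (n := m) (fun i v => Q i.1 v) := by
  obtain ⟨φ, hφ⟩ := h
  exact ⟨up n φ, fun i v => (hφ i.1 v).trans (sat_up G i.1 i.2 φ v).symm⟩

/-- The parameter. -/
def pr (G : Fam ι β υ) {n : ℕ} (i : Σ i : ι, (Fin n → G.X i)) (k : Fin n) : (Exp G n).X i := i.2 k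

/-- Evaluation of the last variable at a parameter. -/
theorem inst {G : Fam ι β υ} {n m : ℕ}
    {Q : (i : Σ i : ι, (Fin n → G.X i)) → (Fin (m + 1) → (Exp G n).X i) → Prop}
    (h : (Exp G n).Def Q) (k : Fin n) :
    (Exp G n).Def (n := m) (fun i v => Q i (Fin.snoc (α := fun _ => (Exp G n).X i) v (pr G i k))) := by
  refine (Fam.Def.ex (F := Exp G n) (n := m)
    (Q := fun i v a => a = pr G i k ∧ Q i (Fin.snoc (α := fun _ => (Exp G n).X i) v a)) ?_).congr
    fun i v => ?_
  · refine Fam.Def.and ⟨.un (.inr k) (Fin.last m), fun _ _ => Iff.rfl⟩ (h.congr fun i v => ?_)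
    have : (Fin.snoc (α := fun _ => (Exp G n).X i) (fun j => v j.castSucc) (v (Fin.last m))) = v :=
      Fin.snoc_init_self v
    rw [this]
  · constructor
    · intro h
      exact ⟨_, rfl, h⟩
    · rintro ⟨a, rfl, h⟩
      exact h

theorem par1 {G : Fam ι β υ} {n : ℕ} (k : Fin n) :
    (Exp G n).Def1 (fun (i : Σ i : ι, (Fin n → G.X i)) (z : G.X i.1) => z = i.2 k) :=
  ⟨.un (.inr k) 0, fun _ _ => Iff.rfl⟩

/-- A binary relation evaluated at two parameters. -/
theorem inst2 {G : Fam ι β υ} {n m : ℕ}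
    {Q : (i : Σ i : ι, (Fin n → G.X i)) → (Exp G n).X i → (Exp G n).X i → Prop}
    (h : (Exp G n).Def2 Q) (k l : Fin n) :
    (Exp G n).Def (n := m) (fun i _ => Q i (pr G i k) (pr G i l)) := by
  have h1 : (Exp G n).Def (n := m + 1 + 1)
      (fun i v => Q i (v (Fin.last m).castSucc) (v (Fin.last (m + 1)))) := Fam.Def2.at h _ _
  refine (inst (inst h1 l) k).congr fun i v => ?_
  simp only [Fin.snoc_castSucc, Fin.snoc_last]

/-- A binary relation evaluated at a parameter and a variable. -/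
theorem inst1 {G : Fam ι β υ} {n : ℕ}
    {Q : (i : Σ i : ι, (Fin n → G.X i)) → (Exp G n).X i → (Exp G n).X i → Prop}
    (h : (Exp G n).Def2 Q) (k : Fin n) :
    (Exp G n).Def1 (fun i z => Q i (pr G i k) z) := by
  have h1 : (Exp G n).Def (n := 1 + 1)
      (fun i v => Q i (v (Fin.last 1)) (v (Fin.castSucc 0))) := Fam.Def2.at h _ _
  refine (inst h1 k).congr fun i v => ?_
  have e1 := Fin.snoc_last (α := fun _ => (Exp G n).X i) (pr G i k) v
  have e2 := Fin.snoc_castSucc (α := fun _ => (Exp G n).X i) (pr G i k) v 0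
  rw [e1, e2]

/-- A ternary relation evaluated at two parameters and a variable. -/
theorem inst3 {G : Fam ι β υ} {n : ℕ}
    {Q : (i : Σ i : ι, (Fin n → G.X i)) → (Exp G n).X i → (Exp G n).X i → (Exp G n).X i → Prop}
    (h0 : (Exp G n).Def3 Q) (k l : Fin n) :
    (Exp G n).Def1 (fun i z => Q i (pr G i k) (pr G i l) z) := by
  have h1 : (Exp G n).Def (n := 1 + 1 + 1)
      (fun i v => Q i (v (Fin.last 1).castSucc) (v (Fin.last 2))
        (v (Fin.castSucc (Fin.castSucc 0)))) := Fam.Def3.at h0 _ _ _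
  refine (inst (inst h1 l) k).congr fun i v => ?_
  have e1 := Fin.snoc_last (α := fun _ => (Exp G n).X i) (pr G i l)
    (Fin.snoc (α := fun _ => (Exp G n).X i) v (pr G i k))
  have e2 := Fin.snoc_castSucc (α := fun _ => (Exp G n).X i) (pr G i l)
    (Fin.snoc (α := fun _ => (Exp G n).X i) v (pr G i k)) (Fin.last 1)
  have e3 := Fin.snoc_castSucc (α := fun _ => (Exp G n).X i) (pr G i l)
    (Fin.snoc (α := fun _ => (Exp G n).X i) v (pr G i k)) (Fin.castSucc 0)
  have e4 := Fin.snoc_last (α := fun _ => (Exp G n).X i) (pr G i k) v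
  have e5 := Fin.snoc_castSucc (α := fun _ => (Exp G n).X i) (pr G i k) v 0
  rw [e1, e2, e3, e4, e5]

section Sets

variable {G : Fam ι β υ} (side : (i : ι) → G.X i → Bool) (M : (i : ι) → G.X i → G.X i → Prop)
  (S : (i : ι) → G.X i → Prop)

theorem def2_both (hS : G.Def1 S) : G.Def2 (fun i => both (S i)) :=
  Fam.Def.and (Fam.Def1.at hS 0) (Fam.Def1.at hS 1)

theorem def1_dis (hs : G.Def1 (fun i z => side i z = true)) (hM : G.Def2 M) (hS : G.Def1 S) :
    G.Def1 (fun i z => Dis (side i) (M i) (S i) z) := by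
  have hne := ZDefAux.def2_ne side hs
  have hed := ZDefAux.def2_ed side M hs hM
  refine Fam.Def1.congr (Q := fun i z => ∃ a b, S i a ∧ S i b ∧ ¬ side i a ≠ side i b ∧
    side i a ≠ side i z ∧ ed (side i) (M i) z a ∧ ¬ ed (side i) (M i) z b) ?_ (fun i z => by
      unfold Dis
      simp only [not_not])
  exact Fam.Def.ex (F := G) (n := 1)
    (Q := fun i (v : Fin 1 → G.X i) (a : G.X i) => ∃ b, S i a ∧ S i b ∧ ¬ side i a ≠ side i b ∧
      side i a ≠ side i (v 0) ∧ ed (side i) (M i) (v 0) a ∧ ¬ ed (side i) (M i) (v 0) b)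
    (Fam.Def.ex (F := G) (n := 2)
      (Q := fun i (v : Fin 2 → G.X i) (b : G.X i) => S i (v (Fin.last 1)) ∧ S i b ∧
        ¬ side i (v (Fin.last 1)) ≠ side i b ∧
        side i (v (Fin.last 1)) ≠ side i (v (Fin.castSucc 0)) ∧
        ed (side i) (M i) (v (Fin.castSucc 0)) (v (Fin.last 1)) ∧
        ¬ ed (side i) (M i) (v (Fin.castSucc 0)) b)
      (Fam.Def.and (Fam.Def1.at hS (Fin.castSucc (Fin.last 1)))
        (Fam.Def.and (Fam.Def1.at hS (Fin.last 2))
        (Fam.Def.and (Fam.Def.not (Fam.Def2.at hne (Fin.castSucc (Fin.last 1)) (Fin.last 2)))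
        (Fam.Def.and
          (Fam.Def2.at hne (Fin.castSucc (Fin.last 1)) (Fin.castSucc (Fin.castSucc 0)))
        (Fam.Def.and
          (Fam.Def2.at hed (Fin.castSucc (Fin.castSucc 0)) (Fin.castSucc (Fin.last 1)))
          (Fam.Def.not (Fam.Def2.at hed (Fin.castSucc (Fin.castSucc 0)) (Fin.last 2)))))))))

theorem def2_edc (hs : G.Def1 (fun i z => side i z = true)) (hM : G.Def2 M) (c : Prop) :
    G.Def2 (fun i u v => ed (side i) (M i) u v ↔ c) :=
  Fam.Def.iff (ZDefAux.def2_ed side M hs hM) (Fam.Def.const G c (by norm_num))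

theorem def1_see (hs : G.Def1 (fun i z => side i z = true)) (hM : G.Def2 M) (hS : G.Def1 S)
    (c : Prop) : G.Def1 (fun i z => See (side i) (M i) c (S i) z) :=
  Fam.Def.all (F := G) (n := 1)
    (Q := fun i (v : Fin 1 → G.X i) (a : G.X i) => S i a → side i a ≠ side i (v 0) →
      (ed (side i) (M i) (v 0) a ↔ c))
    (Fam.Def.imp (Fam.Def1.at hS (Fin.last 1))
      (Fam.Def.imp (Fam.Def2.at (ZDefAux.def2_ne side hs) (Fin.last 1) (Fin.castSucc 0))
        (Fam.Def2.at (def2_edc side M hs hM c) (Fin.castSucc 0) (Fin.last 1))))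

theorem def1_wc (hs : G.Def1 (fun i z => side i z = true)) (hM : G.Def2 M) (hS : G.Def1 S)
    (c : Prop) : G.Def1 (fun i z => Wc (side i) (M i) c (S i) z) := by
  have hne := ZDefAux.def2_ne side hs
  have hed := def2_edc side M hs hM (¬ c)
  have hsee := def1_see side M S hs hM hS c
  have hsee' := def1_see side M S hs hM hS (¬ c)
  exact Fam.Def.and hsee (Fam.Def.ex (F := G) (n := 1)
    (Q := fun i (v : Fin 1 → G.X i) (s : G.X i) => side i s ≠ side i (v 0) ∧
      See (side i) (M i) c (S i) s ∧ (ed (side i) (M i) (v 0) s ↔ ¬ c) ∧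
      ∀ t, See (side i) (M i) (¬ c) (S i) t →
        (side i t ≠ side i (v 0) → (ed (side i) (M i) t (v 0) ↔ ¬ c)) ∧
        (side i t ≠ side i s → (ed (side i) (M i) t s ↔ ¬ c)))
    (Fam.Def.and (Fam.Def2.at hne (Fin.last 1) (Fin.castSucc 0))
    (Fam.Def.and (Fam.Def1.at hsee (Fin.last 1))
    (Fam.Def.and (Fam.Def2.at hed (Fin.castSucc 0) (Fin.last 1))
    (Fam.Def.all (F := G) (n := 2)
      (Q := fun i (v : Fin 2 → G.X i) (t : G.X i) => See (side i) (M i) (¬ c) (S i) t →
        (side i t ≠ side i (v (Fin.castSucc 0)) →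
          (ed (side i) (M i) t (v (Fin.castSucc 0)) ↔ ¬ c)) ∧
        (side i t ≠ side i (v (Fin.last 1)) →
          (ed (side i) (M i) t (v (Fin.last 1)) ↔ ¬ c)))
      (Fam.Def.imp (Fam.Def1.at hsee' (Fin.last 2))
        (Fam.Def.and
          (Fam.Def.imp (Fam.Def2.at hne (Fin.last 2) (Fin.castSucc (Fin.castSucc 0)))
            (Fam.Def2.at hed (Fin.last 2) (Fin.castSucc (Fin.castSucc 0))))
          (Fam.Def.imp (Fam.Def2.at hne (Fin.last 2) (Fin.castSucc (Fin.last 1)))
            (Fam.Def2.at hed (Fin.last 2) (Fin.castSucc (Fin.last 1)))))))))))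

end Sets

section Main

variable {G : Fam ι β υ} (side : (i : ι) → G.X i → Bool)
    (M lt : (i : ι) → G.X i → G.X i → Prop)

theorem def1_clo (hs : G.Def1 (fun i z => side i z = true)) (hM : G.Def2 M) : ∀ n : ℕ,
    (Exp G 2).Def1 (fun i z => Clo (side i.1) (M i.1) n (i.2 0) (i.2 1) z)
  | 0 => Fam.Def.or (par1 0) (par1 1)
  | n + 1 => Fam.Def.or (def1_clo hs hM n)
      (def1_dis (G := Exp G 2) (fun i => side i.1) (fun i => M i.1) _ (lift hs) (lift hM)
        (def1_clo hs hM n))

theorem def0_pth {S : (i : Σ i : ι, (Fin 2 → G.X i)) → (Exp G 2).X i → Prop}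
    (hs : G.Def1 (fun i z => side i z = true)) (hM : G.Def2 M)
    (hS : (Exp G 2).Def1 S) (ρ : Rule) (k l : Fin 2) (m : ℕ) :
    (Exp G 2).Def (n := m)
      (fun i _ => Pth (side i.1) (M i.1) ρ (both (S i)) 6 (i.2 k) (i.2 l)) :=
  inst2 (ZDefAux.def2_pth (G := Exp G 2) (fun i => side i.1) (fun i => M i.1)
    (fun i => both (S i)) (lift hs) (lift hM) (def2_both S hS) ρ 6) k l

theorem def2_ps (hs : G.Def1 (fun i z => side i z = true)) (hM : G.Def2 M) :
    G.Def2 (fun i x x' => PS (side i) (M i) x x') := by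
  have hc := def1_clo side M hs hM 6
  have h1 : G.Def (n := 2 + 0) (fun i v =>
      Pth (side i) (M i) .ord (both (Clo (side i) (M i) 6 (v 0) (v 1))) 6 (v 0) (v 1)) :=
    param (G := G) (n := 2) (m := 0) (Q := fun i p _ =>
      Pth (side i) (M i) .ord (both (Clo (side i) (M i) 6 (p 0) (p 1))) 6 (p 0) (p 1))
      (def0_pth side M hs hM hc .ord 0 1 0)
  have h2 : G.Def (n := 2 + 0) (fun i v =>
      Pth (side i) (M i) .ord (both (Clo (side i) (M i) 6 (v 0) (v 1))) 6 (v 1) (v 0)) :=
    param (G := G) (n := 2) (m := 0) (Q := fun i p _ =>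
      Pth (side i) (M i) .ord (both (Clo (side i) (M i) 6 (p 0) (p 1))) 6 (p 1) (p 0))
      (def0_pth side M hs hM hc .ord 1 0 0)
  refine Fam.Def2.congr (Q := fun i x x' => ¬ side i x ≠ side i x' ∧ ¬ x = x' ∧
    Pth (side i) (M i) .ord (both (Clo (side i) (M i) 6 x x')) 6 x x' ∧
    Pth (side i) (M i) .ord (both (Clo (side i) (M i) 6 x x')) 6 x' x) ?_ (fun i x x' => by
      unfold PS
      simp only [not_not, ne_eq])
  exact Fam.Def.and (Fam.Def.not (ZDefAux.def2_ne side hs))
    (Fam.Def.and (Fam.Def.not (Fam.Def.eq G 0 1)) (Fam.Def.and h1 h2))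

theorem def1_nps (hs : G.Def1 (fun i z => side i z = true)) (hM : G.Def2 M) :
    (Exp G 2).Def1 (fun i z => NPS (side i.1) (M i.1) (i.2 0) (i.2 1) z) := by
  have hc := def1_clo side M hs hM 6
  exact Fam.Def.or hc (Fam.Def.or
    (Fam.Def.and (Fam.Def.not (def0_pth side M hs hM hc .par 0 1 1))
      (def1_wc (G := Exp G 2) (fun i => side i.1) (fun i => M i.1) _ (lift hs) (lift hM) hc False))
    (Fam.Def.and (Fam.Def.not (def0_pth side M hs hM hc .ser 0 1 1))
      (def1_wc (G := Exp G 2) (fun i => side i.1) (fun i => M i.1) _ (lift hs) (lift hM) hc True)))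

theorem def1_nxt {S : (i : Σ i : ι, (Fin 2 → G.X i)) → (Exp G 2).X i → Prop}
    (hs : G.Def1 (fun i z => side i z = true)) (hM : G.Def2 M)
    (hS : (Exp G 2).Def1 S) (ρ : Rule) (k : Fin 2) :
    (Exp G 2).Def1 (fun i z => nxt (side i.1) (M i.1) ρ (both (S i)) (i.2 k) z) :=
  inst1 (ZDefAux.def2_nxt (G := Exp G 2) (fun i => side i.1) (fun i => M i.1)
    (fun i => both (S i)) (lift hs) (lift hM) (def2_both S hS) ρ) k

theorem def1_cps (hs : G.Def1 (fun i z => side i z = true)) (hM : G.Def2 M) :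
    (Exp G 2).Def1 (fun i z => CPS (side i.1) (M i.1) (i.2 0) (i.2 1) z) := by
  have hn := def1_nps side M hs hM
  exact Fam.Def.or
    (Fam.Def.and (Fam.Def.not (def0_pth side M hs hM hn .par 0 1 1))
      (def1_nxt side M hs hM hn .par 0))
    (Fam.Def.and (def0_pth side M hs hM hn .par 0 1 1)
      (def1_nxt side M hs hM hn .ser 0))

theorem def3_nps (hs : G.Def1 (fun i z => side i z = true)) (hM : G.Def2 M) :
    G.Def3 (fun i x x' z => NPS (side i) (M i) x x' z) :=
  param (G := G) (n := 2) (m := 1) (Q := fun i p w => NPS (side i) (M i) (p 0) (p 1) (w 0))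
    (def1_nps side M hs hM)

theorem def3_cps (hs : G.Def1 (fun i z => side i z = true)) (hM : G.Def2 M) :
    G.Def3 (fun i x x' z => CPS (side i) (M i) x x' z) :=
  param (G := G) (n := 2) (m := 1) (Q := fun i p w => CPS (side i) (M i) (p 0) (p 1) (w 0))
    (def1_cps side M hs hM)

theorem def2_pp (hs : G.Def1 (fun i z => side i z = true)) (hM : G.Def2 M) :
    G.Def2 (fun i u t => Pth (side i) (M i) .par (both (NPS (side i) (M i) u t)) 6 u t) :=
  param (G := G) (n := 2) (m := 0) (Q := fun i p _ =>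
      Pth (side i) (M i) .par (both (NPS (side i) (M i) (p 0) (p 1))) 6 (p 0) (p 1))
      (def0_pth side M hs hM (def1_nps side M hs hM) .par 0 1 0)

theorem def3_sepT (hs : G.Def1 (fun i z => side i z = true)) (hM : G.Def2 M) :
    G.Def3 (fun i u v t => SepT (side i) (M i) u v t) :=
  Fam.Def.and (Fam.Def2.at (def2_ps side M hs hM) 0 2)
    (Fam.Def.and (Fam.Def3.at (def3_nps side M hs hM) 0 2 1)
      (Fam.Def.not (Fam.Def3.at (def3_cps side M hs hM) 0 2 1)))

theorem def3_nf (hs : G.Def1 (fun i z => side i z = true)) (hM : G.Def2 M) :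
    G.Def3 (fun i u v z => NF (side i) (M i) u v z) := by
  have hT := def3_sepT side M hs hM
  have hN := def3_nps side M hs hM
  have hC := def3_cps side M hs hM
  have hP := def2_ps side M hs hM
  exact Fam.Def.or
    (Fam.Def.ex (F := G) (n := 3)
      (Q := fun i (v : Fin 3 → G.X i) (t : G.X i) => SepT (side i) (M i) (v 0) (v 1) t ∧
        NPS (side i) (M i) (v 0) t (v 2))
      (Fam.Def.and (Fam.Def3.at hT (Fin.castSucc 0) (Fin.castSucc 1) (Fin.last 3))
        (Fam.Def3.at hN (Fin.castSucc 0) (Fin.last 3) (Fin.castSucc 2))))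
    (Fam.Def.and
      (Fam.Def.all (F := G) (n := 3)
        (Q := fun i (v : Fin 3 → G.X i) (t : G.X i) => ¬ SepT (side i) (M i) (v 0) (v 1) t)
        (Fam.Def.not (Fam.Def3.at hT (Fin.castSucc 0) (Fin.castSucc 1) (Fin.last 3))))
      (Fam.Def.all (F := G) (n := 3)
        (Q := fun i (v : Fin 3 → G.X i) (t : G.X i) => PS (side i) (M i) (v 0) t →
          CPS (side i) (M i) (v 0) t (v 1) → CPS (side i) (M i) (v 0) t (v 2))
        (Fam.Def.imp (Fam.Def2.at hP (Fin.castSucc 0) (Fin.last 3))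
          (Fam.Def.imp (Fam.Def3.at hC (Fin.castSucc 0) (Fin.last 3) (Fin.castSucc 1))
            (Fam.Def3.at hC (Fin.castSucc 0) (Fin.last 3) (Fin.castSucc 2))))))

theorem def2_tf (hs : G.Def1 (fun i z => side i z = true)) (hM : G.Def2 M) (ρ : Rule) :
    G.Def2 (fun i u v => TF (side i) (M i) ρ u v) := by
  have hT := def3_sepT side M hs hM
  have hpp := def2_pp side M hs hM
  cases ρ with
  | ord =>
    exact Fam.Def.all (F := G) (n := 2)
      (Q := fun i (v : Fin 2 → G.X i) (t : G.X i) => ¬ SepT (side i) (M i) (v 0) (v 1) t)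
      (Fam.Def.not (Fam.Def3.at hT (Fin.castSucc 0) (Fin.castSucc 1) (Fin.last 2)))
  | par =>
    exact Fam.Def.ex (F := G) (n := 2)
      (Q := fun i (v : Fin 2 → G.X i) (t : G.X i) => SepT (side i) (M i) (v 0) (v 1) t ∧
        ¬ Pth (side i) (M i) .par (both (NPS (side i) (M i) (v 0) t)) 6 (v 0) t)
      (Fam.Def.and (Fam.Def3.at hT (Fin.castSucc 0) (Fin.castSucc 1) (Fin.last 2))
        (Fam.Def.not (Fam.Def2.at hpp (Fin.castSucc 0) (Fin.last 2))))
  | ser =>
    exact Fam.Def.ex (F := G) (n := 2)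
      (Q := fun i (v : Fin 2 → G.X i) (t : G.X i) => SepT (side i) (M i) (v 0) (v 1) t ∧
        Pth (side i) (M i) .par (both (NPS (side i) (M i) (v 0) t)) 6 (v 0) t)
      (Fam.Def.and (Fam.Def3.at hT (Fin.castSucc 0) (Fin.castSucc 1) (Fin.last 2))
        (Fam.Def2.at hpp (Fin.castSucc 0) (Fin.last 2)))

theorem def2_ltl (hs : G.Def1 (fun i z => side i z = true)) (hM : G.Def2 M) (hlt : G.Def2 lt)
    (ρ : Rule) : G.Def2 (fun i u v => LtL (side i) (M i) (lt i) ρ (both (NF (side i) (M i) u v))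
      (nxt (side i) (M i) ρ (both (NF (side i) (M i) u v))) u v) := by
  have hN : (Exp G 2).Def1 (fun i z => NF (side i.1) (M i.1) (i.2 0) (i.2 1) z) :=
    inst3 (G := G) (Q := fun i => NF (side i.1) (M i.1)) (lift (def3_nf side M hs hM)) 0 1
  have h1 := ZDefAux.def2_ltL (G := Exp G 2) (fun i => side i.1) (fun i => M i.1)
    (fun i => lt i.1) (fun i => both (NF (side i.1) (M i.1) (i.2 0) (i.2 1)))
    (fun i => nxt (side i.1) (M i.1) ρ (both (NF (side i.1) (M i.1) (i.2 0) (i.2 1))))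
    (lift hs) (lift hM) (lift hlt) (def2_both _ hN)
    (ZDefAux.def2_nxt (G := Exp G 2) (fun i => side i.1) (fun i => M i.1)
      (fun i => both (NF (side i.1) (M i.1) (i.2 0) (i.2 1))) (lift hs) (lift hM)
      (def2_both _ hN) ρ) ρ
  exact param (G := G) (n := 2) (m := 0) (Q := fun i p _ =>
    LtL (side i) (M i) (lt i) ρ (both (NF (side i) (M i) (p 0) (p 1)))
      (nxt (side i) (M i) ρ (both (NF (side i) (M i) (p 0) (p 1)))) (p 0) (p 1))
    (inst2 h1 0 1)

end Main

end FDefAux

theorem def2_ltF (G : Fam ι β υ) (side : (i : ι) → G.X i → Bool)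
    (M lt : (i : ι) → G.X i → G.X i → Prop) (hs : G.Def1 (fun i z => side i z = true))
    (hM : G.Def2 M) (hlt : G.Def2 lt) : G.Def2 (fun i => LtF (side i) (M i) (lt i)) := by
  refine Fam.Def2.congr (Q := fun i u v => ¬ u = v ∧
    ((TF (side i) (M i) .par u v ∧
      LtL (side i) (M i) (lt i) .par (both (NF (side i) (M i) u v))
        (nxt (side i) (M i) .par (both (NF (side i) (M i) u v))) u v) ∨
    (TF (side i) (M i) .ser u v ∧
      LtL (side i) (M i) (lt i) .ser (both (NF (side i) (M i) u v))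
        (nxt (side i) (M i) .ser (both (NF (side i) (M i) u v))) u v) ∨
    (TF (side i) (M i) .ord u v ∧
      LtL (side i) (M i) (lt i) .ord (both (NF (side i) (M i) u v))
        (nxt (side i) (M i) .ord (both (NF (side i) (M i) u v))) u v))) ?_ (fun i u v => ?_)
  · exact Fam.Def.and (Fam.Def.not (Fam.Def.eq G 0 1))
      (Fam.Def.or (Fam.Def.and (FDefAux.def2_tf side M hs hM .par)
          (FDefAux.def2_ltl side M lt hs hM hlt .par))
        (Fam.Def.or (Fam.Def.and (FDefAux.def2_tf side M hs hM .ser)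
            (FDefAux.def2_ltl side M lt hs hM hlt .ser))
          (Fam.Def.and (FDefAux.def2_tf side M hs hM .ord)
            (FDefAux.def2_ltl side M lt hs hM hlt .ord))))
  · unfold LtF
    refine and_congr Iff.rfl ⟨?_, ?_⟩
    · rintro ⟨ρ, h⟩
      cases ρ with
      | par => exact Or.inl h
      | ser => exact Or.inr (Or.inl h)
      | ord => exact Or.inr (Or.inr h)
    · rintro (h | h | h)
      · exact ⟨_, h⟩
      · exact ⟨_, h⟩
      · exact ⟨_, h⟩

end T

end P1346e8
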