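import Pool.Agent.Lib.P1346T.VDefsT
import Pool.Agent.Lib.P1346T.FDef
import Pool.Agent.Lib.P1346L.CopyElim

/-!
# MODULE VTDef: the orders of rows and columns are definable (about 0.6 h)

STATEMENT. If `X`, `Y`, `R`, `lt` are definable in a family `F` then `rowT` and `colT` are definable.

PROOF. As `Pool.Agent.Lib.P1346L.VDef` (copy it): `G := Fam.mk (fun i => F.X i × Bool) R' U'` with
`R' i 0 u v := rst (R i) (X i) (Y i) u v`, `R' i 1 u v := ltZ (lt i) u v`, `U' i 0 z := z.2 = true`; `def2_ltF` for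
`G`; `copyElim` with the second components `(true, true)` and `(false, false)`.
-/

set_option autoImplicit false

namespace P1346e8

namespace T

open L

universe u

variable {ι : Type u} {β υ : Type}

namespace VTDefAux

theorem def2_ltF0 (F : Fam ι β υ) (R lt : (i : ι) → F.X i → F.X i → Prop)
    (X Y : (i : ι) → F.X i → Prop) (hR : F.Def2 R) (hlt : F.Def2 lt) (hX : F.Def1 X)
    (hY : F.Def1 Y) (b : Bool) :
    F.Def2 (fun i x y => LtF Prod.snd (rst (R i) (X i) (Y i)) (ltZ (lt i)) (x, b) (y, b)) := by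
  let R' : (i : ι) → Fin 2 → F.X i × Bool → F.X i × Bool → Prop := fun i b u v =>
    if b = 0 then rst (R i) (X i) (Y i) u v else ltZ (lt i) u v
  let U' : (i : ι) → Fin 2 → F.X i × Bool → Prop := fun _ _ z => z.2 = true
  let G : Fam ι (Fin 2) (Fin 2) := Fam.mk (fun i => F.X i × Bool) R' U'
  have hs : G.Def1 (fun i z => (Prod.snd z : Bool) = true) :=
    (Fam.Def.un G 0 0).congr fun i v => Iff.rfl
  have hMM : G.Def2 (fun i => rst (R i) (X i) (Y i)) := by
    refine (Fam.Def.bin G 0 0 1).congr fun i v => ?_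
    change _ ↔ (if (0 : Fin 2) = 0 then rst (R i) (X i) (Y i) (v 0 : F.X i × Bool)
      (v 1 : F.X i × Bool) else ltZ (lt i) (v 0 : F.X i × Bool) (v 1 : F.X i × Bool))
    rw [if_pos rfl]
  have hL : G.Def2 (fun i => ltZ (lt i)) := by
    refine (Fam.Def.bin G 1 0 1).congr fun i v => ?_
    change _ ↔ (if (1 : Fin 2) = 0 then rst (R i) (X i) (Y i) (v 0 : F.X i × Bool)
      (v 1 : F.X i × Bool) else ltZ (lt i) (v 0 : F.X i × Bool) (v 1 : F.X i × Bool))
    rw [if_neg (by decide)]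
  have hlam : G.Def2 (fun i => LtF Prod.snd (rst (R i) (X i) (Y i)) (ltZ (lt i))) :=
    def2_ltF G (fun _ => Prod.snd) (fun i => rst (R i) (X i) (Y i)) (fun i => ltZ (lt i)) hs hMM hL
  have hR' : ∀ (k : Fin 2) (c d : Bool), F.Def2 (fun i x y => R' i k (x, c) (y, d)) := by
    intro k c d
    by_cases hk : k = 0
    · have h1 : F.Def2 (fun i x y => X i x ∧ Y i y ∧ R i x y) :=
        Fam.Def.and (Fam.Def1.at hX 0) (Fam.Def.and (Fam.Def1.at hY 1) hR)
      refine h1.congr fun i x y => ?_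
      change (if k = 0 then rst (R i) (X i) (Y i) (x, c) (y, d) else ltZ (lt i) (x, c) (y, d)) ↔ _
      rw [if_pos hk]
      rfl
    · have h1 : F.Def2 (fun i x y => lt i x y ∨ (x = y ∧ (c = true ∧ d = false))) :=
        Fam.Def.or hlt (Fam.Def.and (Fam.Def.eq F 0 1) (Fam.Def.const F _ (by omega)))
      refine h1.congr fun i x y => ?_
      change (if k = 0 then rst (R i) (X i) (Y i) (x, c) (y, d) else ltZ (lt i) (x, c) (y, d)) ↔ _
      rw [if_neg hk]
      rfl
  have hU' : ∀ (k : Fin 2) (c : Bool), F.Def1 (fun i x => U' i k (x, c)) := by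
    intro k c
    exact (Fam.Def.const F (c = true) (n := 1) (by omega))
  exact copyElim F R' U' hR' hU' hlam (fun _ => b)

end VTDefAux

theorem def2_rowT (F : Fam ι β υ) (R lt : (i : ι) → F.X i → F.X i → Prop)
    (X Y : (i : ι) → F.X i → Prop) (hR : F.Def2 R) (hlt : F.Def2 lt) (hX : F.Def1 X)
    (hY : F.Def1 Y) : F.Def2 (fun i => rowT (R i) (lt i) (X i) (Y i)) :=
  Fam.Def.and (Fam.Def1.at hX 0) (Fam.Def.and (Fam.Def1.at hX 1)
    (VTDefAux.def2_ltF0 F R lt X Y hR hlt hX hY true))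

theorem def2_colT (F : Fam ι β υ) (R lt : (i : ι) → F.X i → F.X i → Prop)
    (X Y : (i : ι) → F.X i → Prop) (hR : F.Def2 R) (hlt : F.Def2 lt) (hX : F.Def1 X)
    (hY : F.Def1 Y) : F.Def2 (fun i => colT (R i) (lt i) (X i) (Y i)) :=
  Fam.Def.and (Fam.Def1.at hY 0) (Fam.Def.and (Fam.Def1.at hY 1)
    (VTDefAux.def2_ltF0 F R lt X Y hR hlt hX hY false))

end T

end P1346e8
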