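import Pool.Agent.Lib.P1346T.VT
import Pool.Agent.Lib.P1346T.VTDef
import Pool.Agent.Lib.P1346L.VOrd
import Pool.Agent.Lib.P1346e8.Main

/-!
# Q1 for classes of ordered graphs with totally decomposable pairs of parts
-/

set_option autoImplicit false

namespace P1346e8

namespace T

open L

theorem final_tot (C : Set Str) (hC : ∀ A ∈ C, A.IsOrderedGraph) (N : ℕ)
    (h : ∀ A ∈ C, ∃ κ : A.V → Fin N, ∀ α β,
      TotDec (A.r 0) (fun x => κ x = α) (fun y => κ y = β)) :
    ∃ P : Set Str, IsPermClass P ∧ IsTransductionOf C P ∧ IsTransductionOf P C := by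
  classical
  choose κ hκ using fun i : C => h i.1 i.2
  let en : Fin (Fintype.card (Fin N × Fin N)) ≃ Fin N × Fin N := (Fintype.equivFin _).symm
  let U : (i : C) → Fin N → i.1.V → Prop := fun i γ v => κ i v = γ
  have hV : ∀ i : C, Finite i.1.V := fun i => i.1.fin
  have hvt := fun (i : C) (j : Fin (Fintype.card (Fin N × Fin N))) =>
    vt (V := i.1.V) (R := i.1.r 0) (lt := i.1.r 1) (hC i.1 i.2).2.2 (X := U i (en j).1)
      (Y := U i (en j).2) (hκ i (en j).1 (en j).2)
  have hU : ∀ γ, (baseFam (fun i : C => i.1) U).Def1 (fun i => U i γ) := fun γ =>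
    Fam.Def.un (baseFam (fun i : C => i.1) U) γ 0
  have hr : ∀ b, (baseFam (fun i : C => i.1) U).Def2 (fun i => i.1.r b) := fun b =>
    Fam.Def.bin (baseFam (fun i : C => i.1) U) b 0 1
  refine main_fam C hC (υ := Fin N) U (fun j => (en j).1) (fun j => (en j).2)
    (fun j i => rowT (i.1.r 0) (i.1.r 1) (U i (en j).1) (U i (en j).2))
    (fun j i => colT (i.1.r 0) (i.1.r 1) (U i (en j).1) (U i (en j).2))
    (fun j i x y => U i (en j).1 x ∧ U i (en j).2 y ∧ i.1.r 0 x y)
    (fun j i x y h => ⟨h.1, h.2.1⟩) (fun j i x y h => ⟨h.1, h.2.1⟩) (fun j i x y h => ⟨h.1, h.2.1⟩)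
    (fun j i => (hvt i j).1) (fun j i => (hvt i j).2.1) ?_ ?_ ?_ 6 ?_ ?_
  · intro j
    exact def2_rowT (baseFam (fun i : C => i.1) U) _ _ _ _ (hr 0) (hr 1) (hU _) (hU _)
  · intro j
    exact def2_colT (baseFam (fun i : C => i.1) U) _ _ _ _ (hr 0) (hr 1) (hU _) (hU _)
  · intro j
    exact Fam.Def.and (Fam.Def.un (baseFam (fun i : C => i.1) U) _ 0)
      (Fam.Def.and (Fam.Def.un (baseFam (fun i : C => i.1) U) _ 1) (hr 0))
  · intro j i
    exact (hvt i j).2.2
  · have h1 := Fam.Def.exFin (F := Asm.relFam C U fun j i x y =>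
        U i (en j).1 x ∧ U i (en j).2 y ∧ i.1.r 0 x y) (n := 2)
      (α := Fin (Fintype.card (Fin N × Fin N)))
      (Q := fun j i v => (Asm.relFam C U fun j i x y =>
        U i (en j).1 x ∧ U i (en j).2 y ∧ i.1.r 0 x y).R i (some j) (v 0) (v 1)) (by omega)
      fun j => Fam.Def.bin _ _ _ _
    refine h1.congr fun i v => ?_
    constructor
    · intro h0
      refine ⟨en.symm (κ i (v 0), κ i (v 1)), ?_⟩
      change (κ i (v 0) = _ ∧ κ i (v 1) = _ ∧ i.1.r 0 (v 0) (v 1))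
      rw [Equiv.apply_symm_apply]
      exact ⟨rfl, rfl, h0⟩
    · rintro ⟨j, hj⟩
      exact hj.2.2

end T

end P1346e8
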