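import Pool.Agent.Lib.P1346T.RefS

/-!
# The order of the classes of one refinement, for totally decomposable structures

Adapted from `Pool.Agent.Lib.P1346L.LvlOrd` (helper83).
-/

set_option autoImplicit false

namespace P1346e8

namespace T

open L L.RefineAux

namespace LvlSAux

section Min

variable {Z : Type} {lt : Z → Z → Prop} {W : Z → Prop} {q' : Z → Z → Prop}

theorem min_inv (hq : EqOn W q') {u v u' v' : Z} (hu : q' u u') (hv : q' v v')
    (h : MinLt lt q' u v) : MinLt lt q' u' v' := by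
  obtain ⟨m, h1, h2⟩ := h
  exact ⟨m, hq.trans _ _ _ (hq.symm _ _ hu) h1, fun m' hm' => h2 m' (hq.trans _ _ _ hv hm')⟩

theorem min_asymm (hq : EqOn W q') (hlt : StrictLin W lt) {u v : Z} (h : MinLt lt q' u v)
    (h' : MinLt lt q' v u) : False := by
  obtain ⟨m, h1, h2⟩ := h
  obtain ⟨n, h3, h4⟩ := h'
  have hm := (hq.dom _ _ h1).2
  have hn := (hq.dom _ _ h3).2
  exact hlt.1 m hm (hlt.2.1 m n m hm hn hm (h2 n h3) (h4 m h1))

theorem min_trans (hq : EqOn W q') (hlt : StrictLin W lt) {u v w : Z} (h : MinLt lt q' u v)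
    (h' : MinLt lt q' v w) : MinLt lt q' u w := by
  obtain ⟨m, h1, h2⟩ := h
  obtain ⟨n, h3, h4⟩ := h'
  exact ⟨m, h1, fun m' hm' => hlt.2.1 m n m' (hq.dom _ _ h1).2 (hq.dom _ _ h3).2
    (hq.dom _ _ hm').2 (h2 n h3) (h4 m' hm')⟩

theorem exists_min [Finite Z] (hq : EqOn W q') (hlt : StrictLin W lt) {u : Z} (hu : W u) :
    ∃ m, q' u m ∧ ∀ m', q' u m' → m' = m ∨ lt m m' := by
  have htr : IsTrans Z (fun x y => q' u x ∧ q' u y ∧ lt x y) :=
    ⟨fun a b c h1 h2 => ⟨h1.1, h2.2.1, hlt.2.1 a b c (hq.dom _ _ h1.1).2 (hq.dom _ _ h1.2.1).2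
      (hq.dom _ _ h2.2.1).2 h1.2.2 h2.2.2⟩⟩
  have hir : Std.Irrefl (fun x y => q' u x ∧ q' u y ∧ lt x y) :=
    ⟨fun a h1 => hlt.1 a (hq.dom _ _ h1.1).2 h1.2.2⟩
  have hwf := Finite.wellFounded_of_trans_of_irrefl (fun x y => q' u x ∧ q' u y ∧ lt x y)
  obtain ⟨m, hm, hmin⟩ := hwf.has_min {x | q' u x} ⟨u, hq.refl u hu⟩
  refine ⟨m, hm, fun m' hm' => ?_⟩
  by_cases h : m' = m
  · exact Or.inl h
  · right
    rcases hlt.2.2 m' m (hq.dom _ _ hm').2 (hq.dom _ _ hm).2 h with h1 | h1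
    · exact absurd ⟨hm', hm, h1⟩ (hmin m' hm')
    · exact h1

theorem min_total [Finite Z] (hq : EqOn W q') (hlt : StrictLin W lt) {u v : Z} (hu : W u)
    (hv : W v) (hn : ¬ q' u v) : MinLt lt q' u v ∨ MinLt lt q' v u := by
  obtain ⟨m, hm1, hm2⟩ := exists_min hq hlt hu
  obtain ⟨n, hn1, hn2⟩ := exists_min hq hlt hv
  have hWm := (hq.dom _ _ hm1).2
  have hWn := (hq.dom _ _ hn1).2
  have hne : m ≠ n := by
    rintro rfl
    exact hn (hq.trans _ _ _ hm1 (hq.symm _ _ hn1))
  rcases hlt.2.2 m n hWm hWn hne with h | h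
  · left
    refine ⟨m, hm1, fun m' hm' => ?_⟩
    rcases hn2 m' hm' with rfl | h1
    · exact h
    · exact hlt.2.1 m n m' hWm hWn (hq.dom _ _ hm').2 h h1
  · right
    refine ⟨n, hn1, fun m' hm' => ?_⟩
    rcases hm2 m' hm' with rfl | h1
    · exact h
    · exact hlt.2.1 n m m' hWn hWm (hq.dom _ _ hm').2 h h1

theorem min_nxt (hq : EqOn W q') (hlt : StrictLin W lt) {u v w : Z} (hv : W v)
    (h : MinLt lt q' u v) (h' : MinLt lt q' v w) : ¬ q' u w := fun huw =>
  min_asymm hq hlt (min_inv hq huw (hq.refl v hv) h) h'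

end Min

section Ord

variable {Z : Type} {side : Z → Bool} {M lt : Z → Z → Prop} {W : Z → Prop} {q : Z → Z → Prop}

theorem D_or {u v : Z} (h : side u ≠ side v) : D side M .ord u v ∨ D side M .ord v u := by
  have h1 := ed_symm (M := M) h
  unfold D
  cases hu : side u <;> cases hv : side v <;> simp_all
  · exact em' _
  · exact em _

theorem D_not {u v : Z} (h : D side M .ord u v) : ¬ D side M .ord v u := by
  have h1 := ed_symm (M := M) h.1
  unfold D at h ⊢
  cases hu : side u <;> cases hv : side v <;> simp_all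

/-- there is a path -/
def R (side : Z → Bool) (M q : Z → Z → Prop) (u v : Z) : Prop := ∃ n, Pth side M .ord q n u v

theorem R_refl (hq : EqOn W q) {u : Z} (hu : W u) : R side M q u u := ⟨0, hq.refl u hu, rfl⟩

theorem R_trans (hq : EqOn W q) {u v w : Z} (h : R side M q u v) (h' : R side M q v w) :
    R side M q u w := by
  obtain ⟨m, hm⟩ := h
  obtain ⟨n, hn⟩ := h'
  exact ⟨m + n, hm.trans hn hq.trans⟩

theorem R_q (hq : EqOn W q) {u v : Z} (h : R side M q u v) : q u v := by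
  obtain ⟨n, hn⟩ := h
  exact RefineAux.pth_q hq n u v hn

theorem R_arc (hq : EqOn W q) {u v : Z} (h : q u v) (hD : D side M .ord u v) :
    R side M q u v := ⟨1, RefineAux.pth_one hq h hD⟩

theorem R_last {u v : Z} (h : R side M q u v) :
    u = v ∨ ∃ w, R side M q u w ∧ q w v ∧ D side M .ord w v := by
  obtain ⟨n, hn⟩ := h
  induction n with
  | zero => exact Or.inl hn.2
  | succ n ih =>
    rcases hn with hn | ⟨w, h1, h2, h3⟩
    · exact ih hn
    · exact Or.inr ⟨w, ⟨n, h1⟩, h2, h3⟩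

theorem R_first (hq : EqOn W q) {u v : Z} (h : R side M q u v) :
    u = v ∨ ∃ w, q u w ∧ D side M .ord u w ∧ R side M q w v := by
  obtain ⟨n, hn⟩ := h
  induction n generalizing v with
  | zero => exact Or.inl hn.2
  | succ n ih =>
    rcases hn with hn | ⟨w, h1, h2, h3⟩
    · exact ih hn
    · right
      rcases ih h1 with rfl | ⟨x, hx1, hx2, hx3⟩
      · exact ⟨v, h2, h3, R_refl hq (hq.dom _ _ h2).2⟩
      · exact ⟨x, hx1, hx2, R_trans hq hx3 (R_arc hq h2 h3)⟩

theorem bf_iff (hq : EqOn W q) (hTD : TotD side M) {u v : Z} (huv : q u v)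
    (hn : ¬ nxt side M .ord q u v) :
    Bf side M q (nxt side M .ord q) u v ↔ R side M q u v := by
  have hnx : ∀ a b, nxt side M .ord q a b ↔ R side M q a b ∧ R side M q b a :=
    fun a b => nxt_iffS hq hTD .ord a b
  have hWu := (hq.dom _ _ huv).1
  have hWv := (hq.dom _ _ huv).2
  constructor
  · rintro (⟨u', hu', v', hv', hD⟩ | ⟨w, h1, h2, h3⟩)
    · have h1 := (hnx _ _).1 hu'
      have h2 := (hnx _ _).1 hv'
      have h3 : q u' v' := hq.trans _ _ _ (R_q hq h1.2) (hq.trans _ _ _ huv (R_q hq h2.1))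
      exact R_trans hq h1.1 (R_trans hq (R_arc hq h3 hD) h2.2)
    · exact R_trans hq (R_arc hq h1 h2)
        (R_arc hq (hq.trans _ _ _ (hq.symm _ _ h1) huv) h3)
  · intro hR
    have hnR : ¬ R side M q v u := fun h => hn ((hnx _ _).2 ⟨hR, h⟩)
    by_cases hc : ∃ u' v', nxt side M .ord q u u' ∧ nxt side M .ord q v v' ∧ side u' ≠ side v'
    · obtain ⟨u', v', hu', hv', hs⟩ := hc
      left
      refine ⟨u', hu', v', hv', (D_or hs).resolve_right fun hD => hnR ?_⟩
      have h1 := (hnx _ _).1 hu'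
      have h2 := (hnx _ _).1 hv'
      have h3 : q v' u' := hq.trans _ _ _ (R_q hq h2.2)
        (hq.trans _ _ _ (hq.symm _ _ huv) (R_q hq h1.1))
      exact R_trans hq h2.1 (R_trans hq (R_arc hq h3 hD) h1.2)
    · push Not at hc
      right
      have hne : u ≠ v := by
        rintro rfl
        exact hn ((hnx _ _).2 ⟨hR, hR⟩)
      have hrr : ∀ a, W a → nxt side M .ord q a a := fun a ha =>
        (hnx _ _).2 ⟨R_refl hq ha, R_refl hq ha⟩
      obtain ⟨w, hw1, hw2, hw3⟩ := (R_last hR).resolve_left hne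
      have hsuv : side u = side v := hc u v (hrr u hWu) (hrr v hWv)
      have hquw : q u w := R_q hq hw1
      have hswu : side w ≠ side u := by
        rw [hsuv]
        exact hw3.1
      refine ⟨w, hquw, (D_or hswu).resolve_left fun hD => ?_, hw3⟩
      have h1 : nxt side M .ord q u w := (hnx _ _).2 ⟨hw1, R_arc hq (hq.symm _ _ hquw) hD⟩
      exact hw3.1 (hc w v h1 (hrr v hWv))

/-- incomparable elements -/
def Inc (side : Z → Bool) (M q : Z → Z → Prop) (u v : Z) : Prop :=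
  q u v ∧ ¬ R side M q u v ∧ ¬ R side M q v u

theorem Inc.symm (hq : EqOn W q) {u v : Z} (h : Inc side M q u v) : Inc side M q v u :=
  ⟨hq.symm _ _ h.1, h.2.2, h.2.1⟩

theorem Inc.sides (hq : EqOn W q) {u v : Z} (h : Inc side M q u v) : side u = side v := by
  by_contra hs
  rcases D_or (M := M) hs with hD | hD
  · exact h.2.1 (R_arc hq h.1 hD)
  · exact h.2.2 (R_arc hq (hq.symm _ _ h.1) hD)

theorem Inc.to (hq : EqOn W q) {u v w : Z} (h : Inc side M q u v) (hw : q u w)
    (hD : D side M .ord u w) : D side M .ord v w := by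
  have hs := h.sides hq
  have h1 : side v ≠ side w := by
    rw [← hs]
    exact hD.1
  refine (D_or h1).resolve_right fun h2 => h.2.1 ?_
  exact R_trans hq (R_arc hq hw hD) (R_arc hq (hq.trans _ _ _ (hq.symm _ _ hw) h.1) h2)

theorem Inc.from (hq : EqOn W q) {u v w : Z} (h : Inc side M q u v) (hw : q w u)
    (hD : D side M .ord w u) : D side M .ord w v := by
  have hs := h.sides hq
  have h1 : side w ≠ side v := by
    rw [← hs]
    exact hD.1
  refine (D_or h1).resolve_right fun h2 => h.2.2 ?_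
  exact R_trans hq (R_arc hq (hq.trans _ _ _ (hq.symm _ _ h.1) (hq.symm _ _ hw)) h2)
    (R_arc hq hw hD)

theorem ltL_iff (hq : EqOn W q) (hTD : TotD side M) {u v : Z}
    (huv : q u v) (hn : ¬ nxt side M .ord q u v) :
    LtL side M lt .ord q (nxt side M .ord q) u v ↔ R side M q u v ∨
      (Inc side M q u v ∧ MinLt lt (nxt side M .ord q) u v) := by
  have h1 := bf_iff hq hTD huv hn
  have h2 := bf_iff hq hTD (hq.symm _ _ huv) (fun h => hn ⟨h.2, h.1⟩)
  change (Bf side M q (nxt side M .ord q) u v ∨ (¬ Bf side M q (nxt side M .ord q) u v ∧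
    ¬ Bf side M q (nxt side M .ord q) v u ∧ MinLt lt (nxt side M .ord q) u v)) ↔ _
  rw [h1, h2]
  unfold Inc
  constructor
  · rintro (h | ⟨h3, h4, h5⟩)
    · exact Or.inl h
    · exact Or.inr ⟨⟨huv, h3, h4⟩, h5⟩
  · rintro (h | ⟨⟨_, h3, h4⟩, h5⟩)
    · exact Or.inl h
    · exact Or.inr ⟨h3, h4, h5⟩

end Ord

end LvlSAux

open LvlSAux

variable {Z : Type} [Finite Z] {side : Z → Bool} {M lt : Z → Z → Prop} {W : Z → Prop}
  {q : Z → Z → Prop}

theorem ltL_inv (hq : EqOn W q) (hTD : TotD side M) (hlt : StrictLin W lt)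
    (ρ : Rule) (u v u' v' : Z) (huv : q u v) (hn : ¬ nxt side M ρ q u v)
    (hu : nxt side M ρ q u u') (hv : nxt side M ρ q v v')
    (h : LtL side M lt ρ q (nxt side M ρ q) u v) : LtL side M lt ρ q (nxt side M ρ q) u' v' := by
  have hq' := nxt_eqOnS hq hTD ρ
  cases ρ with
  | par => exact min_inv hq' hu hv h
  | ser => exact min_inv hq' hu hv h
  | ord =>
    have hnx : ∀ a b, nxt side M .ord q a b ↔ R side M q a b ∧ R side M q b a :=
      fun a b => nxt_iffS hq hTD .ord a b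
    have h1 := (hnx _ _).1 hu
    have h2 := (hnx _ _).1 hv
    have huv' : q u' v' := hq.trans _ _ _ (R_q hq h1.2) (hq.trans _ _ _ huv (R_q hq h2.1))
    have hn' : ¬ nxt side M .ord q u' v' := fun h3 =>
      hn (hq'.trans _ _ _ hu (hq'.trans _ _ _ h3 (hq'.symm _ _ hv)))
    rw [ltL_iff hq hTD huv hn] at h
    rw [ltL_iff hq hTD huv' hn']
    rcases h with h | ⟨⟨_, h3, h4⟩, h5⟩
    · exact Or.inl (R_trans hq h1.2 (R_trans hq h h2.1))
    · right
      refine ⟨⟨huv', fun h6 => h3 ?_, fun h6 => h4 ?_⟩, min_inv hq' hu hv h5⟩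
      · exact R_trans hq h1.1 (R_trans hq h6 h2.2)
      · exact R_trans hq h2.1 (R_trans hq h6 h1.2)

theorem ltL_asymm (hq : EqOn W q) (hTD : TotD side M)
    (hlt : StrictLin W lt) (ρ : Rule) (u v : Z) (huv : q u v) (hn : ¬ nxt side M ρ q u v)
    (h : LtL side M lt ρ q (nxt side M ρ q) u v) : ¬ LtL side M lt ρ q (nxt side M ρ q) v u := by
  have hq' := nxt_eqOnS hq hTD ρ
  cases ρ with
  | par => exact fun h' => min_asymm hq' hlt h h'
  | ser => exact fun h' => min_asymm hq' hlt h h'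
  | ord =>
    have hnx : ∀ a b, nxt side M .ord q a b ↔ R side M q a b ∧ R side M q b a :=
      fun a b => nxt_iffS hq hTD .ord a b
    rw [ltL_iff hq hTD huv hn] at h
    rw [ltL_iff hq hTD (hq.symm _ _ huv) (fun h' => hn (hq'.symm _ _ h'))]
    rcases h with h | ⟨⟨_, h3, h4⟩, h5⟩
    · rintro (h' | ⟨⟨_, h3, h4⟩, _⟩)
      · exact hn ((hnx _ _).2 ⟨h, h'⟩)
      · exact h4 h
    · rintro (h' | ⟨_, h6⟩)
      · exact h4 h'
      · exact min_asymm hq' hlt h5 h6

theorem ltL_total (hq : EqOn W q) (hTD : TotD side M)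
    (hlt : StrictLin W lt) (ρ : Rule) (u v : Z) (huv : q u v) (hn : ¬ nxt side M ρ q u v) :
    LtL side M lt ρ q (nxt side M ρ q) u v ∨ LtL side M lt ρ q (nxt side M ρ q) v u := by
  have hq' := nxt_eqOnS hq hTD ρ
  have hmin := min_total hq' hlt (hq.dom _ _ huv).1 (hq.dom _ _ huv).2 hn
  cases ρ with
  | par => exact hmin
  | ser => exact hmin
  | ord =>
    rw [ltL_iff hq hTD huv hn,
      ltL_iff hq hTD (hq.symm _ _ huv) (fun h' => hn (hq'.symm _ _ h'))]
    by_cases h1 : R side M q u v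
    · exact Or.inl (Or.inl h1)
    · by_cases h2 : R side M q v u
      · exact Or.inr (Or.inl h2)
      · have h3 : Inc side M q u v := ⟨huv, h1, h2⟩
        rcases hmin with h | h
        · exact Or.inl (Or.inr ⟨h3, h⟩)
        · exact Or.inr (Or.inr ⟨h3.symm hq, h⟩)

theorem ltL_trans (hq : EqOn W q) (hTD : TotD side M)
    (hlt : StrictLin W lt) (ρ : Rule) (u v w : Z) (huv : q u v) (hvw : q v w)
    (hn : ¬ nxt side M ρ q u v) (hn' : ¬ nxt side M ρ q v w)
    (h : LtL side M lt ρ q (nxt side M ρ q) u v) (h' : LtL side M lt ρ q (nxt side M ρ q) v w) :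
    ¬ nxt side M ρ q u w ∧ LtL side M lt ρ q (nxt side M ρ q) u w := by
  have hq' := nxt_eqOnS hq hTD ρ
  have hWv := (hq.dom _ _ huv).2
  cases ρ with
  | par => exact ⟨min_nxt hq' hlt hWv h h', min_trans hq' hlt h h'⟩
  | ser => exact ⟨min_nxt hq' hlt hWv h h', min_trans hq' hlt h h'⟩
  | ord =>
    have hnx : ∀ a b, nxt side M .ord q a b ↔ R side M q a b ∧ R side M q b a :=
      fun a b => nxt_iffS hq hTD .ord a b
    have huw : q u w := hq.trans _ _ _ huv hvw
    rw [ltL_iff hq hTD huv hn] at h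
    rw [ltL_iff hq hTD hvw hn'] at h'
    suffices hs : ¬ nxt side M .ord q u w ∧ (R side M q u w ∨
        (Inc side M q u w ∧ MinLt lt (nxt side M .ord q) u w)) by
      refine ⟨hs.1, ?_⟩
      rw [ltL_iff hq hTD huw hs.1]
      exact hs.2
    have hne : ∀ a b, q a b → ¬ nxt side M .ord q a b → a ≠ b := by
      rintro a b hab hnab rfl
      exact hnab (hq'.refl a (hq.dom _ _ hab).1)
    rcases h with h | ⟨h1, h2⟩ <;> rcases h' with h' | ⟨h3, h4⟩
    · refine ⟨fun h5 => ?_, Or.inl (R_trans hq h h')⟩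
      exact hn' ((hnx _ _).2 ⟨h', R_trans hq ((hnx _ _).1 h5).2 h⟩)
    · obtain ⟨x, hx1, hx2, hx3⟩ := (R_last h).resolve_left (hne u v huv hn)
      have h5 : D side M .ord x w := h3.from hq hx2 hx3
      refine ⟨fun h6 => ?_, Or.inl (R_trans hq hx1 (R_arc hq (hq.trans _ _ _ hx2 hvw) h5))⟩
      exact h3.2.2 (R_trans hq ((hnx _ _).1 h6).2 h)
    · obtain ⟨x, hx1, hx2, hx3⟩ := (R_first hq h').resolve_left (hne v w hvw hn')
      have h5 : D side M .ord u x := (h1.symm hq).to hq hx1 hx2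
      refine ⟨fun h6 => ?_, Or.inl (R_trans hq (R_arc hq (hq.trans _ _ _ huv hx1) h5) hx3)⟩
      exact h1.2.2 (R_trans hq h' ((hnx _ _).1 h6).2)
    · have h5 : ¬ nxt side M .ord q u w := min_nxt hq' hlt hWv h2 h4
      refine ⟨h5, ?_⟩
      by_cases h6 : R side M q u w
      · exact Or.inl h6
      · right
        refine ⟨⟨huw, h6, fun h7 => ?_⟩, min_trans hq' hlt h2 h4⟩
        have h8 : w ≠ u := fun h => hne u w huw h5 h.symm
        obtain ⟨x, hx1, hx2, hx3⟩ := (R_last h7).resolve_left h8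
        have h9 : D side M .ord x v := h1.from hq hx2 hx3
        exact h3.2.2 (R_trans hq hx1 (R_arc hq (hq.trans _ _ _ hx2 huv) h9))

theorem entry_par (hq : EqOn W q) (u v : Z) (huv : q u v) (hn : ¬ nxt side M .par q u v)
    (hs : side u ≠ side v) : ¬ ed side M u v := by
  intro he
  have h1 : D side M .par u v := ⟨hs, he⟩
  have h2 : D side M .par v u := ⟨hs.symm, (ed_symm hs).1 he⟩
  exact hn ⟨Pth.mono (by norm_num) (RefineAux.pth_one hq huv h1),
    Pth.mono (by norm_num) (RefineAux.pth_one hq (hq.symm _ _ huv) h2)⟩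

theorem entry_ser (hq : EqOn W q) (u v : Z) (huv : q u v) (hn : ¬ nxt side M .ser q u v)
    (hs : side u ≠ side v) : ed side M u v := by
  by_contra he
  have h1 : D side M .ser u v := ⟨hs, he⟩
  have h2 : D side M .ser v u := ⟨hs.symm, fun h => he ((ed_symm hs).2 h)⟩
  exact hn ⟨Pth.mono (by norm_num) (RefineAux.pth_one hq huv h1),
    Pth.mono (by norm_num) (RefineAux.pth_one hq (hq.symm _ _ huv) h2)⟩

theorem entry_ord (hq : EqOn W q) (hTD : TotD side M)
    (hlt : StrictLin W lt) (u v : Z) (huv : q u v) (hn : ¬ nxt side M .ord q u v)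
    (hs : side u ≠ side v) :
    LtL side M lt .ord q (nxt side M .ord q) u v ↔ D side M .ord u v := by
  have hnx : ∀ a b, nxt side M .ord q a b ↔ R side M q a b ∧ R side M q b a :=
    fun a b => nxt_iffS hq hTD .ord a b
  rw [ltL_iff hq hTD huv hn]
  constructor
  · rintro (h | ⟨h, _⟩)
    · refine (D_or hs).resolve_right fun hD => hn ((hnx _ _).2 ⟨h, ?_⟩)
      exact R_arc hq (hq.symm _ _ huv) hD
    · exact absurd (h.sides hq) hs
  · intro hD
    exact Or.inl (R_arc hq huv hD)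

end T

end P1346e8
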