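import Pool.Agent.Lib.P1346T.NodeQ

/-!
# MODULE OrdT: the order of the leaves is a strict linear order (about 1.2 h)

STATEMENTS. `LtT side M lt` is a strict linear order on `Z`; at the level `i` which separates `u` and `v`
it is given by `LtL`; it is invariant: if `u ~ u'` and `v ~ v'` at level `i + 1` then `LtT u v ↔ LtT u' v'`.

PROOFS. `ltT_iff`: the level is unique (`sep_unique`).  For an equivalence relation `q = qs i` and the rule
`ρ = typ (qs i u)` the theorems `ltL_inv`, `ltL_asymm`, `ltL_total`, `ltL_trans` (`Pool.Agent.Lib.P1346T.LvlS`,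
with `W = fun _ => True`, `hq = qs_eqOn hT i`) apply; `qs (i+1) a b` is `nxt side M ρ (qs i) a b` by definition
if `a` is in the class of `u` (`qs_class`: `typ (qs i a) = typ (qs i u)`).
Irreflexive: `¬ qs (i+1) u u` is impossible.  Total: `exists_sep`, `ltL_total`.
Transitive: let `LtT u v` at level `i`, `LtT v w` at level `j`.  `i < j`: `qs (i+1) v w` (`qs_le`), so `u, w` are
separated at level `i`, and `ltL_inv` (with `v` replaced by `w`) gives `LtL u w`.  `j < i`: `qs (j+1) u v`, the
same.  `i = j`: `ltL_trans`.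
-/

set_option autoImplicit false

namespace P1346e8

namespace T

open L

variable {Z : Type} [Finite Z] {side : Z → Bool} {M lt : Z → Z → Prop}

theorem ltT_iff (hT : TotD side M) {i : ℕ} {u v : Z} (h : qs side M i u v)
    (hn : ¬ qs side M (i + 1) u v) :
    LtT side M lt u v ↔ LtL side M lt (typ side M (qs side M i u)) (qs side M i)
      (nxt side M (typ side M (qs side M i u)) (qs side M i)) u v := by
  constructor
  · rintro ⟨j, h1, h2, h3⟩
    have hij : i = j := sep_unique hT h hn h1 h2
    subst hij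
    exact h3
  · intro h3
    exact ⟨i, h, hn, h3⟩

theorem ltT_inv (hT : TotD side M) (hlt : StrictLin (fun _ => True) lt) {i : ℕ} {u v u' v' : Z}
    (h : qs side M i u v) (hn : ¬ qs side M (i + 1) u v) (hu : qs side M (i + 1) u u')
    (hv : qs side M (i + 1) v v') (hl : LtT side M lt u v) : LtT side M lt u' v' := by
  have hq := qs_eqOn hT i
  have hq' := qs_eqOn hT (i + 1)
  have h1 : qs side M i u u' := qs_le hT (Nat.le_succ i) hu
  have h2 : qs side M i v v' := qs_le hT (Nat.le_succ i) hv
  have h3 : qs side M i u' v' := hq.trans _ _ _ (hq.symm _ _ h1) (hq.trans _ _ _ h h2)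
  have h4 : ¬ qs side M (i + 1) u' v' := fun h5 =>
    hn (hq'.trans _ _ _ hu (hq'.trans _ _ _ h5 (hq'.symm _ _ hv)))
  have hcu : qs side M i u = qs side M i u' := qs_class hT h1
  have hcv : qs side M i u = qs side M i v := qs_class hT h
  rw [ltT_iff hT h hn] at hl
  rw [ltT_iff hT h3 h4, ← hcu]
  refine ltL_inv hq hT hlt (typ side M (qs side M i u)) u v u' v' h hn hu ?_ hl
  have h5 : nxt side M (typ side M (qs side M i v)) (qs side M i) v v' := hv
  rw [← hcv] at h5
  exact h5

theorem ltT_lin (hT : TotD side M) (hlt : StrictLin (fun _ => True) lt) :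
    StrictLin (fun _ => True) (LtT side M lt) := by
  refine ⟨?_, ?_, ?_⟩
  · rintro u - ⟨i, _, h2, _⟩
    exact h2 ((qs_eqOn hT (i + 1)).refl u trivial)
  · rintro u v w - - - huv hvw
    obtain ⟨i, hi1, hi2, hi3⟩ := huv
    obtain ⟨j, hj1, hj2, hj3⟩ := hvw
    rcases lt_trichotomy i j with hij | hij | hij
    · have h1 : qs side M (i + 1) v w := qs_le hT hij hj1
      exact ltT_inv hT hlt hi1 hi2 ((qs_eqOn hT (i + 1)).refl u trivial) h1 ⟨i, hi1, hi2, hi3⟩
    · subst hij
      have hcv : qs side M i u = qs side M i v := qs_class hT hi1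
      have h3 : ¬ nxt side M (typ side M (qs side M i u)) (qs side M i) v w := by
        intro h4
        rw [hcv] at h4
        exact hj2 h4
      have h5 := ltL_trans (qs_eqOn hT i) hT hlt (typ side M (qs side M i u)) u v w hi1 hj1 hi2 h3
        hi3 (by rw [hcv]; exact hj3)
      exact ⟨i, (qs_eqOn hT i).trans _ _ _ hi1 hj1, h5.1, h5.2⟩
    · have h1 : qs side M (j + 1) u v := qs_le hT hij hi1
      exact ltT_inv hT hlt hj1 hj2 ((qs_eqOn hT (j + 1)).symm _ _ h1)
        ((qs_eqOn hT (j + 1)).refl w trivial) ⟨j, hj1, hj2, hj3⟩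
  · rintro u v - - hne
    obtain ⟨i, hi1, hi2⟩ := exists_sep hT hne
    have hcv : qs side M i u = qs side M i v := qs_class hT hi1
    rcases ltL_total (qs_eqOn hT i) hT hlt (typ side M (qs side M i u)) u v hi1 hi2 with h | h
    · exact Or.inl ⟨i, hi1, hi2, h⟩
    · refine Or.inr ⟨i, (qs_eqOn hT i).symm _ _ hi1,
        fun h' => hi2 ((qs_eqOn hT (i + 1)).symm _ _ h'), ?_⟩
      rw [← hcv]
      exact h

end T

end P1346e8
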