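import Pool.Agent.Lib.P1346T.NPSm
import Pool.Agent.Lib.P1346T.OrdT

/-!
# MODULE NFm: the formulas for all nodes and for the order (about 1.8 h)

Let `u ≠ v` be separated at level `i`, `W = qs i u`.

STATEMENTS AND PROOFS.
`sepT_iff`: `SepT u v t` for `side t = side u`, `t ≠ u`: let `j` be the level that separates `u` and `t`
(`exists_sep`).  `PS u t` iff `typ (qs j u) ≠ ord`; then `NPS u t v` iff `qs j u v` and `CPS u t v` iff
`qs (j+1) u v`; so `SepT u v t` holds iff `side t = side u`, `t ≠ u` and `t` is separated from `u` at the level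
`i` (`j = i` by `sep_unique`) and `typ W ≠ ord`.  Existence: if `typ W ≠ ord` take the child `qs (i+1) v` and
in it an element `t` with `side t = side u` (`v` itself, or by `two_sided` an element on the other side
than `v`); `t` is not in `qs (i+1) u`.
`tf_iff`: from this and `par_iff`.
`nf_iff`: if `typ W ≠ ord`: the first alternative with `NPS u t = W` (`nps_iff`), for every `t` with `SepT`;
the second is impossible.  If `typ W = ord`: there is no `t` with `SepT u v t`, so `NF u v z` says: for all
`t` with `PS u t` and `CPS u t v` also `CPS u t z`.  For such `t`, with `j` the level that separates `u`, `t`: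
`qs (j+1) u v`, so `j + 1 ≤ i` and `z ∈ W` implies `qs (j+1) u z`.  Conversely let all these conditions hold
for `z`; if `i = 0` then `z ∈ W` trivially.  If `i = j + 1`: `W2 = qs j u` is the parent, `typ W2 ≠ ord` by
`typ_child_ne` (`W` contains `u ≠ v`), and there is an element of `W2 \ W` (`qs_split`) whose child has
elements of both sides (`two_sided`): take `t` in it with `side t = side u`; then `PS u t`, `CPS u t v` (as
`qs (j+1) u v`), so `CPS u t z`, i.e. `qs i u z`.
`ltF_iff`: if `u = v` both sides are false (`LtT` irreflexive: `ltT_lin`).  Otherwise with `i` as above,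
`NF u v = W` (`funext`), the rule is `typ W`, and `ltT_iff`; it remains that
`LtL ρ (both W) (nxt ρ (both W)) u v ↔ LtL ρ (qs i) (nxt ρ (qs i)) u v` for `u, v ∈ W`: all elements that
occur in the definitions of `MinLt`, `Bf` are in `W` (`nxt_both`, `qs i u w ↔ both W u w`).
-/

set_option autoImplicit false

namespace P1346e8

namespace T

open L

variable {Z : Type} [Finite Z] {side : Z → Bool} {M lt : Z → Z → Prop}

namespace NFmAux

set_option linter.unusedSectionVars false

theorem sepT_iff (hT : TotD side M) {i : ℕ} {u v : Z} (h : qs side M i u v)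
    (hn : ¬ qs side M (i + 1) u v) (t : Z) :
    SepT side M u v t ↔ side u = side t ∧ qs side M i u t ∧ ¬ qs side M (i + 1) u t ∧
      typ side M (qs side M i u) ≠ .ord := by
  constructor
  · rintro ⟨h1, h2, h3⟩
    obtain ⟨j, hj, hj'⟩ := exists_sep hT h1.2.1
    have ht := (ps_iff hT hj hj' h1.1).1 h1
    have h4 := (nps_iff hT hj hj' h1.1 ht v).1 h2
    have h5 : ¬ qs side M (j + 1) u v := fun h6 => h3 ((cps_iff hT hj hj' h1.1 ht v).2 h6)
    have hij : i = j := sep_unique hT h hn h4 h5
    subst hij
    exact ⟨h1.1, hj, hj', ht⟩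
  · rintro ⟨hs, h1, h2, ht⟩
    exact ⟨(ps_iff hT h1 h2 hs).2 ht, (nps_iff hT h1 h2 hs ht v).2 h,
      fun h3 => hn ((cps_iff hT h1 h2 hs ht v).1 h3)⟩

theorem ne_of_sep (hT : TotD side M) {i : ℕ} {u v : Z} (hn : ¬ qs side M (i + 1) u v) : u ≠ v := by
  rintro rfl
  exact hn ((qs_eqOn hT (i + 1)).refl u trivial)

theorem exists_sepT (hT : TotD side M) {i : ℕ} {u v : Z} (h : qs side M i u v)
    (hn : ¬ qs side M (i + 1) u v) (ht : typ side M (qs side M i u) ≠ .ord) :
    ∃ t, SepT side M u v t := by
  by_cases hs : side u = side v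
  · exact ⟨v, (sepT_iff hT h hn v).2 ⟨hs, h, hn, ht⟩⟩
  · have hne := ne_of_sep hT hn
    have hc := qs_class hT h
    have ht' : typ side M (qs side M i v) ≠ .ord := by rw [← hc]; exact ht
    obtain ⟨w, hw, hw', -⟩ := two_sided hT ht' ((qs_eqOn hT i).symm _ _ h) hne.symm
    have hE := qs_eqOn (side := side) (M := M) hT i
    have hE' := qs_eqOn (side := side) (M := M) hT (i + 1)
    refine ⟨w, (sepT_iff hT h hn w).2 ⟨?_, hE.trans _ _ _ h (qs_le hT (Nat.le_succ i) hw), ?_, ht⟩⟩
    · cases hu : side u <;> cases hv : side v <;> cases hw2 : side w <;> simp_all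
    · intro h1
      exact hn (hE'.trans _ _ _ h1 (hE'.symm _ _ hw))

end NFmAux

open NFmAux

theorem tf_iff (hT : TotD side M) {i : ℕ} {u v : Z} (h : qs side M i u v)
    (hn : ¬ qs side M (i + 1) u v) (ρ : Rule) :
    TF side M ρ u v ↔ typ side M (qs side M i u) = ρ := by
  cases ρ with
  | ord =>
    change (∀ t, ¬ SepT side M u v t) ↔ _
    constructor
    · intro h1
      by_contra ht
      obtain ⟨t, h2⟩ := exists_sepT hT h hn ht
      exact h1 t h2
    · intro ht t h1
      exact ((sepT_iff hT h hn t).1 h1).2.2.2 ht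
  | par =>
    change (∃ t, SepT side M u v t ∧ ¬ Pth side M .par (both (NPS side M u t)) 6 u t) ↔ _
    constructor
    · rintro ⟨t, h1, h2⟩
      obtain ⟨hs, h3, h4, ht⟩ := (sepT_iff hT h hn t).1 h1
      exact (par_iff hT h3 h4 hs ht).1 h2
    · intro ht
      have ht' : typ side M (qs side M i u) ≠ .ord := by rw [ht]; simp
      obtain ⟨t, h1⟩ := exists_sepT hT h hn ht'
      obtain ⟨hs, h3, h4, -⟩ := (sepT_iff hT h hn t).1 h1
      exact ⟨t, h1, (par_iff hT h3 h4 hs ht').2 ht⟩
  | ser =>
    change (∃ t, SepT side M u v t ∧ Pth side M .par (both (NPS side M u t)) 6 u t) ↔ _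
    constructor
    · rintro ⟨t, h1, h2⟩
      obtain ⟨hs, h3, h4, ht⟩ := (sepT_iff hT h hn t).1 h1
      have h5 : typ side M (qs side M i u) ≠ .par := fun h6 =>
        (par_iff hT h3 h4 hs ht).2 h6 h2
      cases h7 : typ side M (qs side M i u) with
      | ord => exact absurd h7 ht
      | par => exact absurd h7 h5
      | ser => rfl
    · intro ht
      have ht' : typ side M (qs side M i u) ≠ .ord := by rw [ht]; simp
      obtain ⟨t, h1⟩ := exists_sepT hT h hn ht'
      obtain ⟨hs, h3, h4, -⟩ := (sepT_iff hT h hn t).1 h1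
      refine ⟨t, h1, ?_⟩
      by_contra h5
      have h6 := (par_iff hT h3 h4 hs ht').1 h5
      rw [ht] at h6
      simp at h6

theorem nf_iff (hT : TotD side M) {i : ℕ} {u v : Z} (h : qs side M i u v)
    (hn : ¬ qs side M (i + 1) u v) (z : Z) : NF side M u v z ↔ qs side M i u z := by
  by_cases ht : typ side M (qs side M i u) = .ord
  · have hno : ∀ t, ¬ SepT side M u v t := fun t h1 => ((sepT_iff hT h hn t).1 h1).2.2.2 ht
    constructor
    · rintro (⟨t, h1, -⟩ | ⟨-, h1⟩)
      · exact absurd h1 (hno t)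
      · rcases i with _ | j
        · exact trivial
        · have hne := ne_of_sep hT hn
          have h2 := typ_child_ne hT h hne
          have htj : typ side M (qs side M j u) ≠ .ord := by
            intro h3
            exact h2 (ht.trans h3.symm)
          obtain ⟨w, hw, hw'⟩ := qs_split hT (qs_le hT (Nat.le_succ j) h) hne
          obtain ⟨t, h3⟩ := exists_sepT hT hw hw' htj
          obtain ⟨hs, h4, h5, -⟩ := (sepT_iff hT hw hw' t).1 h3
          exact (cps_iff hT h4 h5 hs htj z).1 (h1 t ((ps_iff hT h4 h5 hs).2 htj)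
            ((cps_iff hT h4 h5 hs htj v).2 h))
    · intro h1
      refine Or.inr ⟨hno, fun t h2 h3 => ?_⟩
      obtain ⟨j, hj, hj'⟩ := exists_sep hT h2.2.1
      have htj := (ps_iff hT hj hj' h2.1).1 h2
      have h4 := (cps_iff hT hj hj' h2.1 htj v).1 h3
      have h5 : j + 1 ≤ i := by
        by_contra h6
        exact hn (qs_le hT (show i + 1 ≤ j + 1 by omega) h4)
      exact (cps_iff hT hj hj' h2.1 htj z).2 (qs_le hT h5 h1)
  · constructor
    · rintro (⟨t, h1, h2⟩ | ⟨h1, -⟩)
      · obtain ⟨hs, h3, h4, -⟩ := (sepT_iff hT h hn t).1 h1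
        exact (nps_iff hT h3 h4 hs ht z).1 h2
      · obtain ⟨t, h2⟩ := exists_sepT hT h hn ht
        exact absurd h2 (h1 t)
    · intro h1
      obtain ⟨t, h2⟩ := exists_sepT hT h hn ht
      obtain ⟨hs, h3, h4, -⟩ := (sepT_iff hT h hn t).1 h2
      exact Or.inl ⟨t, h2, (nps_iff hT h3 h4 hs ht z).2 h1⟩

namespace NFmAux

set_option linter.unusedSectionVars false

theorem both_iff (hT : TotD side M) {i : ℕ} {u a : Z} (ha : qs side M i u a) (b : Z) :
    both (qs side M i u) a b ↔ qs side M i a b := by
  have hE := qs_eqOn (side := side) (M := M) hT i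
  constructor
  · rintro ⟨-, h2⟩
    exact hE.trans _ _ _ (hE.symm _ _ ha) h2
  · intro h
    exact ⟨ha, hE.trans _ _ _ ha h⟩

theorem min_iff (hT : TotD side M) {i : ℕ} {u v : Z} (h : qs side M i u v) (ρ : Rule) :
    MinLt lt (nxt side M ρ (both (qs side M i u))) u v ↔ MinLt lt (nxt side M ρ (qs side M i)) u v := by
  have hu : qs side M i u u := (qs_eqOn hT i).refl u trivial
  unfold MinLt
  simp only [← nxt_both hT hu ρ, ← nxt_both hT h ρ]

theorem bf_iff' (hT : TotD side M) {i : ℕ} {x u v : Z} (hu : qs side M i x u)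
    (hv : qs side M i x v) (ρ : Rule) :
    Bf side M (both (qs side M i x)) (nxt side M ρ (both (qs side M i x))) u v ↔
      Bf side M (qs side M i) (nxt side M ρ (qs side M i)) u v := by
  unfold Bf
  simp only [← nxt_both hT hu ρ, ← nxt_both hT hv ρ, both_iff hT hu]

theorem ltL_both (hT : TotD side M) {i : ℕ} {u v : Z} (h : qs side M i u v) (ρ : Rule) :
    LtL side M lt ρ (both (qs side M i u)) (nxt side M ρ (both (qs side M i u))) u v ↔
      LtL side M lt ρ (qs side M i) (nxt side M ρ (qs side M i)) u v := by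
  have hu : qs side M i u u := (qs_eqOn hT i).refl u trivial
  cases ρ with
  | par => exact min_iff hT h _
  | ser => exact min_iff hT h _
  | ord =>
    simp only [LtL]
    rw [bf_iff' hT hu h, bf_iff' hT h hu, min_iff hT h]

end NFmAux

theorem ltF_iff (hT : TotD side M) (hlt : StrictLin (fun _ => True) lt) (u v : Z) :
    LtF side M lt u v ↔ LtT side M lt u v := by
  by_cases hne : u = v
  · subst hne
    constructor
    · intro h
      exact absurd rfl h.1
    · intro h
      exact absurd h ((ltT_lin hT hlt).1 u trivial)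
  · obtain ⟨i, h, hn⟩ := exists_sep hT hne
    have hNF : NF side M u v = qs side M i u := funext fun z => propext (nf_iff hT h hn z)
    rw [ltT_iff hT h hn, ← ltL_both hT h]
    unfold LtF
    rw [hNF]
    constructor
    · rintro ⟨-, ρ, h1, h2⟩
      have h3 := (tf_iff hT h hn ρ).1 h1
      rw [h3]
      exact h2
    · intro h1
      exact ⟨hne, _, (tf_iff hT h hn _).2 rfl, h1⟩

end T

end P1346e8
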