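import Pool.Agent.Lib.P1346T.NodeF

/-!
# MODULE Out: no such pair outside the node (about 2.2 h)

`rl e` is `ser` if `e` is true and `par` if `e` is false: an arc of `rl e` is an entry different from `e`
(`D side M (rl e) u v ↔ side u ≠ side v ∧ (ed side M u v ↔ ¬ e)`).

STATEMENT. Let `W = qs i x` be a node with elements of both sides which is not strongly connected for
`rl e`.  Let `z`, `s` be outside `W`, on different sides, both see `W` with entry `e`, and let the entry of
`z`, `s` be `¬ e`.  Then it is not true that all `t` which see `W` with entry `¬ e` have entry `¬ e` with `z` and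
`s` (as far as they are on the other side).

PROOF. `W` is not everything, so `i > 0`; let `W1 = qs (i-1) x` be its parent.  `W` is strongly connected for
`typ W1` (`sc_child`), so `typ W1 ≠ rl e`.  Elements outside a node see it uniformly (`uniform`); note that
`W` has elements on both sides, so `z`, which sees `W` with entry `e`, sees every node containing `W` but not
`z` with entry `e`; the same for `s`.
Case `typ W1 = rl (¬ e)`: the elements of `W1 \ W` see `W` with entry `¬ e` (`sib_par`, `sib_ser`), so
`z, s ∉ W1`.  There is an element of `W1 \ W` (`qs_split`), and by `two_sided` its child has elements of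
both sides (and is disjoint from `W`); take `t` in it with `side t ≠ side z`.  By assumption the entry of
`t`, `z` is `¬ e`; but `z` sees `W1` with entry `e`.  Contradiction.
Case `typ W1 = ord`.  If `z, s ∈ W1`: let `z` be the row (the other case is symmetric).  `e` false: for a column
`w` of `W` and a row `w'` of `W`: `D .ord w z`, `D .ord s w'`, `D .ord z s`: with the paths inside `W`
(`sc_child`) from `w'` to `w` this is a cycle `z -> s -> w' ~> w -> z` inside `W1`, so `z` is in the class of
`w` (`nxt_iffS`), contradiction.  `e` true: `D .ord z w`, `D .ord w' s`, `D .ord s z`: the cycle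
`s -> z -> w ~> w' -> s`.  If `z ∈ W1`, `s ∉ W1`: `s` sees `W1` with entry `e`, so the entry of `s, z` is `e`:
contradiction; the same if `s ∈ W1`, `z ∉ W1`.  So `z, s ∉ W1`.  If some `t ∈ W1 \ W` sees `W` with entry `¬ e`:
`t` is on the other side than `z` or than `s`, and `z`, `s` see `W1` with entry `e`, but the entry should be
`¬ e`: contradiction.  So all `t ∈ W1 \ W` see `W` with entry `e` (they see it uniformly).  As `z ∉ W1`,
`i - 1 > 0`; let `W2 = qs (i-2) x`.  `W1` is strongly connected for `typ W2`, but not for `ord = typ W1`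
(`not_SC_typ`), so `typ W2 ≠ ord`.  If `typ W2 = rl e`: `W1` is strongly connected for `rl e`; take a path
from an element of `W1 \ W` (`qs_split`) to `W`: it has an arc from `W1 \ W` to `W`, i.e. an entry different
from `e`: contradiction.  So `typ W2 = rl (¬ e)`, and the elements of `W2 \ W1` see `W1` with entry `¬ e`; so
`z ∉ W2`, and as in the first case (`two_sided`, `W2` in place of `W1`) there is `t ∈ W2 \ W1` with
`side t ≠ side z` which sees `W` with entry `¬ e`, so its entry with `z` is `¬ e`, but `z` sees `W2` with
entry `e`: contradiction.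
-/

set_option autoImplicit false

namespace P1346e8

namespace T

open L

variable {Z : Type} {side : Z → Bool} {M : Z → Z → Prop}

theorem D_rl (e : Prop) (u v : Z) :
    D side M (rl e) u v ↔ side u ≠ side v ∧ (ed side M u v ↔ ¬ e) := by
  by_cases he : e
  · simp [rl, he, D]
  · simp [rl, he, D]

namespace OutAux

theorem rl_cases (ρ : Rule) (e : Prop) : ρ = .ord ∨ ρ = rl e ∨ ρ = rl (¬ e) := by
  by_cases he : e <;> cases ρ <;> simp [rl, he]

theorem sib_rl (hT : TotD side M) {i : ℕ} {u v : Z} {c : Prop}
    (ht : typ side M (qs side M i u) = rl c)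
    (h : qs side M i u v) (hn : ¬ qs side M (i + 1) u v) (hs : side u ≠ side v) :
    ed side M u v ↔ c := by
  by_cases hc : c
  · have h1 : typ side M (qs side M i u) = .ser := by rw [ht]; simp [rl, hc]
    exact ⟨fun _ => hc, fun _ => sib_ser hT h1 h hn hs⟩
  · have h1 : typ side M (qs side M i u) = .par := by rw [ht]; simp [rl, hc]
    exact ⟨fun h2 => absurd h2 (sib_par hT h1 h hn hs), fun h2 => absurd h2 hc⟩

theorem iff_not_self' {p e : Prop} (h1 : p ↔ e) (h2 : p ↔ ¬ e) : False := by
  by_cases he : e
  · exact (h2.1 (h1.2 he)) he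
  · exact he (h1.1 (h2.2 he))

/-- an element of the node on the other side than `z` -/
theorem other {W : Z → Prop} (h2 : ∃ a b, W a ∧ W b ∧ side a ≠ side b) (z : Z) :
    ∃ w, W w ∧ side w ≠ side z := by
  obtain ⟨a, b, ha, hb, hab⟩ := h2
  by_cases h : side a = side z
  · exact ⟨b, hb, fun h' => hab (h.trans h'.symm)⟩
  · exact ⟨a, ha, h⟩

theorem see_up (hT : TotD side M) {i j : ℕ} (hj : j ≤ i) {x z : Z} {e : Prop}
    (h2 : ∃ a b, qs side M i x a ∧ qs side M i x b ∧ side a ≠ side b)
    (hz : ¬ qs side M j x z) (sz : See side M e (qs side M i x) z) :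
    See side M e (qs side M j x) z := by
  intro a ha hsa
  obtain ⟨w, hw, hsw⟩ := other h2 z
  rw [uniform hT hz ha (qs_le hT hj hw) hsa hsw]
  exact sz w hw hsw

theorem contraA (hT : TotD side M) {i j : ℕ} {x z : Z} {e : Prop} (hj : j + 1 ≤ i)
    (h2 : ∃ a b, qs side M i x a ∧ qs side M i x b ∧ side a ≠ side b)
    (hz : ¬ qs side M (j + 1) x z) (sz : See side M e (qs side M i x) z)
    (hw : ∀ t, See side M (¬ e) (qs side M i x) t → side t ≠ side z → (ed side M t z ↔ ¬ e))
    (ht : typ side M (qs side M j x) = rl (¬ e)) : False := by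
  have hE := qs_eqOn hT j
  have hE1 := qs_eqOn hT (j + 1)
  -- elements of `qs j x` outside `qs (j+1) x` see `W` with entry `¬ e`
  have key : ∀ t, qs side M j x t → ¬ qs side M (j + 1) x t →
      See side M (¬ e) (qs side M i x) t := by
    intro t h1 h3 a ha hsa
    have ha1 : qs side M (j + 1) x a := qs_le hT hj ha
    have hta : qs side M j t a := hE.trans _ _ _ (hE.symm _ _ h1) (qs_le hT (Nat.le_succ j) ha1)
    have hnta : ¬ qs side M (j + 1) t a := fun h4 =>
      h3 (hE1.trans _ _ _ ha1 (hE1.symm _ _ h4))
    exact sib_rl hT (by rw [← qs_class hT h1]; exact ht) hta hnta hsa.symm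
  have hzj : ¬ qs side M j x z := by
    intro h1
    obtain ⟨w, hw1, hw2⟩ := other h2 z
    exact iff_not_self' (sz w hw1 hw2) (key z h1 hz w hw1 hw2)
  obtain ⟨v, hv, hvx⟩ : ∃ v, qs side M j x v ∧ x ≠ v := by
    obtain ⟨a, b, ha, hb, hab⟩ := h2
    by_cases h : x = a
    · refine ⟨b, qs_le hT (by omega) hb, ?_⟩
      rintro rfl
      exact hab (by rw [h])
    · exact ⟨a, qs_le hT (by omega) ha, h⟩
  obtain ⟨w0, hw0, hw0'⟩ := qs_split hT hv hvx
  have hx0 : w0 ≠ x := by
    rintro rfl
    exact hw0' (hE1.refl _ trivial)
  have ht0 : typ side M (qs side M j w0) ≠ .ord := by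
    rw [← qs_class hT hw0, ht]
    by_cases he : e <;> simp [rl, he]
  obtain ⟨w, hw1, hw2, _⟩ := two_sided hT ht0 (hE.symm _ _ hw0) hx0
  have hfin : ∀ t, qs side M (j + 1) w0 t → side t ≠ side z → False := by
    intro t h1 hs
    have h3 : qs side M j x t := hE.trans _ _ _ hw0 (qs_le hT (Nat.le_succ j) h1)
    have h4 : ¬ qs side M (j + 1) x t := fun h5 => hw0' (hE1.trans _ _ _ h5 (hE1.symm _ _ h1))
    have h5 := hw t (key t h3 h4) hs
    have h6 := see_up hT (by omega) h2 hzj sz t h3 hs
    rw [ed_symm hs] at h5
    exact iff_not_self' h6 h5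
  by_cases h : side w0 = side z
  · exact hfin w hw1 (fun h' => hw2 (h.trans h'.symm))
  · exact hfin w0 (hE1.refl _ trivial) h

theorem path_cross {ρ : Rule} {W1 W : Z → Prop} (n : ℕ) {v x : Z}
    (h : Pth side M ρ (both W1) n v x) (hv : ¬ W v) (hx : W x) :
    ∃ p q, W1 p ∧ ¬ W p ∧ W q ∧ D side M ρ p q := by
  induction n generalizing x with
  | zero =>
    obtain ⟨_, rfl⟩ := h
    exact absurd hx hv
  | succ n ih =>
    rcases h with h | ⟨w, h1, h3, h4⟩
    · exact ih h hx
    · by_cases hw : W w
      · exact ih h1 hw
      · exact ⟨w, x, h3.1, hw, hx, h4⟩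

end OutAux

open OutAux LvlSAux in
theorem out (hT : TotD side M) {i : ℕ} {x : Z} (e : Prop)
    (hns : ¬ SC side M (rl e) (qs side M i x))
    (h2 : ∃ a b, qs side M i x a ∧ qs side M i x b ∧ side a ≠ side b) {z s : Z}
    (hz : ¬ qs side M i x z) (hs : ¬ qs side M i x s) (hzs : side s ≠ side z)
    (sz : See side M e (qs side M i x) z) (ss : See side M e (qs side M i x) s)
    (hed : ed side M z s ↔ ¬ e)
    (hw : ∀ t, See side M (¬ e) (qs side M i x) t → (side t ≠ side z → (ed side M t z ↔ ¬ e)) ∧
      (side t ≠ side s → (ed side M t s ↔ ¬ e))) : False := by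
  obtain _ | j := i
  · exact hz trivial
  have hwz : ∀ t, See side M (¬ e) (qs side M (j + 1) x) t → side t ≠ side z →
      (ed side M t z ↔ ¬ e) := fun t ht => (hw t ht).1
  have hE := qs_eqOn hT j
  have hE1 := qs_eqOn hT (j + 1)
  have hsc := sc_child hT j x
  rcases rl_cases (typ side M (qs side M j x)) e with ht | ht | ht
  rotate_left
  · rw [ht] at hsc
    exact hns hsc
  · exact contraA hT le_rfl h2 hz sz hwz ht
  have hed' : ed side M s z ↔ ¬ e := by rw [ed_symm hzs]; exact hed
  by_cases hzj : qs side M j x z
  · by_cases hsj : qs side M j x s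
    · -- both in the parent: a cycle
      obtain ⟨w, hw1, hw2⟩ := other h2 z
      obtain ⟨w', hw1', hw2'⟩ := other h2 s
      have hwj : qs side M j x w := qs_le hT (Nat.le_succ j) hw1
      have hwj' : qs side M j x w' := qs_le hT (Nat.le_succ j) hw1'
      have hq : ∀ a b, qs side M j x a → qs side M j x b → qs side M j a b := fun a b ha hb =>
        hE.trans _ _ _ (hE.symm _ _ ha) hb
      have hnx : ∀ a b, nxt side M .ord (qs side M j) a b ↔
          R side M (qs side M j) a b ∧ R side M (qs side M j) b a :=
        fun a b => nxt_iffS hE hT .ord a b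
      have hmem : ∀ a, qs side M (j + 1) x a ↔ nxt side M .ord (qs side M j) x a := by
        intro a
        change nxt side M (typ side M (qs side M j x)) (qs side M j) x a ↔ _
        rw [ht]
      have hRw : R side M (qs side M j) x w ∧ R side M (qs side M j) w x :=
        (hnx _ _).1 ((hmem w).1 hw1)
      have hRw' : R side M (qs side M j) x w' ∧ R side M (qs side M j) w' x :=
        (hnx _ _).1 ((hmem w').1 hw1')
      have hzw : ed side M z w ↔ e := sz w hw1 hw2
      have hsw : ed side M s w' ↔ e := ss w' hw1' hw2'
      by_cases hP : (e ↔ side z = true)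
      · -- s -> z -> w ~> w' -> s
        have d1 : D side M .ord z w := ⟨hw2.symm, hzw.trans hP⟩
        have d2 : D side M .ord w' s := by
          refine (D_or hw2').resolve_right fun h => ?_
          have h3 := h.2
          rw [hsw, hP] at h3
          cases hsz : side z <;> cases hss : side s <;> simp_all
        have d3 : D side M .ord s z := by
          refine ⟨hzs, hed'.trans ?_⟩
          rw [hP]
          cases hsz : side z <;> cases hss : side s <;> simp_all
        have r1 : R side M (qs side M j) z w := R_arc hE (hq _ _ hzj hwj) d1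
        have r2 : R side M (qs side M j) w' s := R_arc hE (hq _ _ hwj' hsj) d2
        have r3 : R side M (qs side M j) s z := R_arc hE (hq _ _ hsj hzj) d3
        apply hz
        rw [hmem, hnx]
        exact ⟨R_trans hE hRw'.1 (R_trans hE r2 r3), R_trans hE r1 hRw.2⟩
      · have d1 : D side M .ord w z := by
          refine (D_or hw2).resolve_right fun h => ?_
          have h3 := h.2
          rw [hzw] at h3
          exact hP h3
        have d2 : D side M .ord s w' := by
          refine ⟨hw2'.symm, hsw.trans ?_⟩
          cases hsz : side z <;> cases hss : side s <;> simp_all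
        have d3 : D side M .ord z s := by
          refine ⟨hzs.symm, hed.trans ?_⟩
          cases hsz : side z <;> simp_all
        have r1 : R side M (qs side M j) w z := R_arc hE (hq _ _ hwj hzj) d1
        have r2 : R side M (qs side M j) s w' := R_arc hE (hq _ _ hsj hwj') d2
        have r3 : R side M (qs side M j) z s := R_arc hE (hq _ _ hzj hsj) d3
        apply hz
        rw [hmem, hnx]
        exact ⟨R_trans hE hRw.1 r1, R_trans hE r3 (R_trans hE r2 hRw'.2)⟩
    · -- z in the parent, s not
      exact iff_not_self' (see_up hT (Nat.le_succ j) h2 hsj ss z hzj hzs.symm) hed'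
  · by_cases hsj : qs side M j x s
    · exact iff_not_self' (see_up hT (Nat.le_succ j) h2 hzj sz s hsj hzs) hed
    · have uz := see_up hT (Nat.le_succ j) h2 hzj sz
      have us := see_up hT (Nat.le_succ j) h2 hsj ss
      have hall : ∀ t, qs side M j x t → ¬ qs side M (j + 1) x t →
          ∀ a, qs side M (j + 1) x a → side a ≠ side t → (ed side M t a ↔ e) := by
        intro t ht1 ht2 a ha hsa
        by_contra hne
        have h3 : ed side M t a ↔ ¬ e := by tauto
        have hsee : See side M (¬ e) (qs side M (j + 1) x) t := fun b hb hsb =>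
          (uniform hT ht2 hb ha hsb hsa).trans h3
        by_cases hst : side t = side z
        · have hst' : side t ≠ side s := fun h => hzs (h.symm.trans hst)
          have h4 := (hw t hsee).2 hst'
          rw [ed_symm hst'] at h4
          exact iff_not_self' (us t ht1 hst') h4
        · have h4 := (hw t hsee).1 hst
          rw [ed_symm hst] at h4
          exact iff_not_self' (uz t ht1 hst) h4
      obtain _ | l := j
      · exact hzj trivial
      obtain ⟨v, hv, hvx⟩ : ∃ v, qs side M (l + 1) x v ∧ x ≠ v := by
        obtain ⟨a, b, ha, hb, hab⟩ := h2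
        by_cases h : x = a
        · refine ⟨b, qs_le hT (by omega) hb, ?_⟩
          rintro rfl
          exact hab (by rw [h])
        · exact ⟨a, qs_le hT (by omega) ha, h⟩
      obtain ⟨w0, hw0, hw0'⟩ := qs_split hT hv hvx
      have hsc2 := sc_child hT l x
      rcases rl_cases (typ side M (qs side M l x)) e with ht2 | ht2 | ht2
      · rw [ht2] at hsc2
        have h3 := not_SC_typ hT (qs side M (l + 1) x) ⟨x, v, hE.refl _ trivial, hv, hvx⟩
        rw [ht] at h3
        exact h3 hsc2
      · rw [ht2] at hsc2
        obtain ⟨p, q, hp1, hp2, hq1, hD⟩ := path_cross (W := qs side M (l + 1 + 1) x) 6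
          (hsc2 w0 x hw0 (hE.refl _ trivial)) hw0' (hE1.refl _ trivial)
        rw [D_rl] at hD
        exact iff_not_self' (hall p hp1 hp2 q hq1 hD.1.symm) hD.2
      · exact contraA hT (by omega) h2 hzj sz hwz ht2

end T

end P1346e8
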