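import Pool.Agent.Lib.P1346T.CloA
import Pool.Agent.Lib.P1346T.Out

/-!
# The formula for the nodes with rule `par` or `ser`
-/

set_option autoImplicit false

namespace P1346e8

namespace T

open L

variable {Z : Type} {side : Z → Bool} {M : Z → Z → Prop}

namespace NPSmAux

theorem qrefl (hT : TotD side M) (i : ℕ) (u : Z) : qs side M i u u :=
  (qs_eqOn hT i).refl u trivial

theorem qsymm (hT : TotD side M) {i : ℕ} {u v : Z} (h : qs side M i u v) : qs side M i v u :=
  (qs_eqOn hT i).symm _ _ h

theorem qtrans (hT : TotD side M) {i : ℕ} {u v w : Z} (h : qs side M i u v)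
    (h' : qs side M i v w) : qs side M i u w :=
  (qs_eqOn hT i).trans _ _ _ h h'

theorem rl_true {c : Prop} (h : c) : rl c = .ser := by
  unfold rl
  rw [if_pos h]

theorem rl_false {c : Prop} (h : ¬ c) : rl c = .par := by
  unfold rl
  rw [if_neg h]

theorem rl_ne (c : Prop) : rl c ≠ .ord := by
  by_cases h : c
  · rw [rl_true h]
    exact Rule.noConfusion
  · rw [rl_false h]
    exact Rule.noConfusion

theorem sib (hT : TotD side M) {i : ℕ} {x a b : Z} {c : Prop}
    (hc : typ side M (qs side M i x) = rl c) (ha : qs side M i x a) (hb : qs side M i x b)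
    (hn : ¬ qs side M (i + 1) a b) (hs : side a ≠ side b) : ed side M a b ↔ c := by
  have e : qs side M i x = qs side M i a := qs_class hT ha
  have hab : qs side M i a b := qtrans hT (qsymm hT ha) hb
  rw [e] at hc
  by_cases hcc : c
  · rw [rl_true hcc] at hc
    exact iff_of_true (sib_ser hT hc hab hn hs) hcc
  · rw [rl_false hcc] at hc
    exact iff_of_false (sib_par hT hc hab hn hs) hcc

theorem two (hT : TotD side M) {i : ℕ} {x u v : Z} {c : Prop}
    (hc : typ side M (qs side M i x) = rl c) (hu : qs side M i x u) (hv : qs side M i x v)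
    (hne : u ≠ v) :
    ∃ w, qs side M (i + 1) u w ∧ side u ≠ side w ∧ (ed side M u w ↔ ¬ c) := by
  have e : qs side M i x = qs side M i u := qs_class hT hu
  rw [e] at hc
  obtain ⟨w, h1, h2, h3⟩ := two_sided hT (by rw [hc]; exact rl_ne c)
    (qtrans hT (qsymm hT hu) hv) hne
  rw [hc, D_rl] at h3
  exact ⟨w, h1, h2, h3.2⟩

theorem bothside (hT : TotD side M) {i : ℕ} {x u v : Z} {c : Prop}
    (hc : typ side M (qs side M i x) = rl c) (hu : qs side M i x u) (hv : qs side M i x v)
    (hne : u ≠ v) (b : Bool) : ∃ w, qs side M (i + 1) u w ∧ side w ≠ b := by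
  obtain ⟨w, h1, h2, _⟩ := two hT hc hu hv hne
  by_cases hb : side u = b
  · exact ⟨w, h1, fun h => h2 (hb.trans h.symm)⟩
  · exact ⟨u, qrefl hT _ u, hb⟩

/-- the two children -/
def AA (side : Z → Bool) (M : Z → Z → Prop) (i : ℕ) (x x' a : Z) : Prop :=
  qs side M (i + 1) x a ∨ qs side M (i + 1) x' a

section

variable (hT : TotD side M) {i : ℕ} {x x' : Z} {c : Prop} (h : qs side M i x x')
  (hn : ¬ qs side M (i + 1) x x') (hc : typ side M (qs side M i x) = rl c)

include hT hn in
theorem ne' : x ≠ x' := by
  rintro rfl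
  exact hn (qrefl hT _ x)

include hT h in
theorem A_sub {a : Z} (ha : AA side M i x x' a) : qs side M i x a := by
  rcases ha with ha | ha
  · exact qs_le hT (Nat.le_succ i) ha
  · exact qtrans hT h (qs_le hT (Nat.le_succ i) ha)

include hT h hn hc in
theorem other {t : Z} (ht : qs side M i x t) :
    ∃ a, AA side M i x x' a ∧ ¬ qs side M (i + 1) t a ∧ side a ≠ side t := by
  have hne := ne' hT hn
  by_cases ht1 : qs side M (i + 1) x t
  · obtain ⟨a, ha1, ha2⟩ := bothside hT hc h (qrefl hT i x) hne.symm (side t)
    refine ⟨a, Or.inr ha1, fun hta => hn ?_, ha2⟩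
    exact qtrans hT (qtrans hT ht1 hta) (qsymm hT ha1)
  · obtain ⟨a, ha1, ha2⟩ := bothside hT hc (qrefl hT i x) h hne (side t)
    refine ⟨a, Or.inl ha1, fun hta => ht1 ?_, ha2⟩
    exact qtrans hT ha1 (qsymm hT hta)

include hT h hn hc in
theorem not_see {t : Z} (ht : qs side M i x t) : ¬ See side M (¬ c) (AA side M i x x') t := by
  intro hsee
  obtain ⟨a, ha, hta, hs⟩ := other hT h hn hc ht
  have h1 := hsee a ha hs
  have h2 := sib hT hc ht (A_sub hT h ha) hta hs.symm
  rw [h2] at h1
  exact (not_iff_self h1.symm).elim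

include hT h hn hc in
theorem unif_see {z : Z} (hz : ¬ qs side M i x z) {e : Prop}
    (hsee : See side M e (AA side M i x x') z) : See side M e (qs side M i x) z := by
  intro b hb hs
  obtain ⟨a, ha1, ha2⟩ := bothside hT hc (qrefl hT i x) h (ne' hT hn) (side z)
  have h1 := hsee a (Or.inl ha1) ha2
  rw [← h1]
  exact uniform hT hz hb (qs_le hT (Nat.le_succ i) ha1) hs ha2

include hT h in
theorem third_see (hc : typ side M (qs side M i x) = rl c) {z : Z} (hz : qs side M i x z)
    (hzA : ¬ AA side M i x x' z) : See side M c (AA side M i x x') z := by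
  intro a ha hs
  refine sib hT hc hz (A_sub hT h ha) (fun hza => hzA ?_) hs.symm
  rcases ha with ha | ha
  · exact Or.inl (qtrans hT ha (qsymm hT hza))
  · exact Or.inr (qtrans hT ha (qsymm hT hza))

include hT h hn hc in
theorem path_in : ∀ (n : ℕ) (b : Z), Pth side M (rl c) (both (qs side M i x)) n x b →
    qs side M (i + 1) x b
  | 0, b, hp => by
    obtain ⟨_, rfl⟩ := hp
    exact qrefl hT _ x
  | n + 1, b, hp => by
    rcases hp with hp | ⟨w, h1, h2, h3⟩
    · exact path_in n b hp
    · have hw := path_in n w h1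
      by_contra hb
      rw [D_rl] at h3
      have h4 := sib hT hc h2.1 h2.2 (fun hwb => hb (qtrans hT hw hwb)) h3.1
      rw [h3.2] at h4
      exact (not_iff_self h4).elim

include hT h hn hc in
theorem core1 : ¬ Pth side M (rl c) (both (AA side M i x x')) 6 x x' := by
  intro hp
  refine hn (path_in hT h hn hc 6 x' ?_)
  exact L.RefineAux.pth_imp (fun a b hab => ⟨A_sub hT h hab.1, A_sub hT h hab.2⟩) 6 x x' hp

include hT h hn hc in
theorem core2 {z : Z} (hz : qs side M i x z) (hzA : ¬ AA side M i x x' z) :
    Wc side M c (AA side M i x x') z := by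
  refine ⟨third_see hT h hc hz hzA, ?_⟩
  have hzx : z ≠ x := by
    rintro rfl
    exact hzA (Or.inl (qrefl hT _ _))
  obtain ⟨s, hs1, hs2, hs3⟩ := two hT hc hz (qrefl hT i x) hzx
  have hsW : qs side M i x s := qtrans hT hz (qs_le hT (Nat.le_succ i) hs1)
  have hsA : ¬ AA side M i x x' s := by
    rintro (hs | hs)
    · exact hzA (Or.inl (qtrans hT hs (qsymm hT hs1)))
    · exact hzA (Or.inr (qtrans hT hs (qsymm hT hs1)))
  refine ⟨s, hs2.symm, third_see hT h hc hsW hsA, hs3, fun t ht => ?_⟩
  have htW : ¬ qs side M i x t := fun htW => not_see hT h hn hc htW ht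
  have hsee := unif_see hT h hn hc htW ht
  exact ⟨fun h1 => hsee z hz h1.symm, fun h1 => hsee s hsW h1.symm⟩

include hT h hn hc in
theorem not_sc : ¬ SC side M (rl c) (qs side M i x) := by
  rw [← hc]
  exact not_SC_typ hT _ ⟨x, x', qrefl hT i x, h, ne' hT hn⟩

include hT h hn hc in
theorem two_sides : ∃ a b, qs side M i x a ∧ qs side M i x b ∧ side a ≠ side b := by
  obtain ⟨w, h1, h2, _⟩ := two hT hc (qrefl hT i x) h (ne' hT hn)
  exact ⟨x, w, qrefl hT i x, qs_le hT (Nat.le_succ i) h1, h2⟩

include hT h hn hc in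
theorem core3 {z : Z} (hz : Wc side M c (AA side M i x x') z) : qs side M i x z := by
  by_contra hzW
  obtain ⟨hsz, s, hs1, hs2, hs3, hs4⟩ := hz
  have hzs := unif_see hT h hn hc hzW hsz
  have hsW : ¬ qs side M i x s := by
    intro hsW
    have := hzs s hsW hs1
    rw [hs3] at this
    exact (not_iff_self this).elim
  exact out hT c (not_sc hT h hn hc) (two_sides hT h hn hc) hzW hsW hs1 hzs
    (unif_see hT h hn hc hsW hs2) hs3
    (fun t ht => hs4 t (fun a ha hs => ht a (A_sub hT h ha) hs))

include hT h hn hc in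
theorem core4 {z : Z} (hp : ¬ Pth side M (rl (¬ c)) (both (AA side M i x x')) 6 x x')
    (hz : Wc side M (¬ c) (AA side M i x x') z) : AA side M i x x' z := by
  by_contra hzA
  obtain ⟨hsz, s, hs1, hs2, hs3, hs4⟩ := hz
  have hzW : ¬ qs side M i x z := fun hzW => not_see hT h hn hc hzW hsz
  have hsW : ¬ qs side M i x s := fun hsW => not_see hT h hn hc hsW hs2
  have hzs := unif_see hT h hn hc hzW hsz
  have hWA : ∀ t, qs side M i x t → AA side M i x x' t := by
    intro t0 ht0
    by_contra ht0A
    have ht0x : t0 ≠ x := by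
      rintro rfl
      exact ht0A (Or.inl (qrefl hT _ _))
    obtain ⟨t, ht1, ht2⟩ := bothside hT hc ht0 (qrefl hT i x) ht0x (side z)
    have htW : qs side M i x t := qtrans hT ht0 (qs_le hT (Nat.le_succ i) ht1)
    have htA : ¬ AA side M i x x' t := by
      rintro (hs | hs)
      · exact ht0A (Or.inl (qtrans hT hs (qsymm hT ht1)))
      · exact ht0A (Or.inr (qtrans hT hs (qsymm hT ht1)))
    have hsee := third_see hT h hc htW htA
    have h1 := (hs4 t (fun a ha hs => by rw [hsee a ha hs, not_not])).1 ht2
    have h2 := hzs t htW ht2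
    rw [ed_symm ht2, h2] at h1
    exact (not_iff_self h1.symm).elim
  have hAW : AA side M i x x' = qs side M i x := by
    funext t
    exact propext ⟨fun ht => A_sub hT h ht, hWA t⟩
  rw [hAW] at hp hs2 hs4
  refine out hT (¬ c) (fun hsc => hp (hsc x x' (qrefl hT i x) h)) (two_sides hT h hn hc) hzW hsW
    hs1 hzs hs2 hs3 hs4

end

theorem clo_fun (hT : TotD side M) {i : ℕ} {x x' : Z} (h : qs side M i x x')
    (hn : ¬ qs side M (i + 1) x x') (hs : side x = side x')
    (ht : typ side M (qs side M i x) ≠ .ord) :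
    Clo side M 6 x x' = AA side M i x x' := by
  funext z
  exact propext (clo_eq hT h hn hs ht z)

theorem exists_c (hT : TotD side M) {i : ℕ} {x : Z} (ht : typ side M (qs side M i x) ≠ .ord) :
    typ side M (qs side M i x) = .par ∨ typ side M (qs side M i x) = .ser := by
  cases hh : typ side M (qs side M i x) with
  | par => exact Or.inl rfl
  | ser => exact Or.inr rfl
  | ord => exact absurd hh ht

end NPSmAux

open NPSmAux

theorem nps_iff (hT : TotD side M) {i : ℕ} {x x' : Z} (h : qs side M i x x')
    (hn : ¬ qs side M (i + 1) x x') (hs : side x = side x')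
    (ht : typ side M (qs side M i x) ≠ .ord) (z : Z) :
    NPS side M x x' z ↔ qs side M i x z := by
  unfold NPS
  rw [clo_fun hT h hn hs ht]
  rcases exists_c hT ht with hp | hp
  · have hc : typ side M (qs side M i x) = rl False := by
      rw [hp, rl_false not_false]
    have h1 := core1 hT h hn hc
    rw [rl_false not_false] at h1
    constructor
    · rintro (h2 | ⟨_, h2⟩ | ⟨h3, h2⟩)
      · exact A_sub hT h h2
      · exact core3 hT h hn hc h2
      · have h4 := core4 (z := z) hT h hn hc
        rw [rl_true not_false, not_false_eq_true] at h4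
        exact A_sub hT h (h4 h3 h2)
    · intro hz
      by_cases hzA : AA side M i x x' z
      · exact Or.inl hzA
      · exact Or.inr (Or.inl ⟨h1, core2 hT h hn hc hz hzA⟩)
  · have hc : typ side M (qs side M i x) = rl True := by
      rw [hp, rl_true trivial]
    have h1 := core1 hT h hn hc
    rw [rl_true trivial] at h1
    constructor
    · rintro (h2 | ⟨h3, h2⟩ | ⟨_, h2⟩)
      · exact A_sub hT h h2
      · have h4 := core4 (z := z) hT h hn hc
        rw [rl_false (not_not.2 trivial), not_true_eq_false] at h4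
        exact A_sub hT h (h4 h3 h2)
      · exact core3 hT h hn hc h2
    · intro hz
      by_cases hzA : AA side M i x x' z
      · exact Or.inl hzA
      · exact Or.inr (Or.inr ⟨h1, core2 hT h hn hc hz hzA⟩)

theorem par_iff (hT : TotD side M) {i : ℕ} {x x' : Z} (h : qs side M i x x')
    (hn : ¬ qs side M (i + 1) x x') (hs : side x = side x')
    (ht : typ side M (qs side M i x) ≠ .ord) :
    ¬ Pth side M .par (both (NPS side M x x')) 6 x x' ↔ typ side M (qs side M i x) = .par := by
  have hN : NPS side M x x' = qs side M i x := by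
    funext z
    exact propext (nps_iff hT h hn hs ht z)
  rw [hN]
  constructor
  · intro hp
    rcases exists_c hT ht with h1 | h1
    · exact h1
    · exfalso
      have h2 : SC side M .par (qs side M i x) := by
        by_contra hc
        unfold typ at h1
        split_ifs at h1
      exact hp (h2 x x' (qrefl hT i x) h)
  · intro h1 hp
    have hc : typ side M (qs side M i x) = rl False := by
      rw [h1, rl_false not_false]
    refine hn (path_in hT h hn hc 6 x' ?_)
    rw [rl_false not_false]
    exact hp

theorem cps_iff (hT : TotD side M) {i : ℕ} {x x' : Z} (h : qs side M i x x')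
    (hn : ¬ qs side M (i + 1) x x') (hs : side x = side x')
    (ht : typ side M (qs side M i x) ≠ .ord) (z : Z) :
    CPS side M x x' z ↔ qs side M (i + 1) x z := by
  have hN : NPS side M x x' = qs side M i x := by
    funext z
    exact propext (nps_iff hT h hn hs ht z)
  have hpar := par_iff hT h hn hs ht
  unfold CPS
  rw [hN] at hpar ⊢
  rw [← nxt_both hT (qrefl hT i x) .par, ← nxt_both hT (qrefl hT i x) .ser]
  have hq : qs side M (i + 1) x z ↔
      nxt side M (typ side M (qs side M i x)) (qs side M i) x z := Iff.rfl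
  rw [hq]
  rcases exists_c hT ht with h1 | h1
  · have h2 := hpar.2 h1
    rw [h1]
    constructor
    · rintro (⟨_, h3⟩ | ⟨h3, _⟩)
      · exact h3
      · exact absurd h3 h2
    · intro h3
      exact Or.inl ⟨h2, h3⟩
  · have h2 : Pth side M .par (both (qs side M i x)) 6 x x' := by
      by_contra hc
      have := hpar.1 hc
      rw [h1] at this
      exact Rule.noConfusion this
    rw [h1]
    constructor
    · rintro (⟨h3, _⟩ | ⟨_, h3⟩)
      · exact absurd h2 h3
      · exact h3
    · intro h3
      exact Or.inr ⟨h2, h3⟩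

end T

end P1346e8
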