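import Pool.Agent.Lib.P1346T.NodeQ

/-!
# MODULE NodeF: facts about the nodes of the canonical tree (about 2 h)

Nodes are the classes `qs i u`; the children of `W = qs i u` are the classes `qs (i+1) a`, `a ∈ W`.

STATEMENTS AND PROOFS.
`sc_child`: the child `W' = qs (i+1) u` is strongly connected for the rule `ρ = typ (qs i u)`: any two
elements `a, b` of `W'` are joined by paths inside `W = qs i u` in both directions, all vertices of these
paths are in `W'` (as in `L.RefineAux.inside`, `L.RefineAux.KK`), so there are paths inside `W'`, and if `W'`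
has elements of both sides then `hT` gives `Sep side M W'` and `reach_short ρ` gives length 6; if `W'` is
one-sided there are no arcs and `a = b`.
`typ_child_ne`: `SC ρ W'` and `not_SC_typ` for `W'`.
`sib_par`, `sib_ser`: if the entry of `u`, `v` in `W` were true (for `par`; false for `ser`) then there would be
paths of length 1 in both directions (`D .par` is symmetric by `ed_symm`), so `qs (i+1) u v`; or use
`entry_par`, `entry_ser` of `LvlS`.
`uniform`: an element `z` outside the node `qs i u` has the same entry with all elements of the node on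
the other side.  Induction on `i`; `i = 0`: no `z`.  Step: if `z` is not in `qs i u` use the induction
hypothesis (`qs_le`).  If `z ∈ W = qs i u`, `z ∉ qs (i+1) u`: rule `par`, `ser`: `sib_par`, `sib_ser`.  Rule
`ord`: suppose `ed z a` and `¬ ed z b`, `a, b ∈ W'`.  If `z` is a row: `D .ord z a` and `D .ord b z`; if `z` is a
column: `D .ord a z` (`ed a z` iff `ed z a`, and `a` is a row) and `D .ord z b`.  With the paths between `a` and
`b` inside `W` (both directions, since they are in the same class) there are paths from `z` to `a` and back,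
so `qs (i+1) z a` (`nxt_iffS`), a contradiction.
`two_sided`: let `typ W ≠ ord`, so `SC ord W` (definition of `typ`), and let `W = qs i u` contain another
element; then `u` has an arc `D .ord u w` out of it and an arc `D .ord w' u` into it inside `W`, i.e. there are
`w, w' ∈ W` on the other side with `ed u w` and `ed u w'` different (`ed_symm`): one is true and one is false.
Take the true one for `par`, the false one for `ser`: it is joined with `u` by arcs of `typ W` in both
directions, so it is in `qs (i+1) u`.
-/

set_option autoImplicit false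

namespace P1346e8

namespace T

open L

variable {Z : Type} {side : Z → Bool} {M : Z → Z → Prop}

namespace NodeFAux

open L.RefineAux

theorem first_arc {ρ : Rule} {W : Z → Prop} : ∀ (n : ℕ) (u v : Z),
    Pth side M ρ (both W) n u v → u = v ∨ ∃ w, W u ∧ W w ∧ D side M ρ u w
  | 0, _, _, h => Or.inl h.2
  | n + 1, u, v, h => by
    rcases h with h | ⟨w, h1, h2, h3⟩
    · exact first_arc n u v h
    · rcases first_arc n u w h1 with rfl | h4
      · exact Or.inr ⟨v, h2.1, h2.2, h3⟩
      · exact Or.inr h4

theorem last_arc {ρ : Rule} {W : Z → Prop} : ∀ (n : ℕ) (u v : Z),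
    Pth side M ρ (both W) n u v → u = v ∨ ∃ w, W w ∧ W v ∧ D side M ρ w v
  | 0, _, _, h => Or.inl h.2
  | n + 1, u, v, h => by
    rcases h with h | ⟨w, h1, h2, h3⟩
    · exact last_arc n u v h
    · exact Or.inr ⟨w, h2.1, h2.2, h3⟩

theorem D_ne {ρ : Rule} {u v : Z} (h : D side M ρ u v) : side u ≠ side v := by
  cases ρ with
  | par => exact h.1
  | ser => exact h.1
  | ord => exact h.1

theorem uni_ord (hT : TotD side M) {i : ℕ} {u z a b : Z}
    (hty : typ side M (qs side M i u) = .ord) (hzi : qs side M i u z)
    (hz : ¬ qs side M (i + 1) u z)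
    (ha : qs side M (i + 1) u a) (hb : qs side M (i + 1) u b) (hsa : side a ≠ side z)
    (hsb : side b ≠ side z) (h1 : ed side M z a) : ed side M z b := by
  by_contra h2
  have hq := qs_eqOn hT i
  have hq1 := qs_eqOn hT (i + 1)
  have hai : qs side M i u a := qs_le hT (Nat.le_succ i) ha
  have hbi : qs side M i u b := qs_le hT (Nat.le_succ i) hb
  have hza : qs side M i z a := hq.trans _ _ _ (hq.symm _ _ hzi) hai
  have hzb : qs side M i z b := hq.trans _ _ _ (hq.symm _ _ hzi) hbi
  have hab : qs side M (i + 1) a b := hq1.trans _ _ _ (hq1.symm _ _ ha) hb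
  have hab' : nxt side M .ord (qs side M i) a b := by
    have h3 : nxt side M (typ side M (qs side M i a)) (qs side M i) a b := hab
    rw [← qs_class hT hai, hty] at h3
    exact h3
  have hfin : ∀ c, qs side M (i + 1) u c → nxt side M .ord (qs side M i) z c → False := by
    intro c hc hzc
    apply hz
    have h3 : qs side M (i + 1) z c := by
      change nxt side M (typ side M (qs side M i z)) (qs side M i) z c
      rw [← qs_class hT hzi, hty]
      exact hzc
    exact hq1.trans _ _ _ hc (hq1.symm _ _ h3)
  cases hsz : side z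
  · -- `z` is a column: `a → z → b`
    have hsa' : side a = true := by
      cases h : side a
      · exact absurd (h.trans hsz.symm) hsa
      · rfl
    have hD1 : D side M .ord a z := ⟨hsa, ⟨fun _ => hsa', fun _ => (ed_symm hsa).2 h1⟩⟩
    have hD2 : D side M .ord z b := ⟨hsb.symm, ⟨fun h => absurd h h2, fun h => by
      rw [hsz] at h
      exact absurd h (by decide)⟩⟩
    refine hfin b hb ((nxt_iffS hq hT .ord z b).2 ⟨⟨1, pth_one hq hzb hD2⟩, ⟨6 + 1, ?_⟩⟩)
    exact hab'.2.trans (pth_one hq (hq.symm _ _ hza) hD1) hq.trans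
  · have hsb' : side b = false := by
      cases h : side b
      · rfl
      · exact absurd (h.trans hsz.symm) hsb
    have hD1 : D side M .ord z a := ⟨hsa.symm, ⟨fun _ => hsz, fun _ => h1⟩⟩
    have hD2 : D side M .ord b z := ⟨hsb, ⟨fun h => absurd ((ed_symm hsb).1 h) h2, fun h => by
      rw [hsb'] at h
      exact absurd h (by decide)⟩⟩
    refine hfin a ha ((nxt_iffS hq hT .ord z a).2 ⟨⟨1, pth_one hq hza hD1⟩, ⟨6 + 1, ?_⟩⟩)
    exact hab'.1.trans (pth_one hq (hq.symm _ _ hzb) hD2) hq.trans

end NodeFAux

open NodeFAux L.RefineAux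

theorem sc_child (hT : TotD side M) (i : ℕ) (u : Z) :
    SC side M (typ side M (qs side M i u)) (qs side M (i + 1) u) := by
  have hq := qs_eqOn hT i
  have hWeq : qs side M (i + 1) u = KK side M (typ side M (qs side M i u)) (qs side M i) u := by
    funext w
    exact propext (nxt_iffS hq hT _ u w)
  rw [hWeq]
  generalize typ side M (qs side M i u) = ρ
  have hsc : ∀ a b, KK side M ρ (qs side M i) u a → KK side M ρ (qs side M i) u b →
      ∃ n, Pth side M ρ (fun x y => KK side M ρ (qs side M i) u x ∧
        KK side M ρ (qs side M i) u y) n a b := by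
    intro a b ha hb
    obtain ⟨m, hm⟩ := ha.2
    obtain ⟨n, hn⟩ := hb.1
    exact ⟨m + n, inside hq u (m + n) a b ha hb.2 (hm.trans hn hq.trans)⟩
  intro a b ha hb
  by_cases hK : ∃ a b, KK side M ρ (qs side M i) u a ∧ KK side M ρ (qs side M i) u b ∧
      side a ≠ side b
  · have hsep : Sep side M (KK side M ρ (qs side M i) u) := hT _ hK
    exact reach_short ρ hsep hsc a b ha hb
  · obtain ⟨n, hn⟩ := hsc a b ha hb
    have hab : a = b := no_arc hK n a b hn
    subst hab
    exact Pth.mono (m := 0) (Nat.zero_le 6) ⟨⟨ha, ha⟩, rfl⟩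

theorem typ_child_ne (hT : TotD side M) {i : ℕ} {u v : Z} (h : qs side M (i + 1) u v)
    (hne : u ≠ v) : typ side M (qs side M (i + 1) u) ≠ typ side M (qs side M i u) := by
  intro heq
  have h1 := not_SC_typ hT (qs side M (i + 1) u)
    ⟨u, v, (qs_eqOn hT (i + 1)).refl u trivial, h, hne⟩
  rw [heq] at h1
  exact h1 (sc_child hT i u)

theorem sib_par (hT : TotD side M) {i : ℕ} {u v : Z} (ht : typ side M (qs side M i u) = .par)
    (h : qs side M i u v) (hn : ¬ qs side M (i + 1) u v) (hs : side u ≠ side v) :
    ¬ ed side M u v := by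
  intro he
  have hq := qs_eqOn hT i
  have h1 : D side M .par u v := ⟨hs, he⟩
  have h2 : D side M .par v u := ⟨hs.symm, (ed_symm hs).1 he⟩
  apply hn
  change nxt side M (typ side M (qs side M i u)) (qs side M i) u v
  rw [ht]
  exact ⟨Pth.mono (by norm_num) (pth_one hq h h1),
    Pth.mono (by norm_num) (pth_one hq (hq.symm _ _ h) h2)⟩

theorem sib_ser (hT : TotD side M) {i : ℕ} {u v : Z} (ht : typ side M (qs side M i u) = .ser)
    (h : qs side M i u v) (hn : ¬ qs side M (i + 1) u v) (hs : side u ≠ side v) :
    ed side M u v := by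
  by_contra he
  have hq := qs_eqOn hT i
  have h1 : D side M .ser u v := ⟨hs, he⟩
  have h2 : D side M .ser v u := ⟨hs.symm, fun h' => he ((ed_symm hs).2 h')⟩
  apply hn
  change nxt side M (typ side M (qs side M i u)) (qs side M i) u v
  rw [ht]
  exact ⟨Pth.mono (by norm_num) (pth_one hq h h1),
    Pth.mono (by norm_num) (pth_one hq (hq.symm _ _ h) h2)⟩

theorem uniform (hT : TotD side M) {i : ℕ} {u z a b : Z} (hz : ¬ qs side M i u z)
    (ha : qs side M i u a) (hb : qs side M i u b) (hsa : side a ≠ side z)
    (hsb : side b ≠ side z) : ed side M z a ↔ ed side M z b := by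
  induction i with
  | zero => exact absurd trivial hz
  | succ i ih =>
    by_cases hzi : qs side M i u z
    swap
    · exact ih hzi (qs_le hT (Nat.le_succ i) ha) (qs_le hT (Nat.le_succ i) hb)
    have hq := qs_eqOn hT i
    have hq1 := qs_eqOn hT (i + 1)
    have hcl := qs_class hT hzi
    have hz' : ∀ c, qs side M (i + 1) u c → qs side M i z c ∧ ¬ qs side M (i + 1) z c := by
      intro c hc
      exact ⟨hq.trans _ _ _ (hq.symm _ _ hzi) (qs_le hT (Nat.le_succ i) hc),
        fun h => hz (hq1.trans _ _ _ hc (hq1.symm _ _ h))⟩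
    cases hty : typ side M (qs side M i u) with
    | par =>
      have hty' := hty
      rw [hcl] at hty'
      have h1 := sib_par hT hty' (hz' a ha).1 (hz' a ha).2 hsa.symm
      have h2 := sib_par hT hty' (hz' b hb).1 (hz' b hb).2 hsb.symm
      exact ⟨fun h => absurd h h1, fun h => absurd h h2⟩
    | ser =>
      have hty' := hty
      rw [hcl] at hty'
      have h1 := sib_ser hT hty' (hz' a ha).1 (hz' a ha).2 hsa.symm
      have h2 := sib_ser hT hty' (hz' b hb).1 (hz' b hb).2 hsb.symm
      exact ⟨fun _ => h2, fun _ => h1⟩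
    | ord =>
      exact ⟨uni_ord hT hty hzi hz ha hb hsa hsb, uni_ord hT hty hzi hz hb ha hsb hsa⟩

theorem two_sided (hT : TotD side M) {i : ℕ} {u v : Z} (ht : typ side M (qs side M i u) ≠ .ord)
    (h : qs side M i u v) (hne : u ≠ v) :
    ∃ w, qs side M (i + 1) u w ∧ side u ≠ side w ∧ D side M (typ side M (qs side M i u)) u w := by
  have hq := qs_eqOn hT i
  have hSC : SC side M .ord (qs side M i u) := by
    by_contra hcon
    exact ht (if_pos hcon)
  have huu : qs side M i u u := hq.refl u trivial
  obtain ⟨w, _, hw, hD⟩ := (first_arc 6 u v (hSC u v huu h)).resolve_left hne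
  obtain ⟨w', hw', _, hD'⟩ := (last_arc 6 v u (hSC v u h huu)).resolve_left hne.symm
  have hs' : side u ≠ side w' := (D_ne hD').symm
  have hs : side u ≠ side w := D_ne hD
  have hkey : ∃ wt wf, qs side M i u wt ∧ qs side M i u wf ∧ side u ≠ side wt ∧
      side u ≠ side wf ∧ ed side M u wt ∧ ¬ ed side M u wf := by
    cases hsu : side u
    · have hsw' : side w' = true := by
        cases h1 : side w'
        · exact absurd (hsu.trans h1.symm) hs'
        · rfl
      refine ⟨w', w, hw', hw, hsu ▸ hs', hsu ▸ hs, (ed_symm hs').2 (hD'.2.2 hsw'), fun h1 => ?_⟩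
      have h2 := hD.2.1 h1
      rw [hsu] at h2
      exact absurd h2 (by decide)
    · refine ⟨w, w', hw, hw', hsu ▸ hs, hsu ▸ hs', hD.2.2 hsu, fun h1 => ?_⟩
      have h2 := hD'.2.1 ((ed_symm hs').1 h1)
      exact hs' (hsu.trans h2.symm)
  obtain ⟨wt, wf, h1, h2, h3, h4, h5, h6⟩ := hkey
  have hfin : ∀ ρ c, qs side M i u c → D side M ρ u c → D side M ρ c u →
      nxt side M ρ (qs side M i) u c := fun ρ c hc hD1 hD2 =>
    ⟨Pth.mono (by norm_num) (pth_one hq hc hD1),
      Pth.mono (by norm_num) (pth_one hq (hq.symm _ _ hc) hD2)⟩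
  cases hty : typ side M (qs side M i u) with
  | ord => exact absurd hty ht
  | par =>
    have hD1 : D side M .par u wt := ⟨h3, h5⟩
    have hD2 : D side M .par wt u := ⟨h3.symm, (ed_symm h3).1 h5⟩
    refine ⟨wt, ?_, h3, hD1⟩
    change nxt side M (typ side M (qs side M i u)) (qs side M i) u wt
    rw [hty]
    exact hfin .par wt h1 hD1 hD2
  | ser =>
    have hD1 : D side M .ser u wf := ⟨h4, h6⟩
    have hD2 : D side M .ser wf u := ⟨h4.symm, fun h' => h6 ((ed_symm h4).2 h')⟩
    refine ⟨wf, ?_, h4, hD1⟩
    change nxt side M (typ side M (qs side M i u)) (qs side M i) u wf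
    rw [hty]
    exact hfin .ser wf h2 hD1 hD2

end T

end P1346e8
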