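import Pool.Agent.Lib.P1346T.LvlS

/-!
# MODULE NodeQ: the refining sequence of equivalence relations (about 1.8 h)

STATEMENTS. `qs side M i` is a refining sequence of equivalence relations on `Z`; every class with at
least two elements is split at the next step; `qs side M (Nat.card Z)` is equality; two different elements
are separated at exactly one level `i` (`qs i u v` and `¬ qs (i+1) u v`).

PROOFS. `qs_eqOn`: induction on `i`.  For the step let `E := qs i`, an equivalence relation.  If `E u v`
then `E u = E v` as predicates (`funext`, `propext`), so `typ (E u) = typ (E v)`; for a fixed rule `ρ`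
`nxt side M ρ E` is an equivalence relation by `nxt_eqOnS`; and `nxt ρ E u v` implies `E u v` (`nxt_le`), so
along `qs (i+1) u v` the rule `typ (E u)` does not change: symmetry and transitivity follow.
`pth_both`: a path for `E = qs i` from an element `a` of the class `E u` stays in the class (induction on
the length; `E a b` along the path), and `both (E u) a b -> E a b`.
`not_SC_typ`: if `typ W` is `ord` or `par` this is the condition of the `if` (`unfold typ; split_ifs`).
If it is `ser` then `SC ord W` and `SC par W`; `W` has two elements `a ≠ b`, a path from `a` to `b` has an arc,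
and an arc joins different sides, so `W` has elements of both sides and `hT` gives `Sep side M W` with parts
`L`, `R = W \ L` (both non-empty) and values `p` (rows of `L`, columns of `R`), `q` (rows of `R`, columns of
`L`).  If `p`, `q` are both false there is no arc of `par` between `L` and `R`: a path from an element of `L`
to one of `R` is impossible, contradiction to `SC par W`.  If `p ≠ q` all arcs of `ord` between `L` and `R`
go in one direction (`D .ord u v`: `side u ≠ side v` and (`ed u v` iff `u` is a row)): contradiction to
`SC ord W`.  So both are true, and there is no arc of `ser` between `L` and `R`: `¬ SC ser W`.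
`qs_split`: let `W := qs i u` with two elements; by `not_SC_typ` there are `a, b ∈ W` without a path of
length 6 from `a` to `b` inside `W`, so `¬ qs (i+1) a b` (`pth_both`), so one of `a`, `b` is not
`qs (i+1)`-equivalent to `u`.
`qs_card`: the number of elements of the class `qs (i+1) u` is smaller than that of `qs i u` if the latter
has at least two elements; so the class `qs i u` has at most `max 1 (card - i)` elements.
`exists_sep`: the largest `i ≤ card` with `qs i u v` (`qs 0` holds, `qs card` does not).
-/

set_option autoImplicit false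

namespace P1346e8

namespace T

open L

variable {Z : Type} {side : Z → Bool} {M : Z → Z → Prop}

namespace NodeQAux

open L.RefineAux

theorem stay {ρ : Rule} {W L : Z → Prop}
    (h : ∀ w v, W w → W v → L w → ¬ L v → ¬ D side M ρ w v) :
    ∀ (n : ℕ) (u v : Z), L u → Pth side M ρ (both W) n u v → L v
  | 0, u, v, hu, hp => by
    obtain ⟨_, rfl⟩ := hp
    exact hu
  | n + 1, u, v, hu, hp => by
    rcases hp with hp | ⟨w, hw, hwv, hD⟩
    · exact stay h n u v hu hp
    · by_contra hv
      exact h w v hwv.1 hwv.2 (stay h n u w hu hw) hv hD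

theorem cross {W L : Z → Prop} {p q : Prop}
    (hp : ∀ u v, W u → W v → L u → ¬ L v → side u = true → side v = false → (M u v ↔ p))
    (hq : ∀ u v, W u → W v → L u → ¬ L v → side u = false → side v = true → (M v u ↔ q))
    {u v : Z} (hu : W u) (hv : W v) (hLu : L u) (hLv : ¬ L v) (hs : side u ≠ side v) :
    (side u = true → (ed side M u v ↔ p)) ∧ (side u = false → (ed side M u v ↔ q)) := by
  constructor
  · intro h1
    have h2 : side v = false := by
      cases h : side v
      · rfl
      · exact absurd (h1.trans h.symm) hs
    unfold ed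
    rw [if_pos h1]
    exact hp u v hu hv hLu hLv h1 h2
  · intro h1
    have h2 : side v = true := by
      cases h : side v
      · exact absurd (h1.trans h.symm) hs
      · rfl
    unfold ed
    rw [if_neg (by rw [h1]; decide)]
    exact hq u v hu hv hLu hLv h1 h2

end NodeQAux

open NodeQAux L.RefineAux

theorem qs_eqOn (hT : TotD side M) (i : ℕ) : EqOn (fun _ => True) (qs side M i) := by
  induction i with
  | zero =>
    exact ⟨fun _ _ _ => ⟨trivial, trivial⟩, fun _ _ => trivial, fun _ _ _ => trivial,
      fun _ _ _ _ _ => trivial⟩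
  | succ i ih =>
    have hcl : ∀ {u v : Z}, qs side M i u v → qs side M i u = qs side M i v := by
      intro u v h
      funext w
      exact propext ⟨fun h' => ih.trans _ _ _ (ih.symm _ _ h) h', fun h' => ih.trans _ _ _ h h'⟩
    have hq' := fun ρ => nxt_eqOnS ih hT ρ
    have hle : ∀ {u v : Z}, qs side M (i + 1) u v → qs side M i u v :=
      fun {u v} h => nxt_le ih _ u v h
    refine ⟨fun _ _ _ => ⟨trivial, trivial⟩, fun u _ => (hq' _).refl u trivial,
      fun u v h => ?_, fun u v w h h' => ?_⟩
    · change nxt side M (typ side M (qs side M i v)) (qs side M i) v u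
      rw [← hcl (hle h)]
      exact (hq' _).symm _ _ h
    · change nxt side M (typ side M (qs side M i u)) (qs side M i) u w
      have h'' : nxt side M (typ side M (qs side M i u)) (qs side M i) v w := by
        rw [hcl (hle h)]
        exact h'
      exact (hq' _).trans _ _ _ h h''

theorem qs_le (hT : TotD side M) {i j : ℕ} (hij : i ≤ j) {u v : Z} (h : qs side M j u v) :
    qs side M i u v := by
  induction j, hij using Nat.le_induction with
  | base => exact h
  | succ j hij ih => exact ih (nxt_le (qs_eqOn hT j) _ u v h)

theorem qs_class (hT : TotD side M) {i : ℕ} {u v : Z} (h : qs side M i u v) :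
    qs side M i u = qs side M i v := by
  have hq := qs_eqOn hT i
  funext w
  exact propext ⟨fun h' => hq.trans _ _ _ (hq.symm _ _ h) h', fun h' => hq.trans _ _ _ h h'⟩

theorem pth_both (hT : TotD side M) {i : ℕ} {u a : Z} (ha : qs side M i u a) (ρ : Rule) (n : ℕ)
    (b : Z) : Pth side M ρ (qs side M i) n a b ↔ Pth side M ρ (both (qs side M i u)) n a b := by
  have hq := qs_eqOn hT i
  induction n generalizing b with
  | zero =>
    constructor
    · rintro ⟨h1, rfl⟩
      exact ⟨⟨ha, ha⟩, rfl⟩
    · rintro ⟨h1, rfl⟩
      exact ⟨hq.refl _ trivial, rfl⟩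
  | succ n ih =>
    constructor
    · rintro (h | ⟨w, h1, h2, h3⟩)
      · exact Or.inl ((ih b).1 h)
      · have h4 : qs side M i u w := hq.trans _ _ _ ha (pth_q hq n a w h1)
        exact Or.inr ⟨w, (ih w).1 h1, ⟨h4, hq.trans _ _ _ h4 h2⟩, h3⟩
    · rintro (h | ⟨w, h1, h2, h3⟩)
      · exact Or.inl ((ih b).2 h)
      · exact Or.inr ⟨w, (ih w).2 h1, hq.trans _ _ _ (hq.symm _ _ h2.1) h2.2, h3⟩

theorem nxt_both (hT : TotD side M) {i : ℕ} {u a b : Z} (ha : qs side M i u a) (ρ : Rule) :
    nxt side M ρ (qs side M i) a b ↔ nxt side M ρ (both (qs side M i u)) a b := by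
  have hq := qs_eqOn hT i
  unfold nxt
  rw [← pth_both hT ha ρ 6 b]
  refine and_congr_right fun h => ?_
  exact pth_both hT (hq.trans _ _ _ ha (pth_q hq 6 a b h)) ρ 6 a

theorem not_SC_typ (hT : TotD side M) (W : Z → Prop) (h2 : ∃ a b, W a ∧ W b ∧ a ≠ b) :
    ¬ SC side M (typ side M W) W := by
  by_cases ho : SC side M .ord W
  swap
  · have ht : typ side M W = .ord := if_pos ho
    rw [ht]
    exact ho
  by_cases hp : SC side M .par W
  swap
  · have ht : typ side M W = .par := (if_neg (not_not.2 ho)).trans (if_pos hp)
    rw [ht]
    exact hp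
  · have ht : typ side M W = .ser := (if_neg (not_not.2 ho)).trans (if_neg (not_not.2 hp))
    rw [ht]
    intro hs
    obtain ⟨a, b, ha, hb, hab⟩ := h2
    have hboth : ∃ a b, W a ∧ W b ∧ side a ≠ side b := by
      by_contra hK
      exact hab (no_arc hK 6 a b (ho a b ha hb))
    obtain ⟨L, ⟨x, hx, hLx⟩, ⟨y, hy, hLy⟩, p, q, h4, h5⟩ := hT W hboth
    have hc := fun {u v : Z} (hu : W u) (hv : W v) (hLu : L u) (hLv : ¬ L v)
      (hs : side u ≠ side v) => cross h4 h5 hu hv hLu hLv hs
    by_cases hpp : p <;> by_cases hqq : q
    · refine hLy (stay (ρ := .ser) (W := W) (L := L) ?_ 6 x y hLx (hs x y hx hy))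
      rintro w v hw hv hLw hLv ⟨hsd, hne⟩
      have h6 := hc hw hv hLw hLv hsd
      cases h : side w
      · exact hne ((h6.2 h).2 hqq)
      · exact hne ((h6.1 h).2 hpp)
    · refine (stay (ρ := .ord) (W := W) (L := fun z => ¬ L z) ?_ 6 y x hLy (ho y x hy hx)) hLx
      rintro w v hw hv hLw hLv ⟨hsd, hne⟩
      have h6 := hc hv hw (not_not.1 hLv) hLw hsd.symm
      have h7 := ed_symm (M := M) hsd
      cases h : side w
      · have h8 : side v = true := by
          cases h9 : side v
          · exact absurd (h.trans h9.symm) hsd
          · rfl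
        have h9 : ed side M w v := h7.2 ((h6.1 h8).2 hpp)
        have h10 := hne.1 h9
        rw [h] at h10
        exact absurd h10 (by decide)
      · have h8 : side v = false := by
          cases h9 : side v
          · rfl
          · exact absurd (h.trans h9.symm) hsd
        exact hqq ((h6.2 h8).1 (h7.1 (hne.2 h)))
    · refine hLy (stay (ρ := .ord) (W := W) (L := L) ?_ 6 x y hLx (ho x y hx hy))
      rintro w v hw hv hLw hLv ⟨hsd, hne⟩
      have h6 := hc hw hv hLw hLv hsd
      cases h : side w
      · have h10 := hne.1 ((h6.2 h).2 hqq)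
        rw [h] at h10
        exact absurd h10 (by decide)
      · exact hpp ((h6.1 h).1 (hne.2 h))
    · refine hLy (stay (ρ := .par) (W := W) (L := L) ?_ 6 x y hLx (hp x y hx hy))
      rintro w v hw hv hLw hLv ⟨hsd, he⟩
      have h6 := hc hw hv hLw hLv hsd
      cases h : side w
      · exact hqq ((h6.2 h).1 he)
      · exact hpp ((h6.1 h).1 he)

theorem qs_split (hT : TotD side M) {i : ℕ} {u v : Z} (h : qs side M i u v) (hne : u ≠ v) :
    ∃ w, qs side M i u w ∧ ¬ qs side M (i + 1) u w := by
  have hq := qs_eqOn hT i
  have hq1 := qs_eqOn hT (i + 1)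
  have hns := not_SC_typ hT (qs side M i u) ⟨u, v, hq.refl u trivial, h, hne⟩
  unfold SC at hns
  push Not at hns
  obtain ⟨a, b, ha, hb, hab⟩ := hns
  by_contra hcon
  push Not at hcon
  have h1 : qs side M (i + 1) a b :=
    hq1.trans _ _ _ (hq1.symm _ _ (hcon a ha)) (hcon b hb)
  have h2 : nxt side M (typ side M (qs side M i a)) (qs side M i) a b := h1
  rw [← qs_class hT ha] at h2
  exact hab ((pth_both hT ha _ 6 b).1 h2.1)

namespace NodeQAux

theorem card_bound [Finite Z] (hT : TotD side M) (i : ℕ) {u v : Z} (h : qs side M i u v)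
    (hne : u ≠ v) : Set.ncard {w | qs side M i u w} + i ≤ Nat.card Z := by
  induction i with
  | zero =>
    rw [add_zero]
    exact Set.ncard_le_card _
  | succ i ih =>
    have h0 : qs side M i u v := qs_le hT (Nat.le_succ i) h
    have h1 := ih h0
    obtain ⟨w, hw1, hw2⟩ := qs_split hT h0 hne
    have h2 : {w | qs side M (i + 1) u w} ⊂ {w | qs side M i u w} :=
      ⟨fun x hx => qs_le hT (Nat.le_succ i) hx, fun hsub => hw2 (hsub hw1)⟩
    have h3 := Set.ncard_lt_ncard h2 (Set.toFinite _)
    omega

end NodeQAux

theorem qs_card [Finite Z] (hT : TotD side M) {u v : Z} (h : qs side M (Nat.card Z) u v) :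
    u = v := by
  by_contra hne
  have h1 := card_bound hT _ h hne
  have h2 : 0 < Set.ncard {w | qs side M (Nat.card Z) u w} :=
    (Set.ncard_pos (Set.toFinite _)).2 ⟨v, h⟩
  omega

theorem exists_sep [Finite Z] (hT : TotD side M) {u v : Z} (hne : u ≠ v) :
    ∃ i, qs side M i u v ∧ ¬ qs side M (i + 1) u v := by
  by_contra hcon
  push Not at hcon
  have hall : ∀ i, qs side M i u v := by
    intro i
    induction i with
    | zero => exact trivial
    | succ i ih => exact hcon i ih
  exact hne (qs_card hT (hall _))

theorem sep_unique (hT : TotD side M) {u v : Z} {i j : ℕ} (hi : qs side M i u v)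
    (hi' : ¬ qs side M (i + 1) u v) (hj : qs side M j u v) (hj' : ¬ qs side M (j + 1) u v) :
    i = j := by
  rcases lt_trichotomy i j with h | h | h
  · exact absurd (qs_le hT h hj) hi'
  · exact h
  · exact absurd (qs_le hT h hi) hj'

end T

end P1346e8
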