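import Pool.Agent.Lib.P1346T.Defs

/-!
# The refinement of an equivalence relation by a rule, for totally decomposable structures
-/

set_option autoImplicit false

namespace P1346e8

namespace T

open L L.RefineAux

variable {Z : Type} {side : Z → Bool} {M : Z → Z → Prop} {W : Z → Prop} {q : Z → Z → Prop}

theorem nxt_iffS (hq : EqOn W q) (hT : TotD side M) (ρ : Rule) (u v : Z) :
    nxt side M ρ q u v ↔ (∃ n, Pth side M ρ q n u v) ∧ ∃ n, Pth side M ρ q n v u := by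
  refine ⟨fun h => ⟨⟨6, h.1⟩, ⟨6, h.2⟩⟩, fun h => ?_⟩
  have hquv : q u v := by
    obtain ⟨n, hn⟩ := h.1
    exact pth_q hq n u v hn
  have huu : q u u := hq.refl u (hq.dom _ _ hquv).1
  have hKu : KK side M ρ q u u := ⟨⟨0, huu, rfl⟩, ⟨0, huu, rfl⟩⟩
  have hKv : KK side M ρ q u v := h
  have hKq : ∀ w, KK side M ρ q u w → q u w := fun w hw => by
    obtain ⟨n, hn⟩ := hw.1
    exact pth_q hq n u w hn
  have hsc : ∀ a b, KK side M ρ q u a → KK side M ρ q u b →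
      ∃ n, Pth side M ρ (fun x y => KK side M ρ q u x ∧ KK side M ρ q u y) n a b := by
    intro a b ha hb
    obtain ⟨m, hm⟩ := ha.2
    obtain ⟨n, hn⟩ := hb.1
    exact ⟨m + n, inside hq u (m + n) a b ha hb.2 (hm.trans hn hq.trans)⟩
  by_cases hK : ∃ a b, KK side M ρ q u a ∧ KK side M ρ q u b ∧ side a ≠ side b
  · have hsep : Sep side M (KK side M ρ q u) := hT _ hK
    have h6 := reach_short ρ hsep hsc
    have himp : ∀ a b, KK side M ρ q u a ∧ KK side M ρ q u b → q a b := fun a b hab =>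
      hq.trans _ _ _ (hq.symm _ _ (hKq a hab.1)) (hKq b hab.2)
    exact ⟨pth_imp himp 6 u v (h6 u v hKu hKv), pth_imp himp 6 v u (h6 v u hKv hKu)⟩
  · obtain ⟨n, hn⟩ := hsc u v hKu hKv
    have huv : u = v := no_arc hK n u v hn
    subst huv
    have h0 : Pth side M ρ q 6 u u :=
      Pth.mono (m := 0) (Nat.zero_le 6) (⟨huu, rfl⟩ : Pth side M ρ q 0 u u)
    exact ⟨h0, h0⟩

theorem nxt_eqOnS (hq : EqOn W q) (hT : TotD side M) (ρ : Rule) : EqOn W (nxt side M ρ q) where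
  dom u v h := hq.dom u v (nxt_le hq ρ u v h)
  refl u hu := (nxt_iffS hq hT ρ u u).2 ⟨⟨0, hq.refl u hu, rfl⟩, ⟨0, hq.refl u hu, rfl⟩⟩
  symm u v h := ⟨h.2, h.1⟩
  trans u v w h h' := by
    refine (nxt_iffS hq hT ρ u w).2 ⟨⟨6 + 6, h.1.trans h'.1 hq.trans⟩,
      ⟨6 + 6, h'.2.trans h.2 hq.trans⟩⟩

end T

end P1346e8
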