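import Pool.Agent.Lib.P1346T.NodeF
import Pool.Agent.Lib.P1346T.OrdT

/-!
# MODULE TreeO: nodes are intervals, entries between children (about 1.2 h)

STATEMENTS AND PROOFS.
`conv`: every class `qs i u` is an interval of the order `LtT`: let `LtT u v`, `LtT v w`, `qs i u w`; suppose
`¬ qs i u v`, and let `j` be the level that separates `u` and `v` (`exists_sep`); then `j < i` (`qs_le`), so
`qs (j+1) u w`, so `v` and `w` are separated at level `j` too, and from `LtT u v` and `qs (j+1) u w` we get
`LtT w v` by `ltT_inv`: contradiction to `LtT v w` (`ltT_lin`: irreflexive and transitive).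
`entry`: let `a, b, c, d` be in the same class `qs i`, `a, b` in different classes of `qs (i+1)`, `c, d` as well,
`LtT a b`, `LtT c d`, `side c = side a`, `side d = side b ≠ side a`.  Then the entries of `a, b` and of `c, d`
are equal: rule `par`, `ser` of the class: `sib_par`, `sib_ser`; rule `ord`: by `ltT_iff` and
`entry_ord` (`Pool.Agent.Lib.P1346T.LvlS`, `W = fun _ => True`) both are given by `D .ord`:
`ed a b ↔ side a = true`, `ed c d ↔ side c = true`.
-/

set_option autoImplicit false

namespace P1346e8

namespace T

open L

variable {Z : Type} [Finite Z] {side : Z → Bool} {M lt : Z → Z → Prop}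

theorem conv (hT : TotD side M) (hlt : StrictLin (fun _ => True) lt) {i : ℕ} {u v w : Z}
    (h1 : LtT side M lt u v) (h2 : LtT side M lt v w) (h : qs side M i u w) :
    qs side M i u v := by
  by_contra hn
  have hlin := ltT_lin (lt := lt) hT hlt
  have hne : u ≠ v := by
    rintro rfl
    exact hn ((qs_eqOn hT i).refl u trivial)
  obtain ⟨j, hj, hj'⟩ := exists_sep hT hne
  have hji : j + 1 ≤ i := by
    by_contra hc
    exact hn (qs_le hT (by omega) hj)
  have h3 : LtT side M lt w v := ltT_inv hT hlt hj hj' (qs_le hT hji h)
    ((qs_eqOn hT (j + 1)).refl v trivial) h1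
  exact hlin.1 v trivial (hlin.2.1 v w v trivial trivial trivial h2 h3)

theorem entry (hT : TotD side M) (hlt : StrictLin (fun _ => True) lt) {i : ℕ} {a b c d : Z}
    (hab : qs side M i a b) (hac : qs side M i a c) (had : qs side M i a d)
    (hab' : ¬ qs side M (i + 1) a b) (hcd' : ¬ qs side M (i + 1) c d) (h1 : LtT side M lt a b)
    (h2 : LtT side M lt c d) (hs : side a ≠ side b) (hc : side c = side a)
    (hd : side d = side b) : ed side M a b ↔ ed side M c d := by
  have hE := qs_eqOn hT i
  have hcd : qs side M i c d := hE.trans _ _ _ (hE.symm _ _ hac) had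
  have hcl : qs side M i a = qs side M i c := qs_class hT hac
  have hs' : side c ≠ side d := by
    rw [hc, hd]
    exact hs
  cases ht : typ side M (qs side M i a) with
  | par =>
    have ht' : typ side M (qs side M i c) = .par := by rw [← hcl]; exact ht
    exact iff_of_false (sib_par hT ht hab hab' hs) (sib_par hT ht' hcd hcd' hs')
  | ser =>
    have ht' : typ side M (qs side M i c) = .ser := by rw [← hcl]; exact ht
    exact iff_of_true (sib_ser hT ht hab hab' hs) (sib_ser hT ht' hcd hcd' hs')
  | ord =>
    have ht' : typ side M (qs side M i c) = .ord := by rw [← hcl]; exact ht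
    have hn1 : ¬ nxt side M .ord (qs side M i) a b := by
      rw [← ht]
      exact hab'
    have hn2 : ¬ nxt side M .ord (qs side M i) c d := by
      rw [← ht']
      exact hcd'
    have e1 := (ltT_iff (lt := lt) hT hab hab').1 h1
    have e2 := (ltT_iff (lt := lt) hT hcd hcd').1 h2
    rw [ht] at e1
    rw [ht'] at e2
    have d1 := (entry_ord hE hT hlt a b hab hn1 hs).1 e1
    have d2 := (entry_ord hE hT hlt c d hcd hn2 hs').1 e2
    have d1' : ed side M a b ↔ side a = true := d1.2
    have d2' : ed side M c d ↔ side c = true := d2.2
    rw [d1', d2', hc]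

end T

end P1346e8
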