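import Pool.Agent.Lib.P1346T.Defs
import Pool.Agent.Lib.P1346L.VDefs

/-!
# Total decomposability of a relation between rows and columns (definitions)
-/

set_option autoImplicit false

namespace P1346e8

/-- The rows `X` and the columns `Y` of `R` can be split into two parts, not both without elements, such
that the two off-diagonal blocks of `R` are constant: `X'`, `Y'` are the rows and columns of the first
part. -/
def Split {V : Type} (R : V → V → Prop) (X Y : V → Prop) : Prop :=
  ∃ X' Y' : V → Prop, (∀ x, X' x → X x) ∧ (∀ y, Y' y → Y y) ∧ ((∃ x, X' x) ∨ ∃ y, Y' y) ∧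
    ((∃ x, X x ∧ ¬ X' x) ∨ ∃ y, Y y ∧ ¬ Y' y) ∧ ∃ p q : Prop,
      (∀ x y, X' x → Y y → ¬ Y' y → (R x y ↔ p)) ∧ ∀ x y, X x → ¬ X' x → Y' y → (R x y ↔ q)

/-- `R` is totally decomposable between `X` and `Y`: for all non-empty subsets of rows and of columns
there is a split. -/
def TotDec {V : Type} (R : V → V → Prop) (X Y : V → Prop) : Prop :=
  ∀ X' Y' : V → Prop, (∀ x, X' x → X x) → (∀ y, Y' y → Y y) → (∃ x, X' x) → (∃ y, Y' y) →
    Split R X' Y'

namespace T

open L

variable {V : Type}

/-- The relation restricted to the rows `X` and the columns `Y`, on rows and columns. -/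
def rst (R : V → V → Prop) (X Y : V → Prop) (u v : V × Bool) : Prop := X u.1 ∧ Y v.1 ∧ R u.1 v.1

/-- The order of the rows. -/
def rowT (R lt : V → V → Prop) (X Y : V → Prop) (x x' : V) : Prop :=
  X x ∧ X x' ∧ LtF Prod.snd (rst R X Y) (ltZ lt) (x, true) (x', true)

/-- The order of the columns. -/
def colT (R lt : V → V → Prop) (X Y : V → Prop) (y y' : V) : Prop :=
  Y y ∧ Y y' ∧ LtF Prod.snd (rst R X Y) (ltZ lt) (y, false) (y', false)

end T

end P1346e8
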