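import Pool.Agent.Lib.P1346T.VTot
import Pool.Agent.Lib.P1346T.NFm
import Pool.Agent.Lib.P1346T.Corn6

/-!
# MODULE VT: the orders of rows and columns on `V` (about 1 h)

STATEMENT. If `R` is totally decomposable between `X` and `Y` then `rowT` is a strict linear order on `X`,
`colT` on `Y`, and the corner relation contains no `K_{6,6}`.

PROOF. `Z = V × Bool`, `side = Prod.snd`, `M = rst R X Y`: `totD_of_totDec`, `ltZ_lin`, so `LtF ↔ LtT`
(`ltF_iff`) and `LtT` is a strict linear order on `Z` (`ltT_lin`).  `corner6` with `P z := z.2 = true ∧ X z.1`,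
`Q z := z.2 = false ∧ Y z.1`, transported by `x ↦ (x, true)`, `y ↦ (y, false)`: for `x, x' ∈ X`,
`Nxt X rowT x x' ↔ Nxt P LtT (x, true) (x', true)`, the same for columns, and
`rst R X Y (x, true) (y, false)` is `X x ∧ Y y ∧ R x y`.
-/

set_option autoImplicit false

namespace P1346e8

namespace T

open L

namespace VTAux

/-- The restriction of an order of `V × Bool` to the elements `(x, b)` with `x ∈ X`. -/
theorem lin_of {V : Type} {r : V × Bool → V × Bool → Prop}
    (hr : StrictLin (fun _ => True) r) (X : V → Prop) (b : Bool) {ρ : V → V → Prop}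
    (hρ : ∀ x x', ρ x x' ↔ X x ∧ X x' ∧ r (x, b) (x', b)) : StrictLin X ρ := by
  refine ⟨?_, ?_, ?_⟩
  · intro x _ hxx
    exact hr.1 (x, b) trivial ((hρ x x).1 hxx).2.2
  · intro x y z hx _ hz h1 h2
    exact (hρ x z).2 ⟨hx, hz, hr.2.1 (x, b) (y, b) (z, b) trivial trivial trivial
      ((hρ x y).1 h1).2.2 ((hρ y z).1 h2).2.2⟩
  · intro x y hx hy hne
    rcases hr.2.2 (x, b) (y, b) trivial trivial (fun h => hne (congrArg Prod.fst h)) with h1 | h1
    · exact Or.inl ((hρ x y).2 ⟨hx, hy, h1⟩)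
    · exact Or.inr ((hρ y x).2 ⟨hy, hx, h1⟩)

/-- Transport of the next element. -/
theorem nxt_of {V : Type} {r : V × Bool → V × Bool → Prop} (X : V → Prop) (b : Bool)
    {ρ : V → V → Prop} (hρ : ∀ x x', ρ x x' ↔ X x ∧ X x' ∧ r (x, b) (x', b)) {x x' : V}
    (h : Nxt X ρ x x') : Nxt (fun z : V × Bool => z.2 = b ∧ X z.1) r (x, b) (x', b) := by
  refine ⟨⟨rfl, h.1⟩, ⟨rfl, h.2.1⟩, ((hρ x x').1 h.2.2.1).2.2, ?_⟩
  rintro ⟨z, c⟩ ⟨hc, hz⟩ ⟨h1, h2⟩
  change c = b at hc
  subst hc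
  exact h.2.2.2 z hz ⟨(hρ x z).2 ⟨h.1, hz, h1⟩, (hρ z x').2 ⟨hz, h.2.1, h2⟩⟩

end VTAux

open VTAux in
theorem vt {V : Type} [Finite V] {R lt : V → V → Prop} (hlt : StrictLin (fun _ => True) lt)
    {X Y : V → Prop} (h : TotDec R X Y) :
    StrictLin X (rowT R lt X Y) ∧ StrictLin Y (colT R lt X Y) ∧
      BicliqueFree 6 (Corner X (rowT R lt X Y) Y (colT R lt X Y)
        (fun x y => X x ∧ Y y ∧ R x y)) := by
  have hT := totD_of_totDec h
  have hz := ltZ_lin hlt
  have hl := ltT_lin hT hz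
  have hr : ∀ x x', rowT R lt X Y x x' ↔
      X x ∧ X x' ∧ LtT Prod.snd (rst R X Y) (ltZ lt) (x, true) (x', true) := fun x x' => by
    rw [← ltF_iff hT hz]
    exact Iff.rfl
  have hc : ∀ y y', colT R lt X Y y y' ↔
      Y y ∧ Y y' ∧ LtT Prod.snd (rst R X Y) (ltZ lt) (y, false) (y', false) := fun y y' => by
    rw [← ltF_iff hT hz]
    exact Iff.rfl
  refine ⟨lin_of hl X true hr, lin_of hl Y false hc, ?_⟩
  have hbf := corner6 hT hz (fun z => z.2 = true ∧ X z.1) (fun z => z.2 = false ∧ Y z.1)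
    (fun z hz => hz.1) (fun z hz => hz.1)
  rintro ⟨f, g, hf, hg, hfg⟩
  refine hbf ⟨fun i => (f i, true), fun j => (g j, false), ?_, ?_, ?_⟩
  · intro a b hab
    exact hf (congrArg Prod.fst hab)
  · intro a b hab
    exact hg (congrArg Prod.fst hab)
  · intro i j
    obtain ⟨x', y', hx, hy, h1, h2⟩ := hfg i j
    exact ⟨(x', true), (y', false), nxt_of X true hr hx, nxt_of Y false hc hy, h1, h2⟩

end T

end P1346e8
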