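import Pool.Agent.Lib.P1346T.VDefsT

/-!
# MODULE VTot: from total decomposability on `V` to rows and columns (about 1 h)

STATEMENTS AND PROOFS.
`totD_of_totDec`: let `W` be a subset of `V × Bool` with elements of both sides.  `ed Prod.snd (rst R X Y)`
is `X x ∧ Y y ∧ R x y` for a row `(x, true)` and a column `(y, false)`.  If `W` contains an element `u` which is a
row `(x, true)` with `¬ X x` or a column `(y, false)` with `¬ Y y`, take `L := (· = u)` in `Sep` (`W` has another
element, on the other side): all entries of `u` are false, `p = q = False`.  Otherwise let `X'` be the set of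
`x` with `(x, true) ∈ W`, `Y'` the set of `y` with `(y, false) ∈ W`; they are non-empty subsets of `X`, `Y`, and
`TotDec` gives a split, `L := {(x, true) : x in the first part} ∪ {(y, false) : y in the first part}`.
`ltZ_lin`: `ltZ lt` is a strict linear order on `V × Bool` if `lt` is one on `V`.
-/

set_option autoImplicit false

namespace P1346e8

namespace T

open L

theorem totD_of_totDec {V : Type} {R : V → V → Prop} {X Y : V → Prop} (h : TotDec R X Y) :
    TotD (Z := V × Bool) Prod.snd (rst R X Y) := by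
  classical
  rintro W ⟨a, b, ha, hb, hab⟩
  by_cases hbad : ∃ u, W u ∧ ((u.2 = true ∧ ¬ X u.1) ∨ (u.2 = false ∧ ¬ Y u.1))
  · obtain ⟨u, hu, hu'⟩ := hbad
    have hother : ∃ w, W w ∧ ¬ w = u := by
      by_cases h1 : a = u
      · refine ⟨b, hb, ?_⟩
        rintro rfl
        exact hab (by rw [h1])
      · exact ⟨a, ha, h1⟩
    refine ⟨fun z => z = u, ⟨u, hu, rfl⟩, hother, False, False, ?_, ?_⟩
    · rintro v w _ _ hv _ hv2 _
      have hv' : v = u := hv
      subst hv'
      rcases hu' with ⟨_, h2⟩ | ⟨h1, _⟩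
      · constructor
        · rintro ⟨h3, _⟩
          exact h2 h3
        · exact False.elim
      · rw [h1] at hv2
        exact absurd hv2 (by decide)
    · rintro v w _ _ hv _ hv2 _
      have hv' : v = u := hv
      subst hv'
      rcases hu' with ⟨h1, _⟩ | ⟨_, h2⟩
      · rw [h1] at hv2
        exact absurd hv2 (by decide)
      · constructor
        · rintro ⟨_, h3, _⟩
          exact h2 h3
        · exact False.elim
  · have hX : ∀ x, W (x, true) → X x := fun x hx => by
      by_contra hn
      exact hbad ⟨(x, true), hx, Or.inl ⟨rfl, hn⟩⟩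
    have hY : ∀ y, W (y, false) → Y y := fun y hy => by
      by_contra hn
      exact hbad ⟨(y, false), hy, Or.inr ⟨rfl, hn⟩⟩
    have hne : (∃ x, W (x, true)) ∧ ∃ y, W (y, false) := by
      obtain ⟨a1, a2⟩ := a
      obtain ⟨b1, b2⟩ := b
      cases a2 <;> cases b2
      · exact absurd rfl hab
      · exact ⟨⟨b1, hb⟩, ⟨a1, ha⟩⟩
      · exact ⟨⟨a1, ha⟩, ⟨b1, hb⟩⟩
      · exact absurd rfl hab
    obtain ⟨X1, Y1, hX1, hY1, hin, hout, p, q, hp, hq⟩ :=
      h (fun x => W (x, true)) (fun y => W (y, false)) hX hY hne.1 hne.2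
    refine ⟨fun z => if z.2 = true then X1 z.1 else Y1 z.1, ?_, ?_, p, q, ?_, ?_⟩
    · rcases hin with ⟨x, hx⟩ | ⟨y, hy⟩
      · exact ⟨(x, true), hX1 x hx, by simpa using hx⟩
      · exact ⟨(y, false), hY1 y hy, by simpa using hy⟩
    · rcases hout with ⟨x, hx, hx'⟩ | ⟨y, hy, hy'⟩
      · exact ⟨(x, true), hx, by simpa using hx'⟩
      · exact ⟨(y, false), hy, by simpa using hy'⟩
    · rintro ⟨x, s⟩ ⟨y, t⟩ hu hv hLu hLv hs ht
      have hs' : s = true := hs
      have ht' : t = false := ht
      subst hs' ht'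
      have h1 : X1 x := by simpa using hLu
      have h2 : ¬ Y1 y := by simpa using hLv
      have h3 := hp x y h1 hv h2
      constructor
      · rintro ⟨_, _, hR⟩
        exact h3.mp hR
      · intro hpp
        exact ⟨hX x hu, hY y hv, h3.mpr hpp⟩
    · rintro ⟨y, s⟩ ⟨x, t⟩ hu hv hLu hLv hs ht
      have hs' : s = false := hs
      have ht' : t = true := ht
      subst hs' ht'
      have h1 : Y1 y := by simpa using hLu
      have h2 : ¬ X1 x := by simpa using hLv
      have h3 := hq x y hv h2 h1
      constructor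
      · rintro ⟨_, _, hR⟩
        exact h3.mp hR
      · intro hpp
        exact ⟨hX x hv, hY y hu, h3.mpr hpp⟩

theorem ltZ_lin {V : Type} {lt : V → V → Prop} (h : StrictLin (fun _ => True) lt) :
    StrictLin (fun _ => True) (ltZ lt) := by
  obtain ⟨hirr, htr, htot⟩ := h
  refine ⟨?_, ?_, ?_⟩
  · rintro ⟨x, s⟩ _ (h1 | ⟨_, h2, h3⟩)
    · exact hirr x trivial h1
    · have h2' : s = true := h2
      have h3' : s = false := h3
      rw [h2'] at h3'
      exact absurd h3' (by decide)
  · rintro ⟨x, s⟩ ⟨y, t⟩ ⟨z, w⟩ _ _ _ (h1 | ⟨h1, h2, h3⟩) (h4 | ⟨h4, h5, h6⟩)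
    · exact Or.inl (htr x y z trivial trivial trivial h1 h4)
    · have h4' : y = z := h4
      subst h4'
      exact Or.inl h1
    · have h1' : x = y := h1
      subst h1'
      exact Or.inl h4
    · have h3' : t = false := h3
      have h5' : t = true := h5
      rw [h5'] at h3'
      exact absurd h3' (by decide)
  · rintro ⟨x, s⟩ ⟨y, t⟩ _ _ hne
    by_cases hxy : x = y
    · subst hxy
      cases s <;> cases t
      · exact absurd rfl hne
      · exact Or.inr (Or.inr ⟨rfl, rfl, rfl⟩)
      · exact Or.inl (Or.inr ⟨rfl, rfl, rfl⟩)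
      · exact absurd rfl hne
    · rcases htot x y trivial trivial hxy with h1 | h1
      · exact Or.inl (Or.inl h1)
      · exact Or.inr (Or.inl h1)

end T

end P1346e8
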